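import Mathlib

set_option autoImplicit false

namespace Pool.Agent.H18.SCD

open Finset

/-- Vertices of the `n`-cube. -/
abbrev V (n : ℕ) := Finset (Fin n)

/-- Level `j` of the `n`-cube. -/
def Lv (n j : ℕ) : Finset (V n) := Finset.powersetCard j Finset.univ

theorem mem_Lv {n j : ℕ} {A : V n} : A ∈ Lv n j ↔ A.card = j := by
  simp [Lv]

theorem card_Lv (n j : ℕ) : (Lv n j).card = n.choose j := by
  simp [Lv]

/-- A predicate `R A x` (with `x ∉ A`) says that the edge `A — insert x A` is *removed*.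
`Nup R B` is the set of upper neighbours of `B` through edges which are not removed. -/
noncomputable def Nup {n : ℕ} (R : V n → Fin n → Prop) (B : Finset (V n)) : Finset (V n) := by
  classical
  exact univ.filter fun A' => ∃ x ∈ A', A'.erase x ∈ B ∧ ¬ R (A'.erase x) x

theorem mem_Nup {n : ℕ} {R : V n → Fin n → Prop} {B : Finset (V n)} {A' : V n} :
    A' ∈ Nup R B ↔ ∃ x ∈ A', A'.erase x ∈ B ∧ ¬ R (A'.erase x) x := by
  classical
  simp [Nup]

/-- at most `u` removed edges upwards from every vertex of level `j`. -/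
def UpDeg {n : ℕ} (j u : ℕ) (R : V n → Fin n → Prop) : Prop :=
  ∀ A : V n, A.card = j → ∀ X : Finset (Fin n), (∀ x ∈ X, x ∉ A ∧ R A x) → X.card ≤ u

/-- at most `v` removed edges downwards from every vertex of level `j+1`. -/
def DownDeg {n : ℕ} (j v : ℕ) (R : V n → Fin n → Prop) : Prop :=
  ∀ A' : V n, A'.card = j + 1 → ∀ X : Finset (Fin n), (∀ x ∈ X, x ∈ A' ∧ R (A'.erase x) x) →
    X.card ≤ v

/-- the pairs `(x,y)` with `x ∉ A`, `x ≠ x0`, `y ∈ A`. -/
def PP {n : ℕ} (A : V n) (x0 : Fin n) : Finset (Fin n × Fin n) :=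
  univ.filter fun p => p.1 ∉ A ∧ p.1 ≠ x0 ∧ p.2 ∈ A

theorem mem_PP {n : ℕ} {A : V n} {x0 : Fin n} {p : Fin n × Fin n} :
    p ∈ PP A x0 ↔ p.1 ∉ A ∧ p.1 ≠ x0 ∧ p.2 ∈ A := by
  simp [PP]

/-- the vertex `A + x - y`. -/
def par {n : ℕ} (A : V n) (p : Fin n × Fin n) : V n := insert p.1 (A.erase p.2)

/-- Number of edges parallel to `(A,x0)` (at Johnson distance one) satisfying `P`. -/
noncomputable def cnt {n : ℕ} (P : V n → Fin n → Prop) (A : V n) (x0 : Fin n) : ℕ := by
  classical
  exact ((PP A x0).filter fun p => P (par A p) x0).card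

/-- the normalized matching property of the graph between levels `j` and `j+1` with the edges
`R` removed. -/
def NMP {n : ℕ} (j : ℕ) (R : V n → Fin n → Prop) : Prop :=
  ∀ B : Finset (V n), (∀ A ∈ B, A.card = j) → (n - j) * B.card ≤ (j + 1) * (Nup R B).card

/-- the upper vertex attached to `A` by `α`. -/
def up {n : ℕ} (α : V n → Fin n) (A : V n) : V n := insert (α A) A

/-- `α` is an injection of level `j` into level `j+1` along edges which are not removed. -/
def Valid {n : ℕ} (j : ℕ) (R : V n → Fin n → Prop) (α : V n → Fin n) : Prop :=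
  (∀ A : V n, A.card = j → α A ∉ A ∧ ¬ R A (α A)) ∧
  (∀ A B : V n, A.card = j → B.card = j → up α A = up α B → A = B)

/-- `σ` is a bijection of level `l` onto itself. -/
def BijLv {n : ℕ} (l : ℕ) (σ : V n → V n) : Prop :=
  (∀ A : V n, A.card = l → (σ A).card = l) ∧
  (∀ A B : V n, A.card = l → B.card = l → σ A = σ B → A = B) ∧
  (∀ B : V n, B.card = l → ∃ A : V n, A.card = l ∧ σ A = B)

/-- the images of `α` and `β` correspond to each other under `σ`. -/
def Linked {n : ℕ} (j : ℕ) (σ : V n → V n) (α β : V n → Fin n) : Prop :=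
  (∀ A : V n, A.card = j → ∃ D : V n, D.card = j ∧ σ (up α A) = up β D) ∧
  (∀ D : V n, D.card = j → ∃ A : V n, A.card = j ∧ σ (up α A) = up β D)

/-- one more step of `k` chain decompositions, from level `j+1` to level `j` (and, for the upper
ends, after complementation, again from level `j+1` to level `j`). -/
def Stage (k n j : ℕ) : Prop :=
  ∀ σ : Fin k → V n → V n, (∀ c, BijLv (j + 1) (σ c)) →
    ∃ α β : Fin k → V n → Fin n,
      (∀ c, Valid j (fun _ _ => False) (α c)) ∧ (∀ c, Valid j (fun _ _ => False) (β c)) ∧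
      (∀ c, Linked j (σ c) (α c) (β c)) ∧
      (∀ c c' : Fin k, c ≠ c' → ∀ A : V n, A.card = j → α c A ≠ α c' A ∧ β c A ≠ β c' A)

/-- adding the edges used by `α` to the removed edges `R`. -/
def ext {n : ℕ} (R : V n → Fin n → Prop) (α : V n → Fin n) : V n → Fin n → Prop :=
  fun A x => R A x ∨ x = α A

/-- a positive proportion `s` of the parallels of every edge is not removed. -/
def Par {n : ℕ} (s : ℝ) (j : ℕ) (R : V n → Fin n → Prop) : Prop :=
  ∀ (A : V n) (x0 : Fin n), A.card = j → x0 ∉ A →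
    s * (((n - j : ℕ) : ℝ) * (j : ℝ)) ≤ (cnt (fun A x => ¬ R A x) A x0 : ℝ)

end Pool.Agent.H18.SCD
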