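import Pool.Agent.H18.SCD.Basic

set_option autoImplicit false

namespace Pool.Agent.H18.SCD

open Finset

theorem resample {I : Type} [Fintype I] [DecidableEq I] {q : ℕ} (H : (I → Fin q) → ℝ) (i : I) :
    ∑ f : I → Fin q, ∑ u : Fin q, H (Function.update f i u) = q * ∑ f : I → Fin q, H f := by
  have h1 : ∑ x : (I → Fin q) × Fin q, H (Function.update x.1 i x.2)
      = ∑ x : (I → Fin q) × Fin q, H x.1 := by
    refine Finset.sum_nbij' (fun x => (Function.update x.1 i x.2, x.1 i))
      (fun x => (Function.update x.1 i x.2, x.1 i)) ?_ ?_ ?_ ?_ ?_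
    · intro x _; exact mem_univ _
    · intro x _; exact mem_univ _
    · rintro ⟨f, u⟩ _
      simp
    · rintro ⟨f, u⟩ _
      simp
    · rintro ⟨f, u⟩ _
      simp
  rw [Fintype.sum_prod_type, Fintype.sum_prod_type] at h1
  rw [h1]
  simp only [Finset.sum_const, Finset.card_univ, Fintype.card_fin, nsmul_eq_mul]
  rw [Finset.mul_sum]

theorem mgf {I ι : Type} [Fintype I] [DecidableEq I] [DecidableEq ι] {q : ℕ} (hq : 0 < q)
    (S : Finset ι) (p p' : ι → I) (t t' : ι → Fin q)
    (hp : ∀ i ∈ S, ∀ k ∈ S, p i = p k → i = k) (hp' : ∀ i ∈ S, ∀ k ∈ S, p' i = p' k → i = k)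
    (hd : ∀ i ∈ S, ∀ k ∈ S, p i ≠ p' k) (w : ℝ) :
    ∑ f : I → Fin q, ∏ i ∈ S, (if f (p i) = t i ∧ f (p' i) = t' i then w else 1)
      = (q : ℝ) ^ (Fintype.card I) * (1 + (w - 1) / (q : ℝ) ^ 2) ^ S.card := by
  induction S using Finset.induction_on with
  | empty => simp
  | insert i0 S' hi0 ih =>
    have ih' := ih (fun i hi k hk => hp i (mem_insert_of_mem hi) k (mem_insert_of_mem hk))
      (fun i hi k hk => hp' i (mem_insert_of_mem hi) k (mem_insert_of_mem hk))
      (fun i hi k hk => hd i (mem_insert_of_mem hi) k (mem_insert_of_mem hk))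
    have hq' : (q : ℝ) ≠ 0 := by positivity
    set G : (I → Fin q) → ℝ := fun f => ∏ i ∈ S', (if f (p i) = t i ∧ f (p' i) = t' i then w else 1)
      with hG
    set F : (I → Fin q) → ℝ := fun f => (if f (p i0) = t i0 ∧ f (p' i0) = t' i0 then w else 1)
      with hF
    have hab : p i0 ≠ p' i0 := hd i0 (mem_insert_self _ _) i0 (mem_insert_self _ _)
    have hne : ∀ i ∈ S', i ≠ i0 := fun i hi h => hi0 (h ▸ hi)
    have hGu : ∀ (f : I → Fin q) (u v : Fin q),
        G (Function.update (Function.update f (p i0) u) (p' i0) v) = G f := by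
      intro f u v
      simp only [hG]
      refine Finset.prod_congr rfl fun i hi => ?_
      have e1 : p i ≠ p' i0 := hd i (mem_insert_of_mem hi) i0 (mem_insert_self _ _)
      have e2 : p i ≠ p i0 := fun h =>
        hne i hi (hp i (mem_insert_of_mem hi) i0 (mem_insert_self _ _) h)
      have e3 : p' i ≠ p' i0 := fun h =>
        hne i hi (hp' i (mem_insert_of_mem hi) i0 (mem_insert_self _ _) h)
      have e4 : p' i ≠ p i0 := fun h =>
        hd i0 (mem_insert_self _ _) i (mem_insert_of_mem hi) h.symm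
      rw [Function.update_of_ne e1, Function.update_of_ne e2, Function.update_of_ne e3,
        Function.update_of_ne e4]
    have hFu : ∀ (f : I → Fin q) (u v : Fin q),
        F (Function.update (Function.update f (p i0) u) (p' i0) v)
          = if u = t i0 ∧ v = t' i0 then w else 1 := by
      intro f u v
      simp only [hF]
      rw [Function.update_of_ne hab, Function.update_self, Function.update_self]
    have hsum : ∑ u : Fin q, ∑ v : Fin q, (if u = t i0 ∧ v = t' i0 then w else (1 : ℝ))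
        = (q : ℝ) ^ 2 + (w - 1) := by
      have : ∀ u v : Fin q, (if u = t i0 ∧ v = t' i0 then w else (1 : ℝ))
          = 1 + (if u = t i0 then (if v = t' i0 then (w - 1) else 0) else 0) := by
        intro u v
        by_cases h1 : u = t i0 <;> by_cases h2 : v = t' i0 <;> simp [h1, h2]
      simp_rw [this, Finset.sum_add_distrib]
      simp
      ring
    have key : (q : ℝ) * (q * ∑ f : I → Fin q, F f * G f)
        = ((q : ℝ) ^ 2 + (w - 1)) * ∑ f : I → Fin q, G f := by
      rw [← resample (fun f => F f * G f) (p' i0)]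
      rw [← resample (fun f => ∑ v : Fin q, (fun f => F f * G f) (Function.update f (p' i0) v))
        (p i0)]
      rw [Finset.mul_sum]
      refine Finset.sum_congr rfl fun f _ => ?_
      rw [← hsum, Finset.sum_mul]
      refine Finset.sum_congr rfl fun u _ => ?_
      rw [Finset.sum_mul]
      refine Finset.sum_congr rfl fun v _ => ?_
      simp only
      rw [hGu, hFu]
    have hprod : ∀ f : I → Fin q,
        ∏ i ∈ insert i0 S', (if f (p i) = t i ∧ f (p' i) = t' i then w else 1) = F f * G f := by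
      intro f
      rw [Finset.prod_insert hi0]
    simp_rw [hprod]
    rw [Finset.card_insert_of_notMem hi0, pow_succ]
    have hGs : ∑ f : I → Fin q, G f
        = (q : ℝ) ^ (Fintype.card I) * (1 + (w - 1) / (q : ℝ) ^ 2) ^ S'.card := ih'
    rw [hGs] at key
    have hq2 : (q : ℝ) ^ 2 ≠ 0 := by positivity
    have : ∑ f : I → Fin q, F f * G f = ((q : ℝ) ^ 2 + (w - 1)) *
        ((q : ℝ) ^ (Fintype.card I) * (1 + (w - 1) / (q : ℝ) ^ 2) ^ S'.card) / (q : ℝ) ^ 2 := by
      rw [eq_div_iff hq2, ← key]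
      ring
    rw [this]
    field_simp

theorem prod_ite_eq_pow {ι : Type} (S : Finset ι) (P : ι → Prop) [DecidablePred P] (w : ℝ) :
    ∏ i ∈ S, (if P i then w else 1) = w ^ (S.filter P).card := by
  rw [Finset.prod_ite]
  simp

theorem tail_low {I ι : Type} [Fintype I] [DecidableEq I] [DecidableEq ι] {q : ℕ} (hq : 0 < q)
    (S : Finset ι) (p p' : ι → I) (t t' : ι → Fin q)
    (hp : ∀ i ∈ S, ∀ k ∈ S, p i = p k → i = k) (hp' : ∀ i ∈ S, ∀ k ∈ S, p' i = p' k → i = k)
    (hd : ∀ i ∈ S, ∀ k ∈ S, p i ≠ p' k) (s : ℕ) :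
    ((univ.filter fun f : I → Fin q =>
        (S.filter fun i => f (p i) = t i ∧ f (p' i) = t' i).card ≤ s).card : ℝ)
      ≤ 2 ^ s * (1 - 1 / (2 * (q : ℝ) ^ 2)) ^ S.card * (q : ℝ) ^ (Fintype.card I) := by
  have h := mgf hq S p p' t t' hp hp' hd (1 / 2)
  simp_rw [prod_ite_eq_pow] at h
  have hq' : (q : ℝ) ≠ 0 := by positivity
  have e1 : (1 + (1 / 2 - 1) / (q : ℝ) ^ 2) = (1 - 1 / (2 * (q : ℝ) ^ 2)) := by
    field_simp
    ring
  rw [e1] at h
  have h2 : ((univ.filter fun f : I → Fin q =>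
        (S.filter fun i => f (p i) = t i ∧ f (p' i) = t' i).card ≤ s).card : ℝ) * (1 / 2) ^ s
      ≤ ∑ f : I → Fin q, (1 / 2 : ℝ) ^ (S.filter fun i => f (p i) = t i ∧ f (p' i) = t' i).card := by
    rw [← nsmul_eq_mul, ← Finset.sum_const]
    refine (Finset.sum_le_sum (g := fun f : I → Fin q =>
      (1 / 2 : ℝ) ^ (S.filter fun i => f (p i) = t i ∧ f (p' i) = t' i).card) ?_).trans ?_
    · intro f hf
      rw [mem_filter] at hf
      exact pow_le_pow_of_le_one (by norm_num) (by norm_num) hf.2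
    · exact Finset.sum_le_sum_of_subset_of_nonneg (Finset.filter_subset _ _)
        (fun _ _ _ => by positivity)
  rw [h] at h2
  have h3 : (2 : ℝ) ^ s * (1 / 2) ^ s = 1 := by
    rw [← mul_pow]; norm_num
  calc ((univ.filter fun f : I → Fin q =>
        (S.filter fun i => f (p i) = t i ∧ f (p' i) = t' i).card ≤ s).card : ℝ)
      = 2 ^ s * (((univ.filter fun f : I → Fin q =>
        (S.filter fun i => f (p i) = t i ∧ f (p' i) = t' i).card ≤ s).card : ℝ) * (1 / 2) ^ s) := by
        rw [mul_left_comm, h3, mul_one]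
    _ ≤ 2 ^ s * ((q : ℝ) ^ (Fintype.card I) * (1 - 1 / (2 * (q : ℝ) ^ 2)) ^ S.card) := by
        exact mul_le_mul_of_nonneg_left h2 (by positivity)
    _ = _ := by ring

theorem tail_up {I ι : Type} [Fintype I] [DecidableEq I] [DecidableEq ι] {q : ℕ} (hq : 3 ≤ q)
    (S : Finset ι) (p p' : ι → I) (t t' : ι → Fin q)
    (hp : ∀ i ∈ S, ∀ k ∈ S, p i = p k → i = k) (hp' : ∀ i ∈ S, ∀ k ∈ S, p' i = p' k → i = k)
    (hd : ∀ i ∈ S, ∀ k ∈ S, p i ≠ p' k) :
    ((univ.filter fun f : I → Fin q =>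
        S.card ≤ 2 * (S.filter fun i => f (p i) = t i ∧ f (p' i) = t' i).card).card : ℝ)
      ≤ (2 / 3) ^ S.card * (q : ℝ) ^ (Fintype.card I) := by
  have h := mgf (by omega) S p p' t t' hp hp' hd 4
  simp_rw [prod_ite_eq_pow] at h
  have hq3 : (3 : ℝ) ≤ q := by exact_mod_cast hq
  have h2 : ((univ.filter fun f : I → Fin q =>
        S.card ≤ 2 * (S.filter fun i => f (p i) = t i ∧ f (p' i) = t' i).card).card : ℝ) * 2 ^ S.card
      ≤ ∑ f : I → Fin q, (4 : ℝ) ^ (S.filter fun i => f (p i) = t i ∧ f (p' i) = t' i).card := by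
    rw [← nsmul_eq_mul, ← Finset.sum_const]
    refine (Finset.sum_le_sum (g := fun f : I → Fin q =>
      (4 : ℝ) ^ (S.filter fun i => f (p i) = t i ∧ f (p' i) = t' i).card) ?_).trans ?_
    · intro f hf
      rw [mem_filter] at hf
      have : (4 : ℝ) = 2 ^ 2 := by norm_num
      rw [this, ← pow_mul]
      exact pow_le_pow_right₀ (by norm_num) hf.2
    · exact Finset.sum_le_sum_of_subset_of_nonneg (Finset.filter_subset _ _)
        (fun _ _ _ => by positivity)
  rw [h] at h2
  have h3 : (1 + (4 - 1) / (q : ℝ) ^ 2) ≤ 4 / 3 := by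
    have : (4 - 1) / (q : ℝ) ^ 2 ≤ 1 / 3 := by
      rw [div_le_iff₀ (by positivity)]
      nlinarith
    linarith
  have h4 : (1 + (4 - 1) / (q : ℝ) ^ 2) ^ S.card ≤ (4 / 3) ^ S.card :=
    pow_le_pow_left₀ (by positivity) h3 _
  have h5 : ((2 : ℝ) / 3) ^ S.card * 2 ^ S.card = (4 / 3) ^ S.card := by
    rw [← mul_pow]; norm_num
  have h6 : (0 : ℝ) < 2 ^ S.card := by positivity
  refine le_of_mul_le_mul_right ?_ h6
  calc _ ≤ (q : ℝ) ^ (Fintype.card I) * (1 + (4 - 1) / (q : ℝ) ^ 2) ^ S.card := h2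
    _ ≤ (q : ℝ) ^ (Fintype.card I) * (4 / 3) ^ S.card :=
        mul_le_mul_of_nonneg_left h4 (by positivity)
    _ = _ := by rw [← h5]; ring

end Pool.Agent.H18.SCD
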