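import Pool.Agent.H18.SCD.Basic

set_option autoImplicit false

namespace Pool.Agent.H18.SCD

open Finset

theorem common_transversal {X Y : Type} [Fintype X] [DecidableEq X] [Fintype Y] [DecidableEq Y]
    (NA : X → Finset Y) (ND : Y → Finset X)
    (h : ∀ (B : Finset X) (Z : Finset Y),
      B.card ≤ ((B.biUnion NA) \ Z).card + (Z.biUnion ND).card) :
    ∃ α β : X → Y, Function.Injective α ∧ Function.Injective β ∧ (∀ A, α A ∈ NA A) ∧
      (∀ D, D ∈ ND (β D)) ∧ (∀ A, ∃ D, α A = β D) ∧ (∀ D, ∃ A, α A = β D) := by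
  classical
  let t : X ⊕ Y → Finset (Y ⊕ X) := fun z => match z with
    | Sum.inl A => (NA A).image Sum.inl
    | Sum.inr y => insert (Sum.inl y) ((ND y).image Sum.inr)
  have hall : ∀ S : Finset (X ⊕ Y), S.card ≤ (S.biUnion t).card := by
    intro S
    let B : Finset X := univ.filter fun A => Sum.inl A ∈ S
    let Z : Finset Y := univ.filter fun y => Sum.inr y ∈ S
    have hS : S.card = B.card + Z.card := by
      have e : S = (B.image Sum.inl) ∪ (Z.image Sum.inr) := by
        ext z
        rcases z with A | y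
        · simp [B]
        · simp [Z]
      rw [e, Finset.card_union_of_disjoint, Finset.card_image_of_injective _ Sum.inl_injective,
        Finset.card_image_of_injective _ Sum.inr_injective]
      rw [Finset.disjoint_left]
      intro z hz hz'
      rw [mem_image] at hz hz'
      obtain ⟨a, _, rfl⟩ := hz
      obtain ⟨b, _, hb⟩ := hz'
      exact absurd hb (by simp)
    have hT : ((((B.biUnion NA) \ Z).card + Z.card) + (Z.biUnion ND).card) ≤ (S.biUnion t).card := by
      have hsub : (((((B.biUnion NA) \ Z) ∪ Z).image Sum.inl) ∪ ((Z.biUnion ND).image Sum.inr))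
          ⊆ S.biUnion t := by
        intro z hz
        rw [mem_biUnion]
        rw [mem_union, mem_image, mem_image] at hz
        rcases hz with ⟨y, hy, rfl⟩ | ⟨D, hD, rfl⟩
        · rw [mem_union] at hy
          rcases hy with hy | hy
          · rw [mem_sdiff, mem_biUnion] at hy
            obtain ⟨⟨A, hA, hyA⟩, _⟩ := hy
            refine ⟨Sum.inl A, ?_, ?_⟩
            · simpa [B] using hA
            · simp only [t]
              exact mem_image_of_mem _ hyA
          · refine ⟨Sum.inr y, ?_, ?_⟩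
            · simpa [Z] using hy
            · simp only [t]
              exact mem_insert_self _ _
        · rw [mem_biUnion] at hD
          obtain ⟨y, hy, hyD⟩ := hD
          refine ⟨Sum.inr y, ?_, ?_⟩
          · simpa [Z] using hy
          · simp only [t]
            exact mem_insert_of_mem (mem_image_of_mem _ hyD)
      refine le_trans (le_of_eq ?_) (Finset.card_le_card hsub)
      rw [Finset.card_union_of_disjoint, Finset.card_image_of_injective _ Sum.inl_injective,
        Finset.card_image_of_injective _ Sum.inr_injective, Finset.card_union_of_disjoint]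
      · exact Finset.sdiff_disjoint
      · rw [Finset.disjoint_left]
        intro z hz hz'
        rw [mem_image] at hz hz'
        obtain ⟨a, _, rfl⟩ := hz
        obtain ⟨b, _, hb⟩ := hz'
        exact absurd hb (by simp)
    have := h B Z
    omega
  obtain ⟨f, hf, hft⟩ := (Finset.all_card_le_biUnion_card_iff_exists_injective t).1 hall
  have hbij : Function.Bijective f := by
    rw [Fintype.bijective_iff_injective_and_card]
    refine ⟨hf, ?_⟩
    rw [Fintype.card_sum, Fintype.card_sum, Nat.add_comm]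
  have hα : ∀ A : X, ∃ y : Y, f (Sum.inl A) = Sum.inl y ∧ y ∈ NA A := by
    intro A
    have := hft (Sum.inl A)
    simp only [t, mem_image] at this
    obtain ⟨y, hy, hy2⟩ := this
    exact ⟨y, hy2.symm, hy⟩
  choose α hα1 hα2 using hα
  have hβ : ∀ D : X, ∃ y : Y, f (Sum.inr y) = Sum.inr D ∧ D ∈ ND y := by
    intro D
    obtain ⟨z, hz⟩ := hbij.2 (Sum.inr D)
    rcases z with A | y
    · rw [hα1] at hz
      exact absurd hz (by simp)
    · refine ⟨y, hz, ?_⟩
      have := hft (Sum.inr y)
      rw [hz] at this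
      simpa [t] using this
  choose β hβ1 hβ2 using hβ
  refine ⟨α, β, ?_, ?_, hα2, hβ2, ?_, ?_⟩
  · intro A A' hA
    have : f (Sum.inl A) = f (Sum.inl A') := by rw [hα1, hα1, hA]
    exact Sum.inl_injective (hf this)
  · intro D D' hD
    have : (Sum.inr D : Y ⊕ X) = Sum.inr D' := by rw [← hβ1, ← hβ1, hD]
    exact Sum.inr_injective this
  · intro A
    have := hft (Sum.inr (α A))
    simp only [t, mem_insert, mem_image] at this
    rcases this with h1 | ⟨D, hD, hD2⟩
    · rw [← hα1] at h1
      exact absurd (hf h1) (by simp)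
    · refine ⟨D, ?_⟩
      have : f (Sum.inr (α A)) = f (Sum.inr (β D)) := by rw [hβ1, hD2]
      exact Sum.inr_injective (hf this)
  · intro D
    obtain ⟨z, hz⟩ := hbij.2 (Sum.inl (β D))
    rcases z with A | y
    · rw [hα1] at hz
      exact ⟨A, Sum.inl_injective hz⟩
    · have := hft (Sum.inr y)
      rw [hz] at this
      simp only [t, mem_insert, mem_image] at this
      rcases this with h1 | ⟨D', _, hD2⟩
      · have hy := Sum.inl_injective h1
        rw [← hy, hβ1] at hz
        exact absurd hz (by simp)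
      · exact absurd hD2 (by simp)

theorem card_Nup_level {n j : ℕ} {R : V n → Fin n → Prop} {B : Finset (V n)}
    (hB : ∀ A ∈ B, A.card = j) : ∀ A' ∈ Nup R B, A'.card = j + 1 := by
  intro A' hA'
  obtain ⟨x, hx, hxB, _⟩ := mem_Nup.1 hA'
  have h1 := hB _ hxB
  rw [Finset.card_erase_of_mem hx] at h1
  have : 0 < A'.card := Finset.card_pos.2 ⟨x, hx⟩
  omega

/-- General linking lemma with restricted sets of usable chains.  `Rα`, `Rβ` removed edges. -/
theorem link_of_hall {n j : ℕ} (hn : 0 < n) (Rα Rβ : V n → Fin n → Prop)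
    (σ : V n → V n) (hσ : BijLv (j + 1) σ)
    (h : ∀ (B : Finset (V n)) (Z : Finset (V n)) (E : Finset (V n)), (∀ A ∈ B, A.card = j) →
      (∀ A ∈ Z, A.card = j + 1) → (∀ D, D ∈ E ↔ (D.card = j ∧ ∃ y ∈ Z, σ y ∈ Nup Rβ {D})) →
      B.card ≤ (Nup Rα B \ Z).card + E.card) :
    ∃ α β : V n → Fin n, Valid j Rα α ∧ Valid j Rβ β ∧ Linked j σ α β := by
  classical
  let X := {A : V n // A.card = j}
  let Y := {A : V n // A.card = j + 1}
  let NA : X → Finset Y := fun A => univ.filter fun y => y.1 ∈ Nup Rα {A.1}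
  let ND : Y → Finset X := fun y => univ.filter fun D => σ y.1 ∈ Nup Rβ {D.1}
  have hall : ∀ (B : Finset X) (Z : Finset Y),
      B.card ≤ ((B.biUnion NA) \ Z).card + (Z.biUnion ND).card := by
    intro B Z
    have h1 := h (B.image Subtype.val) (Z.image Subtype.val) ((Z.biUnion ND).image Subtype.val)
      (by
        intro A hA
        rw [mem_image] at hA
        obtain ⟨a, _, rfl⟩ := hA
        exact a.2)
      (by
        intro A hA
        rw [mem_image] at hA
        obtain ⟨a, _, rfl⟩ := hA
        exact a.2)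
      (by
        intro D
        rw [mem_image]
        constructor
        · rintro ⟨a, ha, rfl⟩
          rw [mem_biUnion] at ha
          obtain ⟨y, hy, hya⟩ := ha
          simp only [ND, mem_filter, mem_univ, true_and] at hya
          exact ⟨a.2, y.1, mem_image_of_mem _ hy, hya⟩
        · rintro ⟨hD, y, hy, hyD⟩
          rw [mem_image] at hy
          obtain ⟨y', hy', rfl⟩ := hy
          refine ⟨⟨D, hD⟩, ?_, rfl⟩
          rw [mem_biUnion]
          exact ⟨y', hy', by simp only [ND, mem_filter, mem_univ, true_and]; exact hyD⟩)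
    rw [Finset.card_image_of_injective _ Subtype.val_injective,
      Finset.card_image_of_injective _ Subtype.val_injective] at h1
    refine h1.trans (Nat.add_le_add_right ?_ _)
    rw [← Finset.card_image_of_injective ((B.biUnion NA) \ Z) Subtype.val_injective]
    apply Finset.card_le_card
    intro y hy
    rw [mem_sdiff, mem_Nup] at hy
    obtain ⟨⟨x, hx, hxB, hR⟩, hyZ⟩ := hy
    rw [mem_image] at hxB
    obtain ⟨A, hA, hAe⟩ := hxB
    have hyc : y.card = j + 1 := by
      have h1 := A.2
      rw [hAe, Finset.card_erase_of_mem hx] at h1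
      have : 0 < y.card := Finset.card_pos.2 ⟨x, hx⟩
      omega
    rw [mem_image]
    refine ⟨⟨y, hyc⟩, ?_, rfl⟩
    rw [mem_sdiff, mem_biUnion]
    refine ⟨⟨A, hA, ?_⟩, ?_⟩
    · simp only [NA, mem_filter, mem_univ, true_and, mem_Nup, mem_singleton]
      exact ⟨x, hx, hAe.symm, hR⟩
    · intro hZ
      exact hyZ (mem_image_of_mem _ hZ)
  obtain ⟨α, β, hα, hβ, hαN, hβN, h1, h2⟩ := common_transversal NA ND hall
  have hα' : ∀ A : X, ∃ x : Fin n, x ∉ A.1 ∧ ¬ Rα A.1 x ∧ insert x A.1 = (α A).1 := by
    intro A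
    have := hαN A
    simp only [NA, mem_filter, mem_univ, true_and, mem_Nup, mem_singleton] at this
    obtain ⟨x, hx, hxA, hR⟩ := this
    refine ⟨x, ?_, ?_, ?_⟩
    · rw [← hxA]; simp
    · rw [← hxA]; exact hR
    · rw [← hxA, Finset.insert_erase hx]
  have hβ' : ∀ D : X, ∃ x : Fin n, x ∉ D.1 ∧ ¬ Rβ D.1 x ∧ insert x D.1 = σ (β D).1 := by
    intro D
    have := hβN D
    simp only [ND, mem_filter, mem_univ, true_and, mem_Nup, mem_singleton] at this
    obtain ⟨x, hx, hxA, hR⟩ := this
    refine ⟨x, ?_, ?_, ?_⟩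
    · rw [← hxA]; simp
    · rw [← hxA]; exact hR
    · rw [← hxA, Finset.insert_erase hx]
  choose a ha1 ha2 ha3 using hα'
  choose b hb1 hb2 hb3 using hβ'
  let x0 : Fin n := ⟨0, hn⟩
  let αf : V n → Fin n := fun A => if hA : A.card = j then a ⟨A, hA⟩ else x0
  let βf : V n → Fin n := fun A => if hA : A.card = j then b ⟨A, hA⟩ else x0
  have eα : ∀ (A : V n) (hA : A.card = j), up αf A = (α ⟨A, hA⟩).1 := by
    intro A hA
    simp only [up, αf, hA, dif_pos]
    exact ha3 ⟨A, hA⟩
  have eβ : ∀ (A : V n) (hA : A.card = j), up βf A = σ (β ⟨A, hA⟩).1 := by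
    intro A hA
    simp only [up, βf, hA, dif_pos]
    exact hb3 ⟨A, hA⟩
  refine ⟨αf, βf, ⟨?_, ?_⟩, ⟨?_, ?_⟩, ?_, ?_⟩
  · intro A hA
    simp only [αf, hA, dif_pos]
    exact ⟨ha1 ⟨A, hA⟩, ha2 ⟨A, hA⟩⟩
  · intro A B hA hB hAB
    rw [eα A hA, eα B hB] at hAB
    have := hα (Subtype.ext hAB)
    exact congrArg Subtype.val this
  · intro A hA
    simp only [βf, hA, dif_pos]
    exact ⟨hb1 ⟨A, hA⟩, hb2 ⟨A, hA⟩⟩
  · intro A B hA hB hAB
    rw [eβ A hA, eβ B hB] at hAB
    have h3 := hσ.2.1 _ _ (β ⟨A, hA⟩).2 (β ⟨B, hB⟩).2 hAB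
    have := hβ (Subtype.ext h3)
    exact congrArg Subtype.val this
  · intro A hA
    obtain ⟨D, hD⟩ := h1 ⟨A, hA⟩
    refine ⟨D.1, D.2, ?_⟩
    rw [eα A hA, hD, eβ D.1 D.2]
  · intro D hD
    obtain ⟨A, hA⟩ := h2 ⟨D, hD⟩
    refine ⟨A.1, A.2, ?_⟩
    rw [eα A.1 A.2, hA, eβ D hD]

theorem griggs {n j : ℕ} (hj : 2 * j + 1 ≤ n) (Rα Rβ : V n → Fin n → Prop)
    (hα : NMP j Rα) (hβ : NMP j Rβ) (σ : V n → V n) (hσ : BijLv (j + 1) σ) :
    ∃ α β : V n → Fin n, Valid j Rα α ∧ Valid j Rβ β ∧ Linked j σ α β := by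
  classical
  refine link_of_hall (by omega) Rα Rβ σ hσ ?_
  intro B Z E hB hZ hE
  -- sizes
  set a := n - j with ha
  set b := j + 1 with hb
  have hab : b ≤ a := by omega
  have hN : b * n.choose (j + 1) = a * n.choose j := by
    rw [ha, hb, Nat.mul_comm, Nat.choose_succ_right_eq, Nat.mul_comm]
  -- first inequality
  have h1 : a * B.card ≤ b * (Nup Rα B).card := hα B hB
  -- second inequality
  have h2 : b * Z.card ≤ a * E.card := by
    let B' : Finset (V n) := (Lv n j) \ E
    have hEsub : E ⊆ Lv n j := fun D hD => mem_Lv.2 ((hE D).1 hD).1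
    have hB'c : B'.card + E.card = n.choose j := by
      rw [← card_Lv n j]
      exact Finset.card_sdiff_add_card_eq_card hEsub
    have hB' : ∀ A ∈ B', A.card = j := fun A hA => mem_Lv.1 (mem_sdiff.1 hA).1
    have h3 := hβ B' hB'
    have hdisj : Disjoint (Nup Rβ B') (Z.image σ) := by
      rw [Finset.disjoint_left]
      intro y hy hy2
      rw [mem_image] at hy2
      obtain ⟨z, hz, rfl⟩ := hy2
      obtain ⟨x, hx, hxB, hR⟩ := mem_Nup.1 hy
      have h4 := mem_sdiff.1 hxB
      apply h4.2
      rw [hE]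
      refine ⟨hB' _ hxB, z, hz, ?_⟩
      rw [mem_Nup]
      exact ⟨x, hx, by simp, hR⟩
    have hsub : Nup Rβ B' ∪ Z.image σ ⊆ Lv n (j + 1) := by
      intro y hy
      rw [mem_union] at hy
      rcases hy with hy | hy
      · exact mem_Lv.2 (card_Nup_level hB' y hy)
      · rw [mem_image] at hy
        obtain ⟨z, hz, rfl⟩ := hy
        exact mem_Lv.2 (hσ.1 z (hZ z hz))
    have h5 := Finset.card_le_card hsub
    rw [Finset.card_union_of_disjoint hdisj, card_Lv, Finset.card_image_of_injOn] at h5
    · have h6 : b * (Nup Rβ B').card + b * Z.card ≤ a * n.choose j := by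
        rw [← hN, ← Nat.mul_add]
        exact Nat.mul_le_mul_left _ h5
      have h7 : a * n.choose j = a * B'.card + a * E.card := by
        rw [← Nat.mul_add, hB'c]
      have h8 : a * B'.card ≤ b * (Nup Rβ B').card := h3
      omega
    · intro z hz z' hz' h
      exact hσ.2.1 z z' (hZ z hz) (hZ z' hz') h
  by_cases hc : a * B.card ≤ b * Z.card
  · have : a * B.card ≤ a * E.card := hc.trans h2
    have h3 := Nat.le_of_mul_le_mul_left this (by omega)
    omega
  · push Not at hc
    have h3 : (Nup Rα B).card ≤ (Nup Rα B \ Z).card + Z.card := by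
      have := Finset.card_le_card_sdiff_add_card (s := Nup Rα B) (t := Z)
      omega
    -- multiply everything by a * b
    have h4 : a * b * B.card ≤ a * b * ((Nup Rα B \ Z).card + E.card) := by
      have e1 : a * b * (Nup Rα B).card ≤ a * b * (Nup Rα B \ Z).card + a * b * Z.card := by
        rw [← Nat.mul_add]
        exact Nat.mul_le_mul_left _ h3
      have e2 : a * (a * B.card) ≤ a * b * (Nup Rα B).card := by
        rw [Nat.mul_assoc]
        exact Nat.mul_le_mul_left _ h1
      have e3 : b * (b * Z.card) ≤ a * b * E.card := by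
        calc b * (b * Z.card) ≤ b * (a * E.card) := Nat.mul_le_mul_left _ h2
          _ = a * b * E.card := by ring
      obtain ⟨d, hd⟩ := Nat.exists_eq_add_of_le hab
      rw [Nat.mul_add]
      have e4 : d * (b * Z.card) ≤ d * (a * B.card) := Nat.mul_le_mul_left _ hc.le
      rw [hd] at e1 e2 e3 e4 ⊢
      nlinarith
    have hpos : 0 < a * b := Nat.mul_pos (by omega) (by omega)
    exact Nat.le_of_mul_le_mul_left h4 hpos

end Pool.Agent.H18.SCD
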