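import Pool.Agent.H18.SCD.Basic
import Pool.Agent.H18.SCD.T2
import Pool.Agent.H18.SCD.T4

set_option autoImplicit false

namespace Pool.Agent.H18.SCD

namespace T5b

section Part2

open Finset

/-- upper neighbours -/
def Nb {n : ℕ} (j : ℕ) (D : Finset (V n)) : Finset (V n) :=
  univ.filter fun y => y.card = j + 1 ∧ ∃ A ∈ D, A ⊆ y

/-- the sets above no element of `B` -/
def Wb {n : ℕ} (j : ℕ) (B : Finset (V n)) : Finset (V n) :=
  univ.filter fun y => y.card = j + 1 ∧ ∀ A ∈ B, ¬ A ⊆ y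

theorem mem_Nb {n j : ℕ} {D : Finset (V n)} {y : V n} :
    y ∈ Nb j D ↔ y.card = j + 1 ∧ ∃ A ∈ D, A ⊆ y := by
  simp [Nb]

theorem mem_Wb {n j : ℕ} {D : Finset (V n)} {y : V n} :
    y ∈ Wb j D ↔ y.card = j + 1 ∧ ∀ A ∈ D, ¬ A ⊆ y := by
  simp [Wb]

theorem card_Nb {n j : ℕ} (D : Finset (V n)) (hD : ∀ A ∈ D, A.card = j) :
    (n - j) * D.card ≤ (j + 1) * (Nb j D).card := by
  classical
  have := Finset.card_mul_le_card_mul (s := D) (t := Nb j D) (fun A y : V n => A ⊆ y)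
    (m := n - j) (n := j + 1) ?_ ?_
  · rw [mul_comm, mul_comm (j + 1)]
    exact this
  · intro A hA
    have hc : (Aᶜ.image fun x => insert x A).card = n - j := by
      rw [Finset.card_image_of_injOn, Finset.card_compl, Fintype.card_fin, hD A hA]
      intro x hx y hy hxy
      have hx' : x ∉ A := by simpa using hx
      have hxy' : insert x A = insert y A := hxy
      have hxx : x ∈ insert y A := by
        rw [← hxy']
        exact Finset.mem_insert_self _ _
      rcases Finset.mem_insert.1 hxx with h | h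
      · exact h
      · exact absurd h hx'
    rw [← hc]
    apply Finset.card_le_card
    intro y hy
    rw [Finset.mem_image] at hy
    obtain ⟨x, hx, rfl⟩ := hy
    have hx' : x ∉ A := by simpa using hx
    rw [Finset.mem_bipartiteAbove, mem_Nb]
    refine ⟨⟨?_, A, hA, Finset.subset_insert _ _⟩, Finset.subset_insert _ _⟩
    rw [Finset.card_insert_of_notMem hx', hD A hA]
  · intro y hy
    rw [mem_Nb] at hy
    have hsub : D.bipartiteBelow (fun A y : V n => A ⊆ y) y ⊆ Finset.powersetCard j y := by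
      intro A hA
      rw [Finset.mem_bipartiteBelow] at hA
      rw [Finset.mem_powersetCard]
      exact ⟨hA.2, hD A hA.1⟩
    have h2 := Finset.card_le_card hsub
    rw [Finset.card_powersetCard, hy.1, Nat.choose_succ_self_right] at h2
    exact h2

/-- the pairs `(A, x)` with `A` in `C` and `x` not in `A` -/
theorem card_pairs {n j : ℕ} (C : Finset (V n)) (hC : ∀ A ∈ C, A.card = j) :
    ((univ : Finset (V n × Fin n)).filter fun t => t.1 ∈ C ∧ t.2 ∉ t.1).card =
      (n - j) * C.card := by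
  classical
  have h := Finset.card_eq_sum_card_fiberwise
    (s := (univ : Finset (V n × Fin n)).filter fun t => t.1 ∈ C ∧ t.2 ∉ t.1)
    (t := C) (f := Prod.fst) (by
      intro t ht
      have : t ∈ (univ : Finset (V n × Fin n)).filter fun t => t.1 ∈ C ∧ t.2 ∉ t.1 := ht
      rw [Finset.mem_filter] at this
      exact this.2.1)
  rw [h, Finset.sum_const_nat (m := n - j), mul_comm]
  intro A hA
  have : (((univ : Finset (V n × Fin n)).filter fun t => t.1 ∈ C ∧ t.2 ∉ t.1).filter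
      fun t => t.1 = A) = Aᶜ.image fun x => (A, x) := by
    ext ⟨A', x⟩
    simp only [Finset.mem_filter, Finset.mem_univ, true_and, Finset.mem_image,
      Finset.mem_compl, Prod.mk.injEq]
    constructor
    · rintro ⟨⟨h1, h2⟩, rfl⟩
      exact ⟨x, h2, rfl, rfl⟩
    · rintro ⟨y, hy, rfl, rfl⟩
      exact ⟨⟨hA, hy⟩, rfl⟩
  rw [this, Finset.card_image_of_injective, Finset.card_compl, Fintype.card_fin, hC A hA]
  intro x y hxy
  exact (Prod.mk.inj hxy).2

theorem card_pairs' {n j : ℕ} (W : Finset (V n)) (hW : ∀ y ∈ W, y.card = j + 1) :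
    ((univ : Finset (V n × Fin n)).filter fun t => t.1 ∈ W ∧ t.2 ∈ t.1).card =
      (j + 1) * W.card := by
  classical
  have h := Finset.card_eq_sum_card_fiberwise
    (s := (univ : Finset (V n × Fin n)).filter fun t => t.1 ∈ W ∧ t.2 ∈ t.1)
    (t := W) (f := Prod.fst) (by
      intro t ht
      have : t ∈ (univ : Finset (V n × Fin n)).filter fun t => t.1 ∈ W ∧ t.2 ∈ t.1 := ht
      rw [Finset.mem_filter] at this
      exact this.2.1)
  rw [h, Finset.sum_const_nat (m := j + 1), mul_comm]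
  intro A hA
  have : (((univ : Finset (V n × Fin n)).filter fun t => t.1 ∈ W ∧ t.2 ∈ t.1).filter
      fun t => t.1 = A) = A.image fun x => (A, x) := by
    ext ⟨A', x⟩
    simp only [Finset.mem_filter, Finset.mem_univ, true_and, Finset.mem_image,
      Prod.mk.injEq]
    constructor
    · rintro ⟨⟨h1, h2⟩, rfl⟩
      exact ⟨x, h2, rfl, rfl⟩
    · rintro ⟨y, hy, rfl, rfl⟩
      exact ⟨⟨hA, hy⟩, rfl⟩
  rw [this, Finset.card_image_of_injective, hW A hA]
  intro x y hxy
  exact (Prod.mk.inj hxy).2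

/-- the boundary of `Bb` counted by triples and by pairs -/
theorem card_Wb {n j : ℕ} (B Bb : Finset (V n))
    (hBb : ∀ A : V n, A.card = j → (A ∈ Bb ↔ A ∉ B)) (hBj : ∀ A ∈ Bb, A.card = j) :
    ∃ e : ℕ, (j + 1) * (Wb j B).card + e ≤ (n - j) * Bb.card ∧
      ((univ : Finset (V n × Fin n × Fin n)).filter fun t =>
        t.1 ∈ Bb ∧ t.2.1 ∉ t.1 ∧ t.2.2 ∈ t.1 ∧ insert t.2.1 (t.1.erase t.2.2) ∉ Bb).card ≤
        j * e := by
  classical
  obtain ⟨E, hE⟩ : ∃ E : Finset (V n × Fin n), E =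
    ((univ : Finset (V n × Fin n)).filter fun t => t.1 ∈ Bb ∧ t.2 ∉ t.1).filter
      fun t => insert t.2 t.1 ∉ Wb j B := ⟨_, rfl⟩
  obtain ⟨E', hE'⟩ : ∃ E' : Finset (V n × Fin n), E' =
    ((univ : Finset (V n × Fin n)).filter fun t => t.1 ∈ Bb ∧ t.2 ∉ t.1).filter
      fun t => ¬ (insert t.2 t.1 ∉ Wb j B) := ⟨_, rfl⟩
  have hsum : E.card + E'.card = (n - j) * Bb.card := by
    rw [hE, hE', Finset.card_filter_add_card_filter_not, card_pairs Bb hBj]
  refine ⟨E.card, ?_, ?_⟩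
  · have h1 : (j + 1) * (Wb j B).card ≤ E'.card := by
      rw [← card_pairs' (Wb j B) (fun y hy => (mem_Wb.1 hy).1)]
      apply Finset.card_le_card_of_injOn (fun t => (t.1.erase t.2, t.2))
      · intro t ht
        have ht' : t ∈ (univ : Finset (V n × Fin n)).filter fun t => t.1 ∈ Wb j B ∧ t.2 ∈ t.1 := ht
        rw [Finset.mem_filter] at ht'
        obtain ⟨-, h1, h2⟩ := ht'
        have h3 := mem_Wb.1 h1
        have h4 : (t.1.erase t.2).card = j := by
          rw [Finset.card_erase_of_mem h2, h3.1]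
          omega
        show (t.1.erase t.2, t.2) ∈ E'
        rw [hE', Finset.mem_filter, Finset.mem_filter]
        refine ⟨⟨Finset.mem_univ _, ?_, ?_⟩, ?_⟩
        · rw [hBb _ h4]
          intro h5
          exact h3.2 _ h5 (Finset.erase_subset _ _)
        · exact Finset.notMem_erase _ _
        · rw [not_not]
          show insert t.2 (t.1.erase t.2) ∈ Wb j B
          rw [Finset.insert_erase h2]
          exact h1
      · intro t ht t' ht' he
        have ht1 : t ∈ (univ : Finset (V n × Fin n)).filter fun t => t.1 ∈ Wb j B ∧ t.2 ∈ t.1 := ht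
        have ht2 : t' ∈ (univ : Finset (V n × Fin n)).filter fun t => t.1 ∈ Wb j B ∧ t.2 ∈ t.1 :=
          ht'
        rw [Finset.mem_filter] at ht1 ht2
        have he1 : t.1.erase t.2 = t'.1.erase t'.2 := (Prod.mk.inj he).1
        have he2 : t.2 = t'.2 := (Prod.mk.inj he).2
        have e1 : t.1 = insert t.2 (t.1.erase t.2) := (Finset.insert_erase ht1.2.2).symm
        have e2 : t'.1 = insert t'.2 (t'.1.erase t'.2) := (Finset.insert_erase ht2.2.2).symm
        refine Prod.ext ?_ he2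
        rw [e1, e2, he1, he2]
    omega
  · apply Finset.card_le_mul_card_image_of_maps_to (f := fun t => (t.1, t.2.1)) (t := E)
    · intro t ht
      rw [Finset.mem_filter] at ht
      obtain ⟨-, h1, h2, h3, h4⟩ := ht
      rw [hE, Finset.mem_filter, Finset.mem_filter]
      refine ⟨⟨Finset.mem_univ _, h1, h2⟩, ?_⟩
      intro h5
      have h6 := mem_Wb.1 h5
      have h7 : (insert t.2.1 (t.1.erase t.2.2)).card = j := by
        rw [Finset.card_insert_of_notMem (fun h => h2 (Finset.mem_of_mem_erase h)),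
          Finset.card_erase_of_mem h3, hBj _ h1]
        have : 0 < t.1.card := Finset.card_pos.2 ⟨_, h3⟩
        rw [hBj _ h1] at this
        omega
      rw [hBb _ h7, not_not] at h4
      exact h6.2 _ h4 (Finset.insert_subset_insert _ (Finset.erase_subset _ _))
    · intro b hb
      rw [hE, Finset.mem_filter, Finset.mem_filter] at hb
      have hb1 := hBj _ hb.1.2.1
      rw [← hb1]
      apply Finset.card_le_card_of_injOn (fun t => t.2.2)
      · intro t ht
        have ht' : t ∈ ((univ : Finset (V n × Fin n × Fin n)).filter fun t =>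
          t.1 ∈ Bb ∧ t.2.1 ∉ t.1 ∧ t.2.2 ∈ t.1 ∧ insert t.2.1 (t.1.erase t.2.2) ∉ Bb).filter
            fun t => (t.1, t.2.1) = b := ht
        rw [Finset.mem_filter, Finset.mem_filter] at ht'
        show t.2.2 ∈ b.1
        rw [← ht'.2]
        exact ht'.1.2.2.2.1
      · intro t ht t' ht' he
        have ht1 : t ∈ ((univ : Finset (V n × Fin n × Fin n)).filter fun t =>
          t.1 ∈ Bb ∧ t.2.1 ∉ t.1 ∧ t.2.2 ∈ t.1 ∧ insert t.2.1 (t.1.erase t.2.2) ∉ Bb).filter
            fun t => (t.1, t.2.1) = b := ht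
        have ht2 : t' ∈ ((univ : Finset (V n × Fin n × Fin n)).filter fun t =>
          t.1 ∈ Bb ∧ t.2.1 ∉ t.1 ∧ t.2.2 ∈ t.1 ∧ insert t.2.1 (t.1.erase t.2.2) ∉ Bb).filter
            fun t => (t.1, t.2.1) = b := ht'
        rw [Finset.mem_filter] at ht1 ht2
        have e := ht1.2.trans ht2.2.symm
        have e1 : t.1 = t'.1 := (Prod.mk.inj e).1
        have e2 : t.2.1 = t'.2.1 := (Prod.mk.inj e).2
        exact Prod.ext e1 (Prod.ext e2 he)

/-- the arithmetic of the counting lemma -/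
theorem count_arith {n j b d W N e T κ : ℕ} (hn : 4 * (j + 1) ^ 2 ≤ n) (hbd : b ≤ d)
    (h1 : (n - j) * d ≤ (j + 1) * N) (h2 : (j + 1) * W + e ≤ (n - j) * b)
    (h3 : T ≤ j * e) (h4 : n * b ≤ 2 * j ^ 2 * b + 2 * T) (hκ : 4 * (j + 1) ^ 2 * κ ≤ n) :
    κ * d + W ≤ N := by
  have hjn : j ≤ 4 * (j + 1) ^ 2 := by nlinarith
  obtain ⟨a, ha⟩ : ∃ a, n = a + j := ⟨n - j, by omega⟩
  subst ha
  rw [Nat.add_sub_cancel] at h1 h2
  have key : 4 * (j + 1) ^ 2 * (κ * d + W) ≤ 4 * (j + 1) ^ 2 * N := by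
    obtain ⟨g, hg⟩ : ∃ g, d = b + g := ⟨d - b, by omega⟩
    subst hg
    zify at *
    have p1 : (0 : ℤ) ≤ j := Int.natCast_nonneg _
    have p2 : (0 : ℤ) ≤ b := Int.natCast_nonneg _
    have p3 : (0 : ℤ) ≤ g := Int.natCast_nonneg _
    have p4 : (0 : ℤ) ≤ e := Int.natCast_nonneg _
    have p5 : (0 : ℤ) ≤ a := Int.natCast_nonneg _
    have q1 : 4 * ((j : ℤ) + 1) ^ 2 * κ * (b + g) ≤ (a + j) * (b + g) :=
      mul_le_mul_of_nonneg_right hκ (by linarith)
    have q2 : 4 * ((j : ℤ) + 1) * ((j + 1) * W + e) ≤ 4 * ((j : ℤ) + 1) * (a * b) :=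
      mul_le_mul_of_nonneg_left h2 (by linarith)
    have q3 : 4 * ((j : ℤ) + 1) * (a * (b + g)) ≤ 4 * ((j : ℤ) + 1) * ((j + 1) * N) :=
      mul_le_mul_of_nonneg_left h1 (by linarith)
    have q4 : 0 ≤ ((a : ℤ) + j - 4 * j ^ 2) * b := by
      apply mul_nonneg _ p2
      nlinarith
    have q5 : 0 ≤ (4 * ((j : ℤ) + 1) * a - (a + j)) * g := by
      apply mul_nonneg _ p3
      nlinarith
    nlinarith
  exact Nat.le_of_mul_le_mul_left key (by positivity)

end Part2

section Part3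

open Finset

/-- the statement of the isoperimetric inequality -/
def JohnsonStatement : Prop :=
  ∀ {n j : ℕ} (B : Finset (V n)), (∀ A ∈ B, A.card = j) → 2 * B.card ≤ n.choose j →
    n * B.card ≤ 2 * j ^ 2 * B.card + 2 *
      ((univ : Finset (V n × Fin n × Fin n)).filter fun t =>
        t.1 ∈ B ∧ t.2.1 ∉ t.1 ∧ t.2.2 ∈ t.1 ∧ insert t.2.1 (t.1.erase t.2.2) ∉ B).card

theorem comb (jo : JohnsonStatement) {n j : ℕ} (hn : 4 * (j + 1) ^ 2 ≤ n) (B D : Finset (V n))
    (hB : ∀ A ∈ B, A.card = j) (hD : ∀ A ∈ D, A.card = j)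
    (hs : n.choose j < B.card + D.card) (hhalf : n.choose j ≤ 2 * B.card) :
    (n / (4 * (j + 1) ^ 2)) * D.card + (Wb j B).card ≤ (Nb j D).card := by
  classical
  obtain ⟨Bb, hBb⟩ : ∃ Bb : Finset (V n), Bb = Lv n j \ B := ⟨_, rfl⟩
  have hBsub : B ⊆ Lv n j := fun A hA => mem_Lv.2 (hB A hA)
  have hmem : ∀ A : V n, A.card = j → (A ∈ Bb ↔ A ∉ B) := by
    intro A hA
    rw [hBb, Finset.mem_sdiff, mem_Lv]
    tauto
  have hBj : ∀ A ∈ Bb, A.card = j := by
    intro A hA
    rw [hBb, Finset.mem_sdiff, mem_Lv] at hA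
    exact hA.1
  have hcard : Bb.card + B.card = n.choose j := by
    rw [hBb, ← card_Lv n j]
    exact Finset.card_sdiff_add_card_eq_card hBsub
  obtain ⟨e, he1, he2⟩ := card_Wb B Bb hmem hBj
  have h4 := jo Bb hBj (by omega)
  exact count_arith hn (by omega) (card_Nb D hD) he1 he2 h4 (by
    rw [mul_comm]
    exact Nat.div_mul_le_self _ _)

/-- the vertices above `B` whose image is above `D` -/
def G {n : ℕ} (j : ℕ) (σ : V n → V n) (B D : Finset (V n)) : Finset (V n) :=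
  univ.filter fun y => y.card = j + 1 ∧ (∃ A ∈ B, A ⊆ y) ∧ ∃ A ∈ D, A ⊆ σ y

theorem mem_G {n j : ℕ} {σ : V n → V n} {B D : Finset (V n)} {y : V n} :
    y ∈ G j σ B D ↔ y.card = j + 1 ∧ (∃ A ∈ B, A ⊆ y) ∧ ∃ A ∈ D, A ⊆ σ y := by
  simp [G]

theorem card_G1 (jo : JohnsonStatement) {n j : ℕ} (hn : 4 * (j + 1) ^ 2 ≤ n) (B D : Finset (V n))
    (hB : ∀ A ∈ B, A.card = j) (hD : ∀ A ∈ D, A.card = j) {σ : V n → V n}
    (hσ : BijLv (j + 1) σ)
    (hs : n.choose j < B.card + D.card) (hhalf : n.choose j ≤ 2 * B.card) :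
    (n / (4 * (j + 1) ^ 2)) * D.card ≤ (G j σ B D).card := by
  classical
  have h1 := comb jo hn B D hB hD hs hhalf
  have h2 : Nb j D ⊆ (G j σ B D ∪ Wb j B).image σ := by
    intro y hy
    rw [mem_Nb] at hy
    obtain ⟨y', hy', rfl⟩ := hσ.2.2 y hy.1
    apply Finset.mem_image_of_mem
    rw [Finset.mem_union]
    by_cases h : ∃ A ∈ B, A ⊆ y'
    · left
      rw [mem_G]
      exact ⟨hy', h, hy.2⟩
    · right
      rw [mem_Wb]
      refine ⟨hy', fun A hA hs => h ⟨A, hA, hs⟩⟩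
  have h3 := Finset.card_le_card h2
  have h4 := Finset.card_image_le (s := G j σ B D ∪ Wb j B) (f := σ)
  have h5 := Finset.card_union_le (G j σ B D) (Wb j B)
  omega

theorem card_G2 (jo : JohnsonStatement) {n j : ℕ} (hn : 4 * (j + 1) ^ 2 ≤ n) (B D : Finset (V n))
    (hB : ∀ A ∈ B, A.card = j) (hD : ∀ A ∈ D, A.card = j) {σ : V n → V n}
    (hσ : BijLv (j + 1) σ)
    (hs : n.choose j < B.card + D.card) (hhalf : n.choose j ≤ 2 * D.card) :
    (n / (4 * (j + 1) ^ 2)) * B.card ≤ (G j σ B D).card := by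
  classical
  have h1 := comb jo hn D B hD hB (by omega) hhalf
  have h2 : Nb j B ⊆ G j σ B D ∪ (univ.filter fun y : V n => y.card = j + 1 ∧ σ y ∈ Wb j D) := by
    intro y hy
    rw [mem_Nb] at hy
    rw [Finset.mem_union]
    by_cases h : ∃ A ∈ D, A ⊆ σ y
    · left
      rw [mem_G]
      exact ⟨hy.1, hy.2, h⟩
    · right
      rw [Finset.mem_filter, mem_Wb]
      refine ⟨Finset.mem_univ _, hy.1, hσ.1 y hy.1, fun A hA hs => h ⟨A, hA, hs⟩⟩
  have h3 := Finset.card_le_card h2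
  have h5 := Finset.card_union_le (G j σ B D)
    (univ.filter fun y : V n => y.card = j + 1 ∧ σ y ∈ Wb j D)
  have h6 : (univ.filter fun y : V n => y.card = j + 1 ∧ σ y ∈ Wb j D).card ≤ (Wb j D).card := by
    apply Finset.card_le_card_of_injOn σ
    · intro y hy
      have hy' : y ∈ univ.filter fun y : V n => y.card = j + 1 ∧ σ y ∈ Wb j D := hy
      rw [Finset.mem_filter] at hy'
      exact hy'.2.2
    · intro y hy y' hy' he
      have h7 : y ∈ univ.filter fun y : V n => y.card = j + 1 ∧ σ y ∈ Wb j D := hy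
      have h8 : y' ∈ univ.filter fun y : V n => y.card = j + 1 ∧ σ y ∈ Wb j D := hy'
      rw [Finset.mem_filter] at h7 h8
      exact hσ.2.1 y y' h7.2.1 h8.2.1 he
  omega

end Part3

section Part4

open Finset

theorem sum_v (s : ℝ) {α : Type} [DecidableEq α] (L : Finset α) :
    ∑ B ∈ L.powerset, s ^ (L.card - B.card) = (1 + s) ^ L.card := by
  rw [← Finset.sum_pow_mul_eq_add_pow]
  refine Finset.sum_congr rfl fun B _ => ?_
  rw [one_pow, one_mul]

theorem sum_u (s : ℝ) {α : Type} [DecidableEq α] (L : Finset α) :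
    ∑ B ∈ L.powerset, (if B = ∅ then 0 else s ^ B.card) = (1 + s) ^ L.card - 1 := by
  have h : ∑ B ∈ L.powerset, s ^ B.card = (1 + s) ^ L.card := by
    rw [add_comm, ← Finset.sum_pow_mul_eq_add_pow]
    refine Finset.sum_congr rfl fun B _ => ?_
    rw [one_pow, mul_one]
  rw [← h, eq_sub_iff_add_eq]
  have h1 : (1 : ℝ) = ∑ B ∈ L.powerset, (if B = ∅ then 1 else 0) := by
    rw [Finset.sum_ite_eq']
    simp
  rw [h1, ← Finset.sum_add_distrib]
  refine Finset.sum_congr rfl fun B _ => ?_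
  by_cases hB : B = ∅
  · simp [hB]
  · simp [hB]

/-- the estimate of one bad event -/
theorem one_event {s d g κ e : ℕ} {lam μ η : ℝ} (hl0 : 0 ≤ lam) (hl : lam ≤ μ ^ 2)
    (hl1 : lam ≤ 1) (hμ : 0 ≤ μ) (hη : η = 2 * μ ^ κ) (hη1 : η ≤ 1) (hs : s ≤ d)
    (hg : κ * d ≤ g) (he : e ≤ d) :
    2 ^ s * lam ^ g ≤ η ^ d * η ^ e := by
  have hη0 : 0 ≤ η := by rw [hη]; positivity
  calc (2 : ℝ) ^ s * lam ^ g ≤ 2 ^ d * lam ^ (κ * d) := by
        apply mul_le_mul
        · exact pow_le_pow_right₀ (by norm_num) hs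
        · exact pow_le_pow_of_le_one hl0 hl1 hg
        · positivity
        · positivity
    _ = (2 * lam ^ κ) ^ d := by rw [mul_pow, pow_mul]
    _ ≤ (η * η) ^ d := by
        apply pow_le_pow_left₀ (by positivity)
        have h1 : lam ^ κ ≤ (μ ^ 2) ^ κ := pow_le_pow_left₀ hl0 hl κ
        have h2 : (μ ^ 2) ^ κ = μ ^ κ * μ ^ κ := by
          rw [← pow_mul, mul_comm 2 κ, mul_two, pow_add]
        have h3 : 0 ≤ μ ^ κ := by positivity
        rw [hη]
        nlinarith [mul_nonneg h3 h3]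
    _ = η ^ d * η ^ d := mul_pow _ _ _
    _ ≤ η ^ d * η ^ e := by
        apply mul_le_mul_of_nonneg_left _ (by positivity)
        exact pow_le_pow_of_le_one hη0 hη1 he

/-- existence of the labels -/
theorem exists_labels (jo : JohnsonStatement) {n j k κ : ℕ} (hk : 0 < k)
    (hn : 4 * (j + 1) ^ 2 ≤ n) (hκ : κ = n / (4 * (j + 1) ^ 2)) {μ η : ℝ}
    (hμ : μ = 1 - 1 / (4 * (k : ℝ) ^ 2)) (hη : η = 2 * μ ^ κ) (hη1 : η ≤ 1)
    (hnum : 2 * (k : ℝ) * (((1 + η) ^ (n.choose j) - 1) * (1 + η) ^ (n.choose j)) < 1)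
    (σ : Fin k → V n → V n) (hσ : ∀ c, BijLv (j + 1) (σ c)) :
    ∃ f : V n ⊕ V n → Fin k, ∀ (c : Fin k) (B D : Finset (V n)), (∀ A ∈ B, A.card = j) →
      (∀ A ∈ D, A.card = j) → n.choose j < B.card + D.card →
      B.card + D.card ≤ n.choose j +
        ((G j (σ c) B D).filter fun y => f (Sum.inl y) = c ∧ f (Sum.inr (σ c y)) = c).card := by
  classical
  by_contra hcon
  push Not at hcon
  have hk1 : (1 : ℝ) ≤ k := by exact_mod_cast hk
  have hk2 : (1 : ℝ) ≤ (k : ℝ) ^ 2 := by nlinarith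
  obtain ⟨lam, hlam⟩ : ∃ lam : ℝ, lam = 1 - 1 / (2 * (k : ℝ) ^ 2) := ⟨_, rfl⟩
  obtain ⟨x, hx⟩ : ∃ x : ℝ, x = 1 / (k : ℝ) ^ 2 := ⟨_, rfl⟩
  have hx0 : 0 < x := by rw [hx]; positivity
  have hx1 : x ≤ 1 := by rw [hx, div_le_one (by positivity)]; exact hk2
  have hlx : lam = 1 - x / 2 := by rw [hlam, hx]; field_simp
  have hμx : μ = 1 - x / 4 := by rw [hμ, hx]; field_simp
  have hl0 : 0 ≤ lam := by rw [hlx]; linarith
  have hl1 : lam ≤ 1 := by rw [hlx]; linarith
  have hμ0 : 0 ≤ μ := by rw [hμx]; linarith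
  have hl : lam ≤ μ ^ 2 := by rw [hlx, hμx]; nlinarith
  have hη0 : 0 ≤ η := by rw [hη]; positivity
  obtain ⟨P, hP⟩ : ∃ P : Finset (Finset (V n)), P = (Lv n j).powerset := ⟨_, rfl⟩
  have hPmem : ∀ B : Finset (V n), (∀ A ∈ B, A.card = j) → B ∈ P := by
    intro B hB
    rw [hP, Finset.mem_powerset]
    exact fun A hA => mem_Lv.2 (hB A hA)
  have hPmem' : ∀ B ∈ P, (∀ A ∈ B, A.card = j) ∧ B.card ≤ n.choose j := by
    intro B hB
    rw [hP, Finset.mem_powerset] at hB
    refine ⟨fun A hA => mem_Lv.1 (hB hA), ?_⟩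
    rw [← card_Lv n j]
    exact Finset.card_le_card hB
  -- the bad events
  obtain ⟨Bad, hBad⟩ : ∃ Bad : Fin k × Finset (V n) × Finset (V n) →
      Finset (V n ⊕ V n → Fin k), ∀ t, Bad t = univ.filter fun f : V n ⊕ V n → Fin k =>
        ((G j (σ t.1) t.2.1 t.2.2).filter fun y =>
          f (Sum.inl y) = t.1 ∧ f (Sum.inr (σ t.1 y)) = t.1).card ≤
            t.2.1.card + t.2.2.card - n.choose j := ⟨fun t => _, fun t => rfl⟩
  obtain ⟨T, hT⟩ : ∃ T : Finset (Fin k × Finset (V n) × Finset (V n)),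
      T = (univ ×ˢ P ×ˢ P).filter fun t => n.choose j < t.2.1.card + t.2.2.card := ⟨_, rfl⟩
  have hcover : (univ : Finset (V n ⊕ V n → Fin k)) ⊆ T.biUnion Bad := by
    intro f _
    obtain ⟨c, B, D, hB, hD, h1, h2⟩ := hcon f
    rw [Finset.mem_biUnion]
    refine ⟨(c, B, D), ?_, ?_⟩
    · rw [hT, Finset.mem_filter, Finset.mem_product, Finset.mem_product]
      exact ⟨⟨Finset.mem_univ _, hPmem B hB, hPmem D hD⟩, h1⟩
    · rw [hBad, Finset.mem_filter]
      refine ⟨Finset.mem_univ _, ?_⟩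
      show ((G j (σ c) B D).filter fun y => f (Sum.inl y) = c ∧ f (Sum.inr (σ c y)) = c).card ≤
        B.card + D.card - n.choose j
      omega
  have hcard := (Finset.card_le_card hcover).trans Finset.card_biUnion_le
  rw [Finset.card_univ, Fintype.card_fun, Fintype.card_fin] at hcard
  obtain ⟨Q, hQ⟩ : ∃ Q : ℝ, Q = (k : ℝ) ^ (Fintype.card (V n ⊕ V n)) := ⟨_, rfl⟩
  have hQ0 : 0 < Q := by rw [hQ]; positivity
  have hcardR : Q ≤ ∑ t ∈ T, ((Bad t).card : ℝ) := by
    rw [hQ]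
    exact_mod_cast hcard
  -- one event
  obtain ⟨u, hu⟩ : ∃ u : Finset (V n) → ℝ, ∀ D, u D = if D = ∅ then 0 else η ^ D.card :=
    ⟨_, fun D => rfl⟩
  obtain ⟨v, hv⟩ : ∃ v : Finset (V n) → ℝ, ∀ D, v D = η ^ (n.choose j - D.card) :=
    ⟨_, fun D => rfl⟩
  have hu0 : ∀ D, 0 ≤ u D := by
    intro D
    rw [hu]
    split_ifs
    · exact le_refl _
    · positivity
  have hv0 : ∀ D, 0 ≤ v D := fun D => by rw [hv]; positivity
  have hone : ∀ t ∈ T, ((Bad t).card : ℝ) ≤
      (u t.2.2 * v t.2.1 + u t.2.1 * v t.2.2) * Q := by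
    rintro ⟨c, B, D⟩ ht
    rw [hT, Finset.mem_filter, Finset.mem_product, Finset.mem_product] at ht
    obtain ⟨⟨-, hBP, hDP⟩, hlt⟩ := ht
    have hlt' : n.choose j < B.card + D.card := hlt
    obtain ⟨hB1, hB2⟩ := hPmem' B hBP
    obtain ⟨hD1, hD2⟩ := hPmem' D hDP
    have htail := tail_low (I := V n ⊕ V n) (ι := V n) hk (G j (σ c) B D)
      (fun y => Sum.inl y) (fun y => Sum.inr (σ c y)) (fun _ => c) (fun _ => c)
      (by
        intro y _ y' _ he
        exact Sum.inl_injective he)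
      (by
        intro y hy y' hy' he
        exact (hσ c).2.1 y y' (mem_G.1 hy).1 (mem_G.1 hy').1 (Sum.inr_injective he))
      (by
        intro y _ y' _ he
        exact absurd he (by simp))
      (B.card + D.card - n.choose j)
    rw [← hlam, ← hQ] at htail
    have hb : ((Bad (c, B, D)).card : ℝ) ≤
        2 ^ (B.card + D.card - n.choose j) * lam ^ (G j (σ c) B D).card * Q := by
      rw [hBad]
      exact htail
    refine hb.trans ?_
    apply mul_le_mul_of_nonneg_right _ hQ0.le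
    show 2 ^ (B.card + D.card - n.choose j) * lam ^ (G j (σ c) B D).card ≤
      u D * v B + u B * v D
    rcases (by omega : n.choose j ≤ 2 * B.card ∨ n.choose j ≤ 2 * D.card) with hc | hc
    · have hg := card_G1 jo hn B D hB1 hD1 (hσ c) hlt' hc
      rw [← hκ] at hg
      have h1 := one_event (s := B.card + D.card - n.choose j) (e := n.choose j - B.card)
        hl0 hl hl1 hμ0 hη hη1 (by omega) hg (by omega)
      have hne : D ≠ ∅ := by
        rintro rfl
        rw [Finset.card_empty] at hlt'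
        omega
      have h2 : u D * v B = η ^ D.card * η ^ (n.choose j - B.card) := by
        rw [hu, hv, if_neg hne]
      have h3 := mul_nonneg (hu0 B) (hv0 D)
      linarith
    · have hg := card_G2 jo hn B D hB1 hD1 (hσ c) hlt' hc
      rw [← hκ] at hg
      have h1 := one_event (s := B.card + D.card - n.choose j) (e := n.choose j - D.card)
        hl0 hl hl1 hμ0 hη hη1 (by omega) hg (by omega)
      have hne : B ≠ ∅ := by
        rintro rfl
        rw [Finset.card_empty] at hlt'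
        omega
      have h2 : u B * v D = η ^ B.card * η ^ (n.choose j - D.card) := by
        rw [hu, hv, if_neg hne]
      have h3 := mul_nonneg (hu0 D) (hv0 B)
      linarith
  have hsumu : ∑ D ∈ P, u D = (1 + η) ^ (n.choose j) - 1 := by
    rw [← card_Lv n j, hP, ← sum_u η (Lv n j)]
    exact Finset.sum_congr rfl fun D _ => hu D
  have hsumv : ∑ D ∈ P, v D = (1 + η) ^ (n.choose j) := by
    have := sum_v η (Lv n j)
    rw [card_Lv] at this
    rw [hP, ← this]
    exact Finset.sum_congr rfl fun D _ => hv D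
  have htotal : ∑ t ∈ T, ((Bad t).card : ℝ) ≤
      2 * (k : ℝ) * (((1 + η) ^ (n.choose j) - 1) * (1 + η) ^ (n.choose j)) * Q := by
    calc ∑ t ∈ T, ((Bad t).card : ℝ)
        ≤ ∑ t ∈ T, (u t.2.2 * v t.2.1 + u t.2.1 * v t.2.2) * Q := Finset.sum_le_sum hone
      _ ≤ ∑ t ∈ (univ : Finset (Fin k)) ×ˢ P ×ˢ P,
            (u t.2.2 * v t.2.1 + u t.2.1 * v t.2.2) * Q := by
          apply Finset.sum_le_sum_of_subset_of_nonneg
          · rw [hT]
            exact Finset.filter_subset _ _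
          · intro t _ _
            apply mul_nonneg _ hQ0.le
            exact add_nonneg (mul_nonneg (hu0 _) (hv0 _)) (mul_nonneg (hu0 _) (hv0 _))
      _ = 2 * (k : ℝ) * (((1 + η) ^ (n.choose j) - 1) * (1 + η) ^ (n.choose j)) * Q := by
          rw [← Finset.sum_mul, Finset.sum_product]
          have hin : ∀ c ∈ (univ : Finset (Fin k)),
              ∑ y ∈ P ×ˢ P, (u (c, y).2.2 * v (c, y).2.1 + u (c, y).2.1 * v (c, y).2.2) =
              2 * (((1 + η) ^ (n.choose j) - 1) * (1 + η) ^ (n.choose j)) := by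
            intro c _
            rw [Finset.sum_product]
            have e1 : ∀ B ∈ P, ∑ D ∈ P, (u D * v B + u B * v D) =
                ((1 + η) ^ (n.choose j) - 1) * v B + u B * (1 + η) ^ (n.choose j) := by
              intro B _
              rw [Finset.sum_add_distrib, ← Finset.sum_mul, ← Finset.mul_sum, hsumu, hsumv]
            calc ∑ B ∈ P, ∑ D ∈ P, (u D * v B + u B * v D)
                = ∑ B ∈ P, (((1 + η) ^ (n.choose j) - 1) * v B +
                    u B * (1 + η) ^ (n.choose j)) := Finset.sum_congr rfl e1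
              _ = _ := by
                rw [Finset.sum_add_distrib, ← Finset.mul_sum, ← Finset.sum_mul, hsumu, hsumv]
                ring
          rw [Finset.sum_congr rfl hin, Finset.sum_const, Finset.card_univ, Fintype.card_fin,
            nsmul_eq_mul]
          ring
  have hfin : Q < Q := by
    calc Q ≤ _ := hcardR
      _ ≤ _ := htotal
      _ < 1 * Q := mul_lt_mul_of_pos_right hnum hQ0
      _ = Q := one_mul Q
  exact lt_irrefl _ hfin

end Part4

section Part5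

open Filter Topology

theorem pow_est {η : ℝ} (hη : 0 ≤ η) (C : ℕ) (ht : (C : ℝ) * η ≤ 1 / 2) :
    (1 + η) ^ C ≤ 1 + 2 * ((C : ℝ) * η) := by
  have h0 : 0 ≤ (C : ℝ) * η := by positivity
  have h1 : (1 + η) ^ C ≤ Real.exp ((C : ℝ) * η) := by
    rw [Real.exp_nat_mul]
    apply pow_le_pow_left₀ (by positivity)
    rw [add_comm]
    exact Real.add_one_le_exp η
  have h2 : Real.exp ((C : ℝ) * η) ≤ 1 / (1 - (C : ℝ) * η) :=
    Real.exp_bound_div_one_sub_of_interval h0 (by linarith)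
  refine h1.trans (h2.trans ?_)
  rw [div_le_iff₀ (by linarith)]
  nlinarith

theorem numeric (k j : ℕ) (hk : 0 < k) : ∃ N : ℕ, ∀ n : ℕ, N ≤ n →
    4 * (j + 1) ^ 2 ≤ n ∧ ∃ μ η : ℝ, μ = 1 - 1 / (4 * (k : ℝ) ^ 2) ∧
      η = 2 * μ ^ (n / (4 * (j + 1) ^ 2)) ∧ η ≤ 1 ∧
      2 * (k : ℝ) * (((1 + η) ^ (n.choose j) - 1) * (1 + η) ^ (n.choose j)) < 1 := by
  have hk1 : (1 : ℝ) ≤ k := by exact_mod_cast hk
  have hk2 : (1 : ℝ) ≤ (k : ℝ) ^ 2 := by nlinarith
  obtain ⟨μ, hμ⟩ : ∃ μ : ℝ, μ = 1 - 1 / (4 * (k : ℝ) ^ 2) := ⟨_, rfl⟩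
  have hμ1 : μ < 1 := by
    rw [hμ]
    have : 0 < 1 / (4 * (k : ℝ) ^ 2) := by positivity
    linarith
  have hμ0 : 0 ≤ μ := by
    rw [hμ]
    have : 1 / (4 * (k : ℝ) ^ 2) ≤ 1 := by
      rw [div_le_one (by positivity)]
      linarith
    linarith
  obtain ⟨a, ha⟩ : ∃ a : ℕ, a = 4 * (j + 1) ^ 2 := ⟨_, rfl⟩
  have ha0 : 0 < a := by rw [ha]; positivity
  have haj : j ≤ a := by rw [ha]; nlinarith
  have haR : (0 : ℝ) < a := by exact_mod_cast ha0
  have hlim := tendsto_pow_const_mul_const_pow_of_abs_lt_one j (r := μ)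
    (by rw [abs_of_nonneg hμ0]; exact hμ1)
  have hδ : (0 : ℝ) < 1 / (24 * (k : ℝ) * (2 * (a : ℝ)) ^ j) := by positivity
  obtain ⟨K, hK⟩ := Filter.eventually_atTop.1 (hlim.eventually_lt_const hδ)
  refine ⟨a * (K + 1), fun n hn => ?_⟩
  have hκ : K + 1 ≤ n / a := by
    rw [Nat.le_div_iff_mul_le ha0, mul_comm]
    exact hn
  have han : a ≤ n := le_trans (by nlinarith) hn
  refine ⟨ha ▸ han, μ, 2 * μ ^ (n / (4 * (j + 1) ^ 2)), hμ, rfl, ?_⟩
  rw [← ha]
  obtain ⟨κ, hκe⟩ : ∃ κ : ℕ, κ = n / a := ⟨_, rfl⟩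
  rw [← hκe] at hκ ⊢
  have h1 := hK κ (by omega)
  obtain ⟨η, hη⟩ : ∃ η : ℝ, η = 2 * μ ^ κ := ⟨_, rfl⟩
  rw [← hη]
  have hη0 : 0 ≤ η := by rw [hη]; positivity
  have hn2 : n ≤ 2 * a * κ := by
    have h2 : n < a * (κ + 1) := by
      rw [hκe]
      exact Nat.lt_mul_div_succ n ha0
    nlinarith
  have hC : (n.choose j : ℝ) ≤ (2 * (a : ℝ)) ^ j * (κ : ℝ) ^ j := by
    rw [← mul_pow]
    have h3 : n.choose j ≤ n ^ j := Nat.choose_le_pow n j
    have h4 : n ^ j ≤ (2 * a * κ) ^ j := Nat.pow_le_pow_left hn2 j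
    exact_mod_cast h3.trans h4
  have hC1 : (1 : ℝ) ≤ (n.choose j : ℝ) := by
    exact_mod_cast Nat.choose_pos (haj.trans han)
  have ht : (n.choose j : ℝ) * η < 1 / (12 * (k : ℝ)) := by
    have hp : (0 : ℝ) < (2 * (a : ℝ)) ^ j := by positivity
    calc (n.choose j : ℝ) * η ≤ ((2 * (a : ℝ)) ^ j * (κ : ℝ) ^ j) * η :=
          mul_le_mul_of_nonneg_right hC hη0
      _ = 2 * (2 * (a : ℝ)) ^ j * ((κ : ℝ) ^ j * μ ^ κ) := by rw [hη]; ring
      _ < 2 * (2 * (a : ℝ)) ^ j * (1 / (24 * (k : ℝ) * (2 * (a : ℝ)) ^ j)) :=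
          mul_lt_mul_of_pos_left h1 (by positivity)
      _ = 1 / (12 * (k : ℝ)) := by
          field_simp
          norm_num
  obtain ⟨t, hte⟩ : ∃ t : ℝ, t = (n.choose j : ℝ) * η := ⟨_, rfl⟩
  rw [← hte] at ht
  have ht0 : 0 ≤ t := by rw [hte]; positivity
  have hkt : (k : ℝ) * t < 1 / 12 := by
    have : (k : ℝ) * t < k * (1 / (12 * (k : ℝ))) := mul_lt_mul_of_pos_left ht (by linarith)
    refine this.trans_eq ?_
    field_simp
  have ht1 : t < 1 / 12 := by nlinarith
  have hηt : η ≤ t := by rw [hte]; nlinarith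
  refine ⟨by linarith, ?_⟩
  have hP := pow_est hη0 (n.choose j) (by rw [← hte]; linarith)
  rw [← hte] at hP
  have hP1 : 1 ≤ (1 + η) ^ (n.choose j) := one_le_pow₀ (by linarith)
  obtain ⟨P, hPe⟩ : ∃ P : ℝ, P = (1 + η) ^ (n.choose j) := ⟨_, rfl⟩
  rw [← hPe] at hP hP1 ⊢
  have h5 : (P - 1) * P ≤ (2 * t) * (1 + 2 * t) := by
    apply mul_le_mul (by linarith) hP (by linarith) (by linarith)
  have h6 : 2 * (k : ℝ) * ((P - 1) * P) ≤ 2 * (k : ℝ) * ((2 * t) * (1 + 2 * t)) :=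
    mul_le_mul_of_nonneg_left h5 (by linarith)
  have h7 : 2 * (k : ℝ) * ((2 * t) * (1 + 2 * t)) = 4 * ((k : ℝ) * t) * (1 + 2 * t) := by ring
  rw [h7] at h6
  have h8 : 0 ≤ (k : ℝ) * t := by positivity
  nlinarith

end Part5

section Part6

open Finset

theorem exists_insert_eq {n j : ℕ} {A y : V n} (hA : A.card = j) (hy : y.card = j + 1)
    (hs : A ⊆ y) : ∃ x ∈ y, x ∉ A ∧ insert x A = y ∧ y.erase x = A := by
  classical
  obtain ⟨x, hx, hxy⟩ := Finset.exists_eq_insert_iff.2 ⟨hs, by rw [hA, hy]⟩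
  refine ⟨x, ?_, hx, hxy, ?_⟩
  · rw [← hxy]
    exact Finset.mem_insert_self _ _
  · rw [← hxy]
    exact Finset.erase_insert hx

/-- one colour -/
theorem one_color {n j k : ℕ} (hn : 0 < n) (σ : V n → V n) (hσ : BijLv (j + 1) σ)
    (f : V n ⊕ V n → Fin k) (c : Fin k)
    (hf : ∀ B D : Finset (V n), (∀ A ∈ B, A.card = j) →
      (∀ A ∈ D, A.card = j) → n.choose j < B.card + D.card →
      B.card + D.card ≤ n.choose j +
        ((G j σ B D).filter fun y => f (Sum.inl y) = c ∧ f (Sum.inr (σ y)) = c).card) :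
    ∃ α β : V n → Fin n,
      Valid j (fun A x => f (Sum.inl (insert x A)) ≠ c ∨ f (Sum.inr (σ (insert x A))) ≠ c) α ∧
      Valid j (fun D x => ¬ ∃ y : V n, y.card = j + 1 ∧ σ y = insert x D ∧
        f (Sum.inl y) = c ∧ f (Sum.inr (insert x D)) = c) β ∧ Linked j σ α β := by
  classical
  apply link_of_hall hn _ _ σ hσ
  intro B Z E hB hZ hE
  obtain ⟨D0, hD0⟩ : ∃ D0 : Finset (V n), D0 = Lv n j \ E := ⟨_, rfl⟩
  have hEsub : E ⊆ Lv n j := fun D hD => mem_Lv.2 ((hE D).1 hD).1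
  have hD0c : D0.card + E.card = n.choose j := by
    rw [← card_Lv n j, hD0]
    exact Finset.card_sdiff_add_card_eq_card hEsub
  have hD0j : ∀ A ∈ D0, A.card = j := by
    intro A hA
    rw [hD0] at hA
    exact mem_Lv.1 (mem_sdiff.1 hA).1
  by_cases hc : n.choose j < B.card + D0.card
  · have h1 := hf B D0 hB hD0j hc
    have h2 : ((G j σ B D0).filter fun y => f (Sum.inl y) = c ∧ f (Sum.inr (σ y)) = c) ⊆
        Nup (fun A x => f (Sum.inl (insert x A)) ≠ c ∨
          f (Sum.inr (σ (insert x A))) ≠ c) B \ Z := by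
      intro y hy
      rw [Finset.mem_filter, mem_G] at hy
      obtain ⟨⟨hyj, ⟨A, hAB, hAy⟩, ⟨D, hDD, hDy⟩⟩, hf1, hf2⟩ := hy
      rw [Finset.mem_sdiff, mem_Nup]
      constructor
      · obtain ⟨x, hx, hxA, hins, her⟩ := exists_insert_eq (hB A hAB) hyj hAy
        refine ⟨x, hx, ?_, ?_⟩
        · rw [her]
          exact hAB
        · rw [her, hins]
          tauto
      · intro hyZ
        have hDj := hD0j D hDD
        obtain ⟨x, hx, hxA, hins, her⟩ := exists_insert_eq hDj (hσ.1 y hyj) hDy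
        have : D ∈ E := by
          rw [hE]
          refine ⟨hDj, y, hyZ, ?_⟩
          rw [mem_Nup]
          refine ⟨x, hx, ?_, ?_⟩
          · rw [her]
            exact Finset.mem_singleton_self _
          · rw [her, hins]
            exact fun h => h ⟨y, hyj, rfl, hf1, hf2⟩
        rw [hD0, Finset.mem_sdiff] at hDD
        exact hDD.2 this
    have h3 := Finset.card_le_card h2
    omega
  · omega

theorem low_stage_of (jo : JohnsonStatement) (k j : ℕ) :
    ∃ N : ℕ, ∀ n : ℕ, N ≤ n → Stage k n j := by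
  classical
  rcases Nat.eq_zero_or_pos k with rfl | hk
  · exact ⟨0, fun n _ σ _ => ⟨fun c => c.elim0, fun c => c.elim0, fun c => c.elim0,
      fun c => c.elim0, fun c => c.elim0, fun c => c.elim0⟩⟩
  obtain ⟨N, hN⟩ := numeric k j hk
  refine ⟨N, fun n hn σ hσ => ?_⟩
  obtain ⟨hn4, μ, η, hμ, hη, hη1, hnum⟩ := hN n hn
  have hn0 : 0 < n := lt_of_lt_of_le (by positivity) hn4
  obtain ⟨f, hf⟩ := exists_labels jo hk hn4 rfl hμ hη hη1 hnum σ hσ
  have hcol := fun c : Fin k => one_color hn0 (σ c) (hσ c) f c (hf c)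
  choose α β hα hβ hlink using hcol
  have hαl : ∀ (c : Fin k) (A : V n), A.card = j → f (Sum.inl (insert (α c A) A)) = c := by
    intro c A hA
    have h1 := ((hα c).1 A hA).2
    by_contra h
    exact h1 (Or.inl h)
  have hβl : ∀ (c : Fin k) (A : V n), A.card = j → f (Sum.inr (insert (β c A) A)) = c := by
    intro c A hA
    have h1 := ((hβ c).1 A hA).2
    by_contra h
    exact h1 (fun ⟨y, _, _, _, h4⟩ => h h4)
  refine ⟨α, β, ?_, ?_, hlink, ?_⟩
  · intro c
    exact ⟨fun A hA => ⟨((hα c).1 A hA).1, fun h => h⟩, (hα c).2⟩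
  · intro c
    exact ⟨fun A hA => ⟨((hβ c).1 A hA).1, fun h => h⟩, (hβ c).2⟩
  · intro c c' hcc A hA
    constructor
    · intro h
      apply hcc
      rw [← hαl c A hA, h, hαl c' A hA]
    · intro h
      apply hcc
      rw [← hβl c A hA, h, hβl c' A hA]

end Part6

end T5b

end Pool.Agent.H18.SCD
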