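import Pool.Agent.H18.SCD.Basic

set_option autoImplicit false

namespace Pool.Agent.H18.SCD

open Finset

/-- A symmetric chain of `2^[n]`: a family of sets totally ordered by inclusion whose cardinalities are
exactly `k, k+1, …, n-k` for some `k ≤ n/2`. -/
def IsSymmChain (n : ℕ) (C : Set (Finset (Fin n))) : Prop :=
  IsChain (· ⊆ ·) C ∧ ∃ k : ℕ, 2 * k ≤ n ∧ Finset.card '' C = Set.Icc k (n - k)

/-- A symmetric chain decomposition. -/
def IsSCD (n : ℕ) (D : Set (Set (Finset (Fin n)))) : Prop :=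
  (∀ C ∈ D, IsSymmChain n C) ∧ ∀ S : Finset (Fin n), ∃! C : Set (Finset (Fin n)), C ∈ D ∧ S ∈ C

/-- the edge `A — B` of the cube is used by the decomposition `D`. -/
def UsesEdge (n : ℕ) (D : Set (Set (Finset (Fin n)))) (A B : Finset (Fin n)) : Prop :=
  ∃ C ∈ D, A ∈ C ∧ B ∈ C ∧ A ⊆ B ∧ B.card = A.card + 1

/-- A decomposition of the levels `j, …, n - j` into symmetric chains. -/
def PDec (n j : ℕ) (D : Set (Set (V n))) : Prop :=
  (∀ C ∈ D, IsChain (· ⊆ ·) C ∧ ∃ i : ℕ, j ≤ i ∧ 2 * i ≤ n ∧ Finset.card '' C = Set.Icc i (n - i)) ∧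
  ∀ S : V n, j ≤ S.card → S.card ≤ n - j → ∃! C : Set (V n), C ∈ D ∧ S ∈ C

/-- edge-disjointness -/
def EDisj {k : ℕ} (n : ℕ) (D : Fin k → Set (Set (V n))) : Prop :=
  ∀ c c' : Fin k, c ≠ c' → ∀ A B : V n, ¬ (UsesEdge n (D c) A B ∧ UsesEdge n (D c') A B)

theorem chain_sub {n : ℕ} {C : Set (V n)} (hC : IsChain (· ⊆ ·) C) {S T : V n} (hS : S ∈ C)
    (hT : T ∈ C) (h : S.card ≤ T.card) : S ⊆ T := by
  by_cases hne : S = T
  · exact hne ▸ subset_rfl
  · rcases hC hS hT hne with h1 | h1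
    · exact h1
    · have h2 : T ⊆ S := h1
      exact (eq_of_subset_of_card_le h2 h).symm ▸ subset_rfl

theorem chain_eq {n : ℕ} {C : Set (V n)} (hC : IsChain (· ⊆ ·) C) {S T : V n} (hS : S ∈ C)
    (hT : T ∈ C) (h : S.card = T.card) : S = T :=
  eq_of_subset_of_card_le (chain_sub hC hS hT h.le) h.ge

theorem card_up {n j : ℕ} {α : V n → Fin n} (h : Valid j (fun _ _ => False) α) {A : V n}
    (hA : A.card = j) : (up α A).card = j + 1 := by
  unfold up
  rw [card_insert_of_notMem (h.1 A hA).1, hA]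

theorem sub_up {n : ℕ} (α : V n → Fin n) (A : V n) : A ⊆ up α A := subset_insert _ _

theorem card_compl' {n : ℕ} (A : V n) : (Aᶜ).card = n - A.card := by
  rw [card_compl, Fintype.card_fin]

theorem card_le' {n : ℕ} (A : V n) : A.card ≤ n := by
  have := card_le_univ A
  rwa [Fintype.card_fin] at this

/-- the chains containing a set of size `j` or `n - j` start at level `j`. -/
theorem bottom {n j : ℕ} {D : Set (Set (V n))} (hD : PDec n j D) {C : Set (V n)} (hC : C ∈ D)
    {S : V n} (hS : S ∈ C) (h : S.card = j ∨ S.card = n - j) (hj : 2 * j ≤ n) :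
    Finset.card '' C = Set.Icc j (n - j) := by
  obtain ⟨-, i, hi, hi2, hc⟩ := hD.1 C hC
  have h1 : S.card ∈ Set.Icc i (n - i) := hc ▸ ⟨S, hS, rfl⟩
  have h2 : i = j := by
    have h3 := h1.1
    have h4 := h1.2
    rcases h with h | h <;> omega
  rw [hc, h2]

theorem exists_sigma {n j : ℕ} {D : Set (Set (V n))} (hj : 2 * j ≤ n) (hD : PDec n j D) :
    ∃ σ : V n → V n, BijLv j σ ∧ ∀ A : V n, A.card = j → ∃ C ∈ D, A ∈ C ∧ (σ A)ᶜ ∈ C := by
  classical
  have h1 : ∀ A : V n, ∃ T : V n, A.card = j → (T.card = j ∧ ∃ C ∈ D, A ∈ C ∧ Tᶜ ∈ C) := by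
    intro A
    by_cases hA : A.card = j
    · obtain ⟨C, ⟨hC, hAC⟩, -⟩ := hD.2 A (by omega) (by omega)
      have hc := bottom hD hC hAC (Or.inl hA) hj
      have : n - j ∈ Finset.card '' C := by
        rw [hc]
        exact ⟨by omega, le_rfl⟩
      obtain ⟨T, hT, hTc⟩ := this
      refine ⟨Tᶜ, fun _ => ⟨?_, C, hC, hAC, by rwa [compl_compl]⟩⟩
      rw [card_compl', hTc]
      omega
    · exact ⟨A, fun h => absurd h hA⟩
  choose σ hσ using h1
  refine ⟨σ, ⟨fun A hA => (hσ A hA).1, ?_, ?_⟩, fun A hA => (hσ A hA).2⟩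
  · intro A B hA hB hAB
    obtain ⟨hAc, C, hC, hAC, hTC⟩ := hσ A hA
    obtain ⟨hBc, C', hC', hBC', hTC'⟩ := hσ B hB
    rw [← hAB] at hTC'
    have hcc : ((σ A)ᶜ).card = n - j := by rw [card_compl', hAc]
    have hu := (hD.2 (σ A)ᶜ (by rw [hcc]; omega) (by rw [hcc])).unique ⟨hC, hTC⟩ ⟨hC', hTC'⟩
    subst hu
    exact chain_eq (hD.1 C hC).1 hAC hBC' (by rw [hA, hB])
  · intro B hB
    have hBc : (Bᶜ).card = n - j := by rw [card_compl', hB]
    obtain ⟨C, ⟨hC, hBC⟩, -⟩ := hD.2 Bᶜ (by rw [hBc]; omega) (by rw [hBc])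
    have hc := bottom hD hC hBC (Or.inr hBc) hj
    have : j ∈ Finset.card '' C := by
      rw [hc]
      exact ⟨le_rfl, by omega⟩
    obtain ⟨A, hA, hAc⟩ := this
    refine ⟨A, hAc, ?_⟩
    obtain ⟨hAc', C', hC', hAC', hTC'⟩ := hσ A hAc
    have hu := (hD.2 A (by omega) (by omega)).unique ⟨hC, hA⟩ ⟨hC', hAC'⟩
    subst hu
    have := chain_eq (hD.1 C hC).1 hTC' hBC (by rw [card_compl', hAc', hBc])
    exact compl_injective this

/-- the extended family of chains -/
def extFam (n j : ℕ) (D : Set (Set (V n))) (σ : V n → V n) (α β : V n → Fin n) : Set (Set (V n)) :=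
  {C' | (C' ∈ D ∧ ∀ A : V n, A.card = j → up α A ∉ C') ∨
    ∃ C ∈ D, ∃ A E : V n, A.card = j ∧ E.card = j ∧ up α A ∈ C ∧ σ (up α A) = up β E ∧
      C' = insert A (insert Eᶜ C)}

section step

variable {n j : ℕ} {D : Set (Set (V n))} {σ : V n → V n} {α β : V n → Fin n}

/-- facts about an extended chain -/
theorem ext_facts (hj : 2 * j + 2 ≤ n) (hD : PDec n (j + 1) D)
    (hσD : ∀ A : V n, A.card = j + 1 → ∃ C ∈ D, A ∈ C ∧ (σ A)ᶜ ∈ C)
    (hα : Valid j (fun _ _ => False) α) {C : Set (V n)} (hC : C ∈ D) {A E : V n}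
    (hA : A.card = j) (hAC : up α A ∈ C) (hE : σ (up α A) = up β E) :
    Finset.card '' C = Set.Icc (j + 1) (n - (j + 1)) ∧ (up β E)ᶜ ∈ C ∧
      (∀ S ∈ C, up α A ⊆ S) ∧ (∀ S ∈ C, S.card ≤ ((up β E)ᶜ).card → S ⊆ (up β E)ᶜ) := by
  have hc := bottom hD hC hAC (Or.inl (card_up hα hA)) (by omega)
  obtain ⟨C1, hC1, hA1, hT1⟩ := hσD _ (card_up hα hA)
  have hu : C = C1 := (hD.2 (up α A) (by rw [card_up hα hA]) (by rw [card_up hα hA]; omega)).unique
    ⟨hC, hAC⟩ ⟨hC1, hA1⟩
  subst hu
  rw [hE] at hT1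
  refine ⟨hc, hT1, fun S hS => ?_, fun S hS h => chain_sub (hD.1 C hC).1 hS hT1 h⟩
  apply chain_sub (hD.1 C hC).1 hAC hS
  have : S.card ∈ Set.Icc (j + 1) (n - (j + 1)) := hc ▸ ⟨S, hS, rfl⟩
  rw [card_up hα hA]
  exact this.1

theorem step_pdec (hj : 2 * j + 2 ≤ n) (hD : PDec n (j + 1) D) (hσ : BijLv (j + 1) σ)
    (hσD : ∀ A : V n, A.card = j + 1 → ∃ C ∈ D, A ∈ C ∧ (σ A)ᶜ ∈ C)
    (hα : Valid j (fun _ _ => False) α) (hβ : Valid j (fun _ _ => False) β)
    (hL : Linked j σ α β) : PDec n j (extFam n j D σ α β) := by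
  have key : ∀ C ∈ D, ∀ S ∈ C, j + 1 ≤ S.card ∧ S.card ≤ n - (j + 1) := by
    intro C hC S hS
    obtain ⟨-, i, hi, hi2, hc⟩ := hD.1 C hC
    have : S.card ∈ Set.Icc i (n - i) := hc ▸ ⟨S, hS, rfl⟩
    have h1 := this.1
    have h2 := this.2
    omega
  have uniq : ∀ C ∈ D, ∀ C1 ∈ D, ∀ S : V n, S ∈ C → S ∈ C1 → C = C1 := by
    intro C hC C1 hC1 S hS hS1
    have hk := key C hC S hS
    exact (hD.2 S hk.1 hk.2).unique ⟨hC, hS⟩ ⟨hC1, hS1⟩
  refine ⟨?_, ?_⟩
  · intro C' hC'
    rcases hC' with ⟨hC, -⟩ | ⟨C, hC, A, E, hA, hE, hAC, hσE, rfl⟩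
    · obtain ⟨h1, i, hi, hi2, hc⟩ := hD.1 C' hC
      exact ⟨h1, i, by omega, hi2, hc⟩
    · obtain ⟨hc, hT, hlow, hup⟩ := ext_facts hj hD hσD hα hC hA hAC hσE
      have hTc : ((up β E)ᶜ).card = n - (j + 1) := by rw [card_compl', card_up hβ hE]
      have hSE : ∀ S ∈ C, S ⊆ Eᶜ := by
        intro S hS
        have h1 := hup S hS (by rw [hTc]; exact (key C hC S hS).2)
        exact h1.trans (compl_subset_compl.2 (sub_up β E))
      refine ⟨?_, j, le_rfl, by omega, ?_⟩
      · apply IsChain.insert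
        · apply IsChain.insert (hD.1 C hC).1
          intro S hS _
          exact Or.inr (hSE S hS)
        · intro S hS _
          left
          rcases hS with rfl | hS
          · exact (sub_up α A).trans (hSE _ hAC)
          · exact (sub_up α A).trans (hlow S hS)
      · rw [Set.image_insert_eq, Set.image_insert_eq, hc, hA, card_compl', hE]
        ext x
        simp only [Set.mem_insert_iff, Set.mem_Icc]
        omega
  · intro S hS1 hS2
    rcases eq_or_lt_of_le hS1 with hSj | hSj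
    · -- `S` has size `j`
      have hSc : S.card = j := hSj.symm
      obtain ⟨E, hE, hσE⟩ := hL.1 S hSc
      obtain ⟨C, ⟨hC, hAC⟩, -⟩ := hD.2 (up α S) (by rw [card_up hα hSc])
        (by rw [card_up hα hSc]; omega)
      refine ⟨insert S (insert Eᶜ C), ⟨Or.inr ⟨C, hC, S, E, hSc, hE, hAC, hσE, rfl⟩,
        Set.mem_insert _ _⟩, ?_⟩
      rintro C' ⟨hC', hSC'⟩
      rcases hC' with ⟨hC', -⟩ | ⟨C1, hC1, A1, E1, hA1, hE1, hAC1, hσE1, rfl⟩
      · have := (key C' hC' S hSC').1
        omega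
      · rcases hSC' with rfl | rfl | hSC'
        · have h1 := uniq C hC C1 hC1 _ hAC hAC1
          subst h1
          have h2 : up β E = up β E1 := by rw [← hσE, ← hσE1]
          have h3 := hβ.2 E E1 hE hE1 h2
          rw [h3]
        · rw [card_compl', hE1] at hSc
          omega
        · have := (key C1 hC1 S hSC').1
          omega
    · rcases eq_or_lt_of_le hS2 with hSn | hSn
      · -- `S` has size `n - j`
        have hEc : (Sᶜ).card = j := by rw [card_compl', hSn]; omega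
        obtain ⟨A, hA, hσA⟩ := hL.2 Sᶜ hEc
        obtain ⟨C, ⟨hC, hAC⟩, -⟩ := hD.2 (up α A) (by rw [card_up hα hA])
          (by rw [card_up hα hA]; omega)
        refine ⟨insert A (insert (Sᶜ)ᶜ C), ⟨Or.inr ⟨C, hC, A, Sᶜ, hA, hEc, hAC, hσA, rfl⟩, ?_⟩, ?_⟩
        · right; left
          rw [compl_compl]
        rintro C' ⟨hC', hSC'⟩
        rcases hC' with ⟨hC', -⟩ | ⟨C1, hC1, A1, E1, hA1, hE1, hAC1, hσE1, rfl⟩
        · have := (key C' hC' S hSC').2
          omega
        · rcases hSC' with rfl | rfl | hSC'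
          · omega
          · rw [compl_compl] at hσA
            have h4 : up α A1 = up α A := by
              apply hσ.2.1 _ _ (card_up hα hA1) (card_up hα hA)
              rw [hσE1, hσA]
            have h5 := hα.2 A1 A hA1 hA h4
            subst h5
            have h6 := uniq C hC C1 hC1 _ hAC hAC1
            subst h6
            rw [compl_compl]
          · have := (key C1 hC1 S hSC').2
            omega
      · -- middle levels
        obtain ⟨C, ⟨hC, hSC⟩, -⟩ := hD.2 S (by omega) (by omega)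
        by_cases hex : ∃ A : V n, A.card = j ∧ up α A ∈ C
        · obtain ⟨A, hA, hAC⟩ := hex
          obtain ⟨E, hE, hσE⟩ := hL.1 A hA
          refine ⟨insert A (insert Eᶜ C), ⟨Or.inr ⟨C, hC, A, E, hA, hE, hAC, hσE, rfl⟩,
            Or.inr (Or.inr hSC)⟩, ?_⟩
          rintro C' ⟨hC', hSC'⟩
          rcases hC' with ⟨hC', hno⟩ | ⟨C1, hC1, A1, E1, hA1, hE1, hAC1, hσE1, rfl⟩
          · have h1 := uniq C hC C' hC' S hSC hSC'
            subst h1
            exact absurd hAC (hno A hA)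
          · have hSC1 : S ∈ C1 := by
              rcases hSC' with rfl | rfl | h
              · omega
              · rw [card_compl', hE1] at hSn
                omega
              · exact h
            have h1 := uniq C hC C1 hC1 S hSC hSC1
            subst h1
            have h2 : up α A1 = up α A := chain_eq (hD.1 C hC).1 hAC1 hAC
              (by rw [card_up hα hA, card_up hα hA1])
            have h3 := hα.2 A1 A hA1 hA h2
            subst h3
            have h4 : up β E = up β E1 := by rw [← hσE, ← hσE1]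
            have h5 := hβ.2 E E1 hE hE1 h4
            rw [h5]
        · push Not at hex
          refine ⟨C, ⟨Or.inl ⟨hC, hex⟩, hSC⟩, ?_⟩
          rintro C' ⟨hC', hSC'⟩
          rcases hC' with ⟨hC', -⟩ | ⟨C1, hC1, A1, E1, hA1, hE1, hAC1, hσE1, rfl⟩
          · exact uniq C' hC' C hC S hSC' hSC
          · have hSC1 : S ∈ C1 := by
              rcases hSC' with rfl | rfl | h
              · omega
              · rw [card_compl', hE1] at hSn
                omega
              · exact h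
            have h1 := uniq C hC C1 hC1 S hSC hSC1
            subst h1
            exact absurd hAC1 (hex A1 hA1)

theorem step_edge (hj : 2 * j + 2 ≤ n) (hD : PDec n (j + 1) D)
    (hσD : ∀ A : V n, A.card = j + 1 → ∃ C ∈ D, A ∈ C ∧ (σ A)ᶜ ∈ C)
    (hα : Valid j (fun _ _ => False) α) (hβ : Valid j (fun _ _ => False) β) {A B : V n}
    (h : UsesEdge n (extFam n j D σ α β) A B) :
    UsesEdge n D A B ∨ (A.card = j ∧ B = up α A) ∨
      (((B)ᶜ).card = j ∧ A = (up β Bᶜ)ᶜ) := by
  obtain ⟨C', hC', hAC', hBC', hAB, hcard⟩ := h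
  rcases hC' with ⟨hC', -⟩ | ⟨C, hC, A1, E1, hA1, hE1, hAC1, hσE1, rfl⟩
  · exact Or.inl ⟨C', hC', hAC', hBC', hAB, hcard⟩
  · obtain ⟨hc, hT, hlow, hup⟩ := ext_facts hj hD hσD hα hC hA1 hAC1 hσE1
    have key : ∀ S ∈ C, j + 1 ≤ S.card ∧ S.card ≤ n - (j + 1) := by
      intro S hS
      have : S.card ∈ Set.Icc (j + 1) (n - (j + 1)) := hc ▸ ⟨S, hS, rfl⟩
      exact this
    have hEc : (E1ᶜ).card = n - j := by rw [card_compl', hE1]
    rcases hAC' with rfl | rfl | hAC
    · -- `A` is the new bottom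
      rcases hBC' with rfl | rfl | hBC
      · omega
      · omega
      · right; left
        refine ⟨hA1, ?_⟩
        exact chain_eq (hD.1 C hC).1 hBC hAC1 (by rw [card_up hα hA1]; omega)
    · rcases hBC' with rfl | rfl | hBC
      · omega
      · omega
      · have := key B hBC
        omega
    · rcases hBC' with rfl | rfl | hBC
      · have := key A hAC
        omega
      · right; right
        rw [compl_compl]
        refine ⟨hE1, ?_⟩
        apply chain_eq (hD.1 C hC).1 hAC hT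
        rw [card_compl', card_up hβ hE1]
        omega
      · exact Or.inl ⟨C, hC, hAC, hBC, hAB, hcard⟩

end step

theorem up_ne {n j : ℕ} {α α' : V n → Fin n} (hα : Valid j (fun _ _ => False) α)
    {A : V n} (hA : A.card = j) (h : α A ≠ α' A) :
    up α A ≠ up α' A := by
  intro he
  have h1 : α A ∈ up α' A := he ▸ mem_insert_self _ _
  unfold up at h1
  rcases mem_insert.1 h1 with h2 | h2
  · exact h h2
  · exact (hα.1 A hA).1 h2

/-- the starting point of the induction -/
theorem start {k n : ℕ} (h : ∀ j : ℕ, 2 * j + 1 ≤ n → Stage k n j) :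
    ∃ D : Fin k → Set (Set (V n)), (∀ c, PDec n (n / 2) (D c)) ∧ EDisj n D := by
  classical
  obtain ⟨m, hm⟩ : ∃ m, m = n / 2 := ⟨_, rfl⟩
  rw [← hm]
  rcases (show n = 2 * m ∨ n = 2 * m + 1 by omega) with hn | hn
  · refine ⟨fun _ => {C | ∃ A : V n, A.card = m ∧ C = {A}}, ?_, ?_⟩
    · intro c
      refine ⟨?_, ?_⟩
      · rintro C ⟨A, hA, rfl⟩
        refine ⟨Set.subsingleton_singleton.isChain, m, le_rfl, by omega, ?_⟩
        rw [Set.image_singleton, hA]
        ext x
        simp only [Set.mem_singleton_iff, Set.mem_Icc]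
        omega
      · intro S hS1 hS2
        refine ⟨{S}, ⟨⟨S, by omega, rfl⟩, rfl⟩, ?_⟩
        rintro C ⟨⟨A, hA, rfl⟩, hSA⟩
        rw [Set.mem_singleton_iff] at hSA
        rw [hSA]
    · intro c c' _ A B hAB
      obtain ⟨⟨C, ⟨S, hS, rfl⟩, hA, hB, -, hcard⟩, -⟩ := hAB
      rw [Set.mem_singleton_iff] at hA hB
      subst hA hB
      omega
  · obtain ⟨α, β, hα, -, -, hne⟩ := h m (by omega) (fun _ => id) (fun c =>
      ⟨fun A hA => hA, fun A B _ _ hAB => hAB, fun B hB => ⟨B, hB, rfl⟩⟩)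
    refine ⟨fun c => {C | ∃ A : V n, A.card = m ∧ C = {A, up (α c) A}}, ?_, ?_⟩
    · intro c
      have hsurj : ∀ S : V n, S.card = m + 1 → ∃ A : V n, A.card = m ∧ up (α c) A = S := by
        have himg : (Lv n m).image (up (α c)) = Lv n (m + 1) := by
          apply eq_of_subset_of_card_le
          · intro S hS
            obtain ⟨A, hA, rfl⟩ := mem_image.1 hS
            rw [mem_Lv] at hA ⊢
            exact card_up (hα c) hA
          · rw [card_image_of_injOn, card_Lv, card_Lv, hn]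
            · exact (Nat.choose_symm_half m).le
            · intro A hA B hB hAB
              rw [mem_coe, mem_Lv] at hA hB
              exact (hα c).2 A B hA hB hAB
        intro S hS
        have : S ∈ (Lv n m).image (up (α c)) := by rw [himg, mem_Lv, hS]
        obtain ⟨A, hA, hAS⟩ := mem_image.1 this
        exact ⟨A, mem_Lv.1 hA, hAS⟩
      refine ⟨?_, ?_⟩
      · rintro C ⟨A, hA, rfl⟩
        refine ⟨?_, m, le_rfl, by omega, ?_⟩
        · apply IsChain.insert Set.subsingleton_singleton.isChain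
          intro S hS _
          rw [Set.mem_singleton_iff] at hS
          subst hS
          exact Or.inl (sub_up _ _)
        · rw [Set.image_insert_eq, Set.image_singleton, hA, card_up (hα c) hA]
          ext x
          simp only [Set.mem_insert_iff, Set.mem_singleton_iff, Set.mem_Icc]
          omega
      · intro S hS1 hS2
        rcases eq_or_lt_of_le hS1 with hS | hS
        · refine ⟨{S, up (α c) S}, ⟨⟨S, hS.symm, rfl⟩, Set.mem_insert _ _⟩, ?_⟩
          rintro C ⟨⟨A, hA, rfl⟩, hSA⟩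
          rcases hSA with rfl | hSA
          · rfl
          · rw [Set.mem_singleton_iff] at hSA
            have := card_up (hα c) hA
            rw [← hSA] at this
            omega
        · obtain ⟨A, hA, hAS⟩ := hsurj S (by omega)
          refine ⟨{A, up (α c) A}, ⟨⟨A, hA, rfl⟩, ?_⟩, ?_⟩
          · rw [hAS]; exact Set.mem_insert_of_mem _ rfl
          · rintro C ⟨⟨A', hA', rfl⟩, hSA⟩
            rcases hSA with rfl | hSA
            · omega
            · rw [Set.mem_singleton_iff] at hSA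
              have h1 := (hα c).2 A' A hA' hA (by rw [← hSA, hAS])
              rw [h1]
    · intro c c' hcc A B hAB
      obtain ⟨⟨C, ⟨S, hS, rfl⟩, hA, hB, -, hcard⟩, ⟨C', ⟨S', hS', rfl⟩, hA', hB', -, -⟩⟩ := hAB
      have hu := card_up (hα c) hS
      have hu' := card_up (hα c') hS'
      have e1 : A = S ∧ B = up (α c) S := by
        rcases hA with rfl | hA
        · rcases hB with rfl | hB
          · omega
          · exact ⟨rfl, hB⟩
        · rw [Set.mem_singleton_iff] at hA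
          subst hA
          rcases hB with rfl | hB
          · omega
          · rw [Set.mem_singleton_iff] at hB
            subst hB
            omega
      have e2 : A = S' ∧ B = up (α c') S' := by
        rcases hA' with rfl | hA'
        · rcases hB' with rfl | hB'
          · omega
          · exact ⟨rfl, hB'⟩
        · rw [Set.mem_singleton_iff] at hA'
          subst hA'
          rcases hB' with rfl | hB'
          · omega
          · rw [Set.mem_singleton_iff] at hB'
            subst hB'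
            omega
      obtain ⟨rfl, hB1⟩ := e1
      obtain ⟨rfl, hB2⟩ := e2
      exact up_ne (hα c) hS (hne c c' hcc A hS).1 (by rw [← hB1, ← hB2])

theorem step_all {k n j : ℕ} (hj : 2 * j + 2 ≤ n) (h : Stage k n j)
    {D : Fin k → Set (Set (V n))} (hD : ∀ c, PDec n (j + 1) (D c)) (hE : EDisj n D) :
    ∃ D' : Fin k → Set (Set (V n)), (∀ c, PDec n j (D' c)) ∧ EDisj n D' := by
  have hs : ∀ c, ∃ σ : V n → V n, BijLv (j + 1) σ ∧
      ∀ A : V n, A.card = j + 1 → ∃ C ∈ D c, A ∈ C ∧ (σ A)ᶜ ∈ C := fun c =>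
    exists_sigma (by omega) (hD c)
  choose σ hσ hσD using hs
  obtain ⟨α, β, hα, hβ, hL, hne⟩ := h σ hσ
  refine ⟨fun c => extFam n j (D c) (σ c) (α c) (β c), fun c =>
    step_pdec hj (hD c) (hσ c) (hσD c) (hα c) (hβ c) (hL c), ?_⟩
  intro c c' hcc A B hAB
  obtain ⟨h1, h2⟩ := hAB
  have hcard : B.card = A.card + 1 := by
    obtain ⟨_, _, _, _, _, h⟩ := h1
    exact h
  have hsz : ∀ c, UsesEdge n (D c) A B → j + 1 ≤ A.card ∧ B.card ≤ n - (j + 1) := by
    intro c hc
    obtain ⟨C, hC, hA, hB, -, -⟩ := hc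
    obtain ⟨-, i, hi, hi2, hcc⟩ := (hD c).1 C hC
    have h3 : A.card ∈ Set.Icc i (n - i) := hcc ▸ ⟨A, hA, rfl⟩
    have h4 : B.card ∈ Set.Icc i (n - i) := hcc ▸ ⟨B, hB, rfl⟩
    have h5 := h3.1
    have h6 := h4.2
    omega
  have hBn := card_le' B
  have e1 := step_edge hj (hD c) (hσD c) (hα c) (hβ c) h1
  have e2 := step_edge hj (hD c') (hσD c') (hα c') (hβ c') h2
  rw [card_compl'] at e1 e2
  rcases e1 with e1 | ⟨ha, hb⟩ | ⟨ha, hb⟩
  · have s1 := hsz c e1
    rcases e2 with e2 | ⟨ha', hb'⟩ | ⟨ha', hb'⟩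
    · exact hE c c' hcc A B ⟨e1, e2⟩
    · omega
    · omega
  · rcases e2 with e2 | ⟨ha', hb'⟩ | ⟨ha', hb'⟩
    · have s2 := hsz c' e2
      omega
    · exact up_ne (hα c) ha (hne c c' hcc A ha).1 (by rw [← hb, ← hb'])
    · omega
  · rcases e2 with e2 | ⟨ha', hb'⟩ | ⟨ha', hb'⟩
    · have s2 := hsz c' e2
      omega
    · omega
    · have hcB : (Bᶜ).card = j := by rw [card_compl']; exact ha
      refine up_ne (hβ c) hcB (hne c c' hcc Bᶜ hcB).2 ?_
      apply compl_injective
      rw [← hb, ← hb']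

theorem assemble {k n : ℕ} (h : ∀ j : ℕ, 2 * j + 1 ≤ n → Stage k n j) :
    ∃ D : Fin k → Set (Set (Finset (Fin n))), (∀ i, IsSCD n (D i)) ∧
      ∀ i j : Fin k, i ≠ j → ∀ A B : Finset (Fin n), ¬ (UsesEdge n (D i) A B ∧ UsesEdge n (D j) A B) := by
  have hind : ∀ d : ℕ, d ≤ n / 2 →
      ∃ D : Fin k → Set (Set (V n)), (∀ c, PDec n (n / 2 - d) (D c)) ∧ EDisj n D := by
    intro d
    induction d with
    | zero => intro _; simpa using start h
    | succ d ih =>
      intro hd
      obtain ⟨D, hD, hE⟩ := ih (by omega)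
      have e : n / 2 - d = (n / 2 - (d + 1)) + 1 := by omega
      rw [e] at hD
      exact step_all (by omega) (h _ (by omega)) hD hE
  obtain ⟨D, hD, hE⟩ := hind (n / 2) le_rfl
  rw [Nat.sub_self] at hD
  refine ⟨D, fun c => ⟨?_, ?_⟩, hE⟩
  · intro C hC
    obtain ⟨h1, i, -, hi2, hc⟩ := (hD c).1 C hC
    exact ⟨h1, i, hi2, hc⟩
  · intro S
    exact (hD c).2 S (Nat.zero_le _) (card_le' S)

end Pool.Agent.H18.SCD
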