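import Pool.Agent.H18.SCD.T7

set_option autoImplicit false

namespace Pool.Agent.H18.SCD

open Finset

/-- edges used by the family `α`. -/
def used {n k : ℕ} (α : Fin k → V n → Fin n) : V n → Fin n → Prop := fun A x => ∃ c, x = α c A

theorem used_up {n k j : ℕ} (α : Fin k → V n → Fin n) : UpDeg j k (used α) := by
  classical
  intro A _ X hX
  have h : X ⊆ (univ : Finset (Fin k)).image fun c => α c A := by
    intro x hx
    obtain ⟨c, hc⟩ := (hX x hx).2
    rw [mem_image]
    exact ⟨c, mem_univ _, hc.symm⟩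
  have h2 := (Finset.card_le_card h).trans Finset.card_image_le
  simpa using h2

theorem used_down {n k j : ℕ} (α : Fin k → V n → Fin n)
    (hα : ∀ c, Valid j (fun _ _ => False) (α c)) : DownDeg j k (used α) := by
  classical
  intro A' hA' X hX
  rcases X.eq_empty_or_nonempty with rfl | ⟨x1, hx1⟩
  · simp
  haveI : Nonempty (Fin k) := ⟨(hX x1 hx1).2.choose⟩
  choose! f hf using fun x hx => (hX x hx).2
  have hinj : Set.InjOn f X := by
    intro x hx x' hx' h
    have hx1 := (hX x hx).1
    have hx2 := (hX x' hx').1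
    have e1 : up (α (f x)) (A'.erase x) = A' := by
      unfold up
      rw [← hf x hx, Finset.insert_erase hx1]
    have e2 : up (α (f x)) (A'.erase x') = A' := by
      unfold up
      rw [h, ← hf x' hx', Finset.insert_erase hx2]
    have e3 := (hα (f x)).2 (A'.erase x) (A'.erase x')
      (by rw [Finset.card_erase_of_mem hx1, hA']; rfl)
      (by rw [Finset.card_erase_of_mem hx2, hA']; rfl) (e1.trans e2.symm)
    by_contra hne
    have : x' ∈ A'.erase x := Finset.mem_erase.2 ⟨fun h => hne h.symm, hx2⟩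
    rw [e3] at this
    simp at this
  have h := Finset.card_le_card_of_injOn f (s := X) (t := (univ : Finset (Fin k)))
    (fun x _ => by simp) hinj
  simpa using h

theorem central_aux (k : ℕ) : ∃ s : ℝ, 0 < s ∧ ∃ C : ℕ, ∀ n j : ℕ, C ≤ j → 2 * j + 1 ≤ n →
    ∀ σ : Fin k → V n → V n, (∀ c, BijLv (j + 1) (σ c)) →
    ∃ α β : Fin k → V n → Fin n,
      (∀ c, Valid j (fun _ _ => False) (α c)) ∧ (∀ c, Valid j (fun _ _ => False) (β c)) ∧
      (∀ c, Linked j (σ c) (α c) (β c)) ∧
      (∀ c c' : Fin k, c ≠ c' → ∀ A : V n, A.card = j → α c A ≠ α c' A ∧ β c A ≠ β c' A) ∧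
      Par s j (used α) ∧ Par s j (used β) := by
  induction k with
  | zero =>
    refine ⟨1 / 4, by norm_num, 1, ?_⟩
    intro n j hj hn σ _
    have hP : Par (n := n) (1 / 4) j (used (k := 0) fun c => Fin.elim0 c) := by
      classical
      intro A x0 hA hx0
      have h1 : cnt (fun A x => ¬ used (k := 0) (fun c => Fin.elim0 c) A x) A x0
          = (n - j - 1) * j := by
        unfold cnt
        have : ((PP A x0).filter fun p => ¬ used (k := 0) (fun c => Fin.elim0 c) (par A p) x0)
            = ((Aᶜ).erase x0) ×ˢ A := by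
          ext ⟨x, y⟩
          rw [mem_filter, mem_PP, mem_product, mem_erase, mem_compl]
          simp only
          constructor
          · rintro ⟨⟨h1, h2, h3⟩, _⟩
            exact ⟨⟨h2, h1⟩, h3⟩
          · rintro ⟨⟨h2, h1⟩, h3⟩
            refine ⟨⟨h1, h2, h3⟩, ?_⟩
            rintro ⟨c, _⟩
            exact Fin.elim0 c
        have h2 : (((Aᶜ).erase x0) ×ˢ A).card = (n - j - 1) * j := by
          rw [Finset.card_product, Finset.card_erase_of_mem (by simpa using hx0),
            Finset.card_compl, Fintype.card_fin, hA]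
        rw [← h2, ← this]
        congr!
      rw [h1]
      have h2 : (n - j) ≤ 2 * (n - j - 1) := by omega
      have h3 : ((n - j : ℕ) : ℝ) ≤ 2 * ((n - j - 1 : ℕ) : ℝ) := by exact_mod_cast h2
      push_cast
      have h4 : (0 : ℝ) ≤ j := by positivity
      have h5 : (0 : ℝ) ≤ ((n - j - 1 : ℕ) : ℝ) := by positivity
      nlinarith
    refine ⟨fun c => Fin.elim0 c, fun c => Fin.elim0 c, fun c => Fin.elim0 c, fun c => Fin.elim0 c,
      fun c => Fin.elim0 c, fun c => Fin.elim0 c, hP, hP⟩
  | succ k ih =>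
    obtain ⟨s, hs, C1, hC1⟩ := ih
    obtain ⟨s', hs', C2, hC2⟩ := central_step s hs k
    refine ⟨s', hs', C1 + C2, ?_⟩
    intro n j hj hn σ hσ
    obtain ⟨α, β, h1, h2, h3, h4, h5, h6⟩ := hC1 n j (by omega) hn (fun c => σ c.succ)
      (fun c => hσ c.succ)
    obtain ⟨α0, β0, g1, g2, g3, g4, g5⟩ := hC2 n j (by omega) hn (used α) (used β)
      (used_up α) (used_down α h1) (used_up β) (used_down β h2) h5 h6 (σ 0) (hσ 0)
    have hext : ∀ (α0 : V n → Fin n) (α : Fin k → V n → Fin n),
        ext (used α) α0 = used (Fin.cons α0 α : Fin (k + 1) → V n → Fin n) := by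
      intro α0 α
      funext A x
      apply propext
      unfold ext used
      rw [Fin.exists_fin_succ]
      simp only [Fin.cons_zero, Fin.cons_succ]
      exact Or.comm
    refine ⟨Fin.cons α0 α, Fin.cons β0 β, ?_, ?_, ?_, ?_, ?_, ?_⟩
    · intro c
      refine Fin.cases ?_ (fun c => ?_) c
      · exact g1.mono fun A x h => h.elim
      · exact h1 c
    · intro c
      refine Fin.cases ?_ (fun c => ?_) c
      · exact g2.mono fun A x h => h.elim
      · exact h2 c
    · intro c
      refine Fin.cases ?_ (fun c => ?_) c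
      · exact g3
      · exact h3 c
    · intro c c'
      refine Fin.cases ?_ (fun c => ?_) c
      · refine Fin.cases ?_ (fun c' => ?_) c'
        · intro h; exact absurd rfl h
        · intro _ A hA
          simp only [Fin.cons_zero, Fin.cons_succ]
          exact ⟨fun h => (g1.1 A hA).2 ⟨c', h⟩, fun h => (g2.1 A hA).2 ⟨c', h⟩⟩
      · refine Fin.cases ?_ (fun c' => ?_) c'
        · intro _ A hA
          simp only [Fin.cons_zero, Fin.cons_succ]
          exact ⟨fun h => (g1.1 A hA).2 ⟨c, h.symm⟩, fun h => (g2.1 A hA).2 ⟨c, h.symm⟩⟩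
        · intro h A hA
          simp only [Fin.cons_succ]
          exact h4 c c' (fun h' => h (congrArg Fin.succ h')) A hA
    · rw [← hext]; exact g4
    · rw [← hext]; exact g5

theorem central_stage (k : ℕ) : ∃ C : ℕ, ∀ n j : ℕ, C ≤ j → 2 * j + 1 ≤ n → Stage k n j := by
  obtain ⟨s, _, C, hC⟩ := central_aux k
  refine ⟨C, fun n j hj hn σ hσ => ?_⟩
  obtain ⟨α, β, h1, h2, h3, h4, _, _⟩ := hC n j hj hn σ hσ
  exact ⟨α, β, h1, h2, h3, h4⟩

end Pool.Agent.H18.SCD
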