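import Pool.Agent.H18.SCD.T5a
import Pool.Agent.H18.SCD.T5b
import Pool.Agent.H18.SCD.T6
import Pool.Agent.H18.SCD.T7b

set_option autoImplicit false

namespace Pool.Agent.H18.SCD

open Finset

theorem low_stage (k j : ℕ) : ∃ N : ℕ, ∀ n : ℕ, N ≤ n → Stage k n j :=
  T5b.low_stage_of (fun B hB hh => johnson B hB hh) k j

/-- all stages -/
theorem all_stages (k : ℕ) : ∃ N : ℕ, ∀ n : ℕ, N ≤ n → ∀ j : ℕ, 2 * j + 1 ≤ n → Stage k n j := by
  obtain ⟨C, hC⟩ := central_stage k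
  choose N hN using low_stage k
  refine ⟨∑ j ∈ range C, N j, fun n hn j hj => ?_⟩
  by_cases h : C ≤ j
  · exact hC n j h hj
  · refine hN j n (le_trans ?_ hn)
    exact Finset.single_le_sum (f := N) (fun _ _ => Nat.zero_le _) (by simpa using (by omega : j < C))

/-- for every `k` and all sufficiently large `n`, `Q_n` has `k` pairwise edge-disjoint SCDs -/
theorem main (k : ℕ) : ∃ N : ℕ, ∀ n : ℕ, N ≤ n →
    ∃ D : Fin k → Set (Set (Finset (Fin n))), (∀ i, IsSCD n (D i)) ∧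
      ∀ i j : Fin k, i ≠ j → ∀ A B : Finset (Fin n), ¬ (UsesEdge n (D i) A B ∧ UsesEdge n (D j) A B) := by
  obtain ⟨N, hN⟩ := all_stages k
  exact ⟨N, fun n hn => assemble (hN n hn)⟩

end Pool.Agent.H18.SCD
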