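import Pool.Agent.H18.SCD.T2

set_option autoImplicit false

namespace Pool.Agent.H18.SCD

open Finset

theorem balanced {n q : ℕ} (hq : 0 < q) (X : Finset (Fin n)) :
    ∃ g : Fin n → Fin q, ∀ c : Fin q, (X.filter fun x => g x = c).card ≤ X.card / q + 1 := by
  classical
  let r : Fin n → ℕ := fun x => (X.filter fun z => z < x).card
  have hr : ∀ x ∈ X, ∀ y ∈ X, r x = r y → x = y := by
    have key : ∀ x ∈ X, ∀ y ∈ X, x < y → r x < r y := by
      intro x hx y hy hxy
      apply Finset.card_lt_card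
      rw [Finset.ssubset_iff_of_subset]
      · exact ⟨x, by simp [hx, hxy], by simp⟩
      · intro z hz
        rw [mem_filter] at hz ⊢
        exact ⟨hz.1, hz.2.trans hxy⟩
    intro x hx y hy h
    rcases lt_trichotomy x y with h1 | h1 | h1
    · exact absurd h (key x hx y hy h1).ne
    · exact h1
    · exact absurd h (key y hy x hx h1).ne'
  have hrlt : ∀ x ∈ X, r x < X.card := by
    intro x hx
    apply Finset.card_lt_card
    rw [Finset.ssubset_iff_of_subset (Finset.filter_subset _ _)]
    exact ⟨x, hx, by simp⟩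
  refine ⟨fun x => ⟨r x % q, Nat.mod_lt _ hq⟩, fun c => ?_⟩
  rw [← Finset.card_range (X.card / q + 1)]
  refine Finset.card_le_card_of_injOn (fun x => r x / q) ?_ ?_
  · intro x hx
    rw [Finset.mem_coe, mem_filter] at hx
    simp only [coe_range, Set.mem_Iio]
    have := Nat.div_le_div_right (c := q) (hrlt x hx.1).le
    omega
  · intro x hx y hy h
    rw [Finset.mem_coe, mem_filter] at hx hy
    have h1 : r x % q = r y % q := by
      have e1 := congrArg Fin.val hx.2
      have e2 := congrArg Fin.val hy.2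
      simp only at e1 e2
      omega
    have h2 : r x / q = r y / q := h
    apply hr x hx.1 y hy.1
    rw [← Nat.div_add_mod (r x) q, ← Nat.div_add_mod (r y) q, h1, h2]

theorem par_inj {n : ℕ} {A : V n} {x0 : Fin n} {p p' : Fin n × Fin n} (hp : p ∈ PP A x0)
    (hp' : p' ∈ PP A x0) (h : par A p = par A p') : p = p' := by
  classical
  obtain ⟨x, y⟩ := p
  obtain ⟨x', y'⟩ := p'
  rw [mem_PP] at hp hp'
  simp only at hp hp'
  obtain ⟨hx, _, hy⟩ := hp
  obtain ⟨hx', _, hy'⟩ := hp'
  have h1 : x = x' := by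
    have : x ∈ par A (x', y') := by rw [← h]; simp [par]
    simp only [par, mem_insert, mem_erase] at this
    rcases this with h2 | h2
    · exact h2
    · exact absurd h2.2 hx
  have h2 : y = y' := by
    by_contra hne
    have : y ∈ par A (x', y') := by
      simp only [par, mem_insert, mem_erase]
      exact Or.inr ⟨hne, hy⟩
    rw [← h] at this
    simp only [par, mem_insert, mem_erase] at this
    rcases this with h2 | h2
    · exact hx (h2 ▸ hy)
    · exact h2.1 rfl
  rw [h1, h2]

theorem notMem_par {n : ℕ} {A : V n} {x0 : Fin n} {p : Fin n × Fin n} (hp : p ∈ PP A x0)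
    (hx0 : x0 ∉ A) : x0 ∉ par A p := by
  rw [mem_PP] at hp
  simp only [par, mem_insert, mem_erase, not_or, not_and]
  exact ⟨fun h => hp.2.1 h.symm, fun _ => hx0⟩

theorem randomF {n j q m0 s : ℕ} (hq : 3 ≤ q) (R : V n → Fin n → Prop)
    (hm : ∀ (A : V n) (x0 : Fin n), A.card = j → x0 ∉ A → m0 ≤ cnt (fun A x => ¬ R A x) A x0)
    (hnum : (n : ℝ) * (n.choose j : ℝ) *
      (2 ^ s * (1 - 1 / (2 * (q : ℝ) ^ 2)) ^ m0 + (2 / 3) ^ m0) < 1) :
    ∃ F : V n → Fin n → Prop,
      UpDeg j ((n - j) / q + 1) F ∧ DownDeg j ((j + 1) / q + 1) F ∧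
      (∀ (A : V n) (x0 : Fin n), A.card = j → x0 ∉ A →
        s ≤ cnt (fun A x => ¬ R A x ∧ F A x) A x0) ∧
      (∀ (A : V n) (x0 : Fin n), A.card = j → x0 ∉ A →
        m0 ≤ 2 * cnt (fun A x => ¬ (R A x ∨ F A x)) A x0) := by
  classical
  have hq0 : 0 < q := by omega
  choose g hg using fun A : V n => balanced (q := q) hq0 (Aᶜ)
  choose g' hg' using fun A : V n => balanced (q := q) hq0 A
  let I := V n ⊕ V n
  let F : (I → Fin q) → V n → Fin n → Prop := fun f A x =>
    f (Sum.inl A) = g A x ∧ f (Sum.inr (insert x A)) = g' (insert x A) x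
  let S : V n × Fin n → Finset (Fin n × Fin n) := fun t =>
    (PP t.1 t.2).filter fun p => ¬ R (par t.1 p) t.2
  let X : V n × Fin n → (I → Fin q) → ℕ := fun t f =>
    ((S t).filter fun p => f (Sum.inl (par t.1 p)) = g (par t.1 p) t.2 ∧
      f (Sum.inr (insert t.2 (par t.1 p))) = g' (insert t.2 (par t.1 p)) t.2).card
  let Low : V n × Fin n → Finset (I → Fin q) := fun t => univ.filter fun f => X t f ≤ s
  let Up : V n × Fin n → Finset (I → Fin q) := fun t => univ.filter fun f => (S t).card ≤ 2 * X t f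
  let P : Finset (V n × Fin n) := ((Lv n j) ×ˢ univ).filter fun t => t.2 ∉ t.1
  have hP : ∀ t, t ∈ P ↔ t.1.card = j ∧ t.2 ∉ t.1 := by
    intro t
    simp [P, mem_Lv]
  have hScard : ∀ t ∈ P, m0 ≤ (S t).card := by
    intro t ht
    obtain ⟨h1, h2⟩ := (hP t).1 ht
    refine (hm t.1 t.2 h1 h2).trans (le_of_eq ?_)
    unfold cnt
    simp only [S]
  have hLow : ∀ t ∈ P, ((Low t).card : ℝ)
      ≤ 2 ^ s * (1 - 1 / (2 * (q : ℝ) ^ 2)) ^ m0 * (q : ℝ) ^ (Fintype.card I) := by
    intro t ht
    obtain ⟨h1, h2⟩ := (hP t).1 ht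
    have := tail_low (I := I) hq0 (S t) (fun p => Sum.inl (par t.1 p))
      (fun p => Sum.inr (insert t.2 (par t.1 p))) (fun p => g (par t.1 p) t.2)
      (fun p => g' (insert t.2 (par t.1 p)) t.2)
      (by
        intro p hp p' hp' h
        exact par_inj (mem_filter.1 hp).1 (mem_filter.1 hp').1 (Sum.inl_injective h))
      (by
        intro p hp p' hp' h
        have h3 := Sum.inr_injective h
        have e1 := notMem_par (mem_filter.1 hp).1 h2
        have e2 := notMem_par (mem_filter.1 hp').1 h2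
        have : par t.1 p = par t.1 p' := by
          rw [← Finset.erase_insert e1, h3, Finset.erase_insert e2]
        exact par_inj (mem_filter.1 hp).1 (mem_filter.1 hp').1 this)
      (by
        intro p _ p' _ h
        exact absurd h (by simp)) s
    refine this.trans ?_
    refine mul_le_mul_of_nonneg_right ?_ (by positivity)
    refine mul_le_mul_of_nonneg_left ?_ (by positivity)
    have hq3 : (3 : ℝ) ≤ q := by exact_mod_cast hq
    have h5 : 1 / (2 * (q : ℝ) ^ 2) ≤ 1 := by
      rw [div_le_iff₀ (by positivity)]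
      nlinarith
    have h6 : 0 ≤ 1 / (2 * (q : ℝ) ^ 2) := by positivity
    exact pow_le_pow_of_le_one (by linarith) (by linarith) (hScard t ht)
  have hUp : ∀ t ∈ P, ((Up t).card : ℝ) ≤ (2 / 3) ^ m0 * (q : ℝ) ^ (Fintype.card I) := by
    intro t ht
    obtain ⟨h1, h2⟩ := (hP t).1 ht
    have := tail_up (I := I) hq (S t) (fun p => Sum.inl (par t.1 p))
      (fun p => Sum.inr (insert t.2 (par t.1 p))) (fun p => g (par t.1 p) t.2)
      (fun p => g' (insert t.2 (par t.1 p)) t.2)
      (by
        intro p hp p' hp' h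
        exact par_inj (mem_filter.1 hp).1 (mem_filter.1 hp').1 (Sum.inl_injective h))
      (by
        intro p hp p' hp' h
        have h3 := Sum.inr_injective h
        have e1 := notMem_par (mem_filter.1 hp).1 h2
        have e2 := notMem_par (mem_filter.1 hp').1 h2
        have : par t.1 p = par t.1 p' := by
          rw [← Finset.erase_insert e1, h3, Finset.erase_insert e2]
        exact par_inj (mem_filter.1 hp).1 (mem_filter.1 hp').1 this)
      (by
        intro p _ p' _ h
        exact absurd h (by simp))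
    refine this.trans ?_
    refine mul_le_mul_of_nonneg_right ?_ (by positivity)
    exact pow_le_pow_of_le_one (by norm_num) (by norm_num) (hScard t ht)
  -- the union bound
  have hPcard : (P.card : ℝ) ≤ (n : ℝ) * (n.choose j : ℝ) := by
    have : P.card ≤ n.choose j * n := by
      refine (Finset.card_filter_le _ _).trans ?_
      rw [Finset.card_product, card_Lv]
      simp
    have h2 : (P.card : ℝ) ≤ ((n.choose j * n : ℕ) : ℝ) := by exact_mod_cast this
    rw [Nat.cast_mul] at h2
    linarith [mul_comm (n : ℝ) (n.choose j : ℝ)]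
  have hex : ∃ f : I → Fin q, ∀ t ∈ P, f ∉ Low t ∧ f ∉ Up t := by
    by_contra hcon
    push Not at hcon
    have hcov : (univ : Finset (I → Fin q)) ⊆ P.biUnion fun t => Low t ∪ Up t := by
      intro f _
      obtain ⟨t, ht, h⟩ := hcon f
      rw [mem_biUnion]
      refine ⟨t, ht, ?_⟩
      rw [mem_union]
      by_cases h' : f ∈ Low t
      · exact Or.inl h'
      · exact Or.inr (h h')
    have h1 : ((univ : Finset (I → Fin q)).card : ℝ) ≤ ∑ t ∈ P, (((Low t).card : ℝ) + (Up t).card) := by
      have h2 := (Finset.card_le_card hcov).trans Finset.card_biUnion_le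
      have h3 : (∑ t ∈ P, (Low t ∪ Up t).card) ≤ ∑ t ∈ P, ((Low t).card + (Up t).card) :=
        Finset.sum_le_sum fun t _ => Finset.card_union_le _ _
      have h4 := h2.trans h3
      exact_mod_cast h4
    have h2 : ∑ t ∈ P, (((Low t).card : ℝ) + (Up t).card)
        ≤ ∑ t ∈ P, ((2 ^ s * (1 - 1 / (2 * (q : ℝ) ^ 2)) ^ m0 + (2 / 3) ^ m0) *
          (q : ℝ) ^ (Fintype.card I)) := by
      refine Finset.sum_le_sum fun t ht => ?_
      rw [add_mul]
      exact add_le_add (hLow t ht) (hUp t ht)
    rw [Finset.sum_const, nsmul_eq_mul] at h2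
    have h3 : ((univ : Finset (I → Fin q)).card : ℝ) = (q : ℝ) ^ (Fintype.card I) := by
      rw [Finset.card_univ, Fintype.card_fun, Fintype.card_fin]
      push_cast
      rfl
    rw [h3] at h1
    have hpos : (0 : ℝ) < (q : ℝ) ^ (Fintype.card I) := by positivity
    have hnn : 0 ≤ (2 : ℝ) ^ s * (1 - 1 / (2 * (q : ℝ) ^ 2)) ^ m0 + (2 / 3) ^ m0 := by
      have hq3 : (3 : ℝ) ≤ q := by exact_mod_cast hq
      have h5 : 1 / (2 * (q : ℝ) ^ 2) ≤ 1 := by
        rw [div_le_iff₀ (by positivity)]
        nlinarith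
      have : 0 ≤ 1 - 1 / (2 * (q : ℝ) ^ 2) := by linarith
      positivity
    have h4 : (P.card : ℝ) * ((2 ^ s * (1 - 1 / (2 * (q : ℝ) ^ 2)) ^ m0 + (2 / 3) ^ m0) *
          (q : ℝ) ^ (Fintype.card I)) < (q : ℝ) ^ (Fintype.card I) := by
      calc (P.card : ℝ) * ((2 ^ s * (1 - 1 / (2 * (q : ℝ) ^ 2)) ^ m0 + (2 / 3) ^ m0) *
          (q : ℝ) ^ (Fintype.card I))
          = ((P.card : ℝ) * (2 ^ s * (1 - 1 / (2 * (q : ℝ) ^ 2)) ^ m0 + (2 / 3) ^ m0)) *
          (q : ℝ) ^ (Fintype.card I) := by ring
        _ ≤ ((n : ℝ) * (n.choose j : ℝ) *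
            (2 ^ s * (1 - 1 / (2 * (q : ℝ) ^ 2)) ^ m0 + (2 / 3) ^ m0)) *
            (q : ℝ) ^ (Fintype.card I) := by
              refine mul_le_mul_of_nonneg_right ?_ hpos.le
              exact mul_le_mul_of_nonneg_right hPcard hnn
        _ < 1 * (q : ℝ) ^ (Fintype.card I) := by
              exact mul_lt_mul_of_pos_right hnum hpos
        _ = _ := one_mul _
    linarith
  obtain ⟨f, hf⟩ := hex
  refine ⟨F f, ?_, ?_, ?_, ?_⟩
  · intro A hA Y hY
    have h1 : Y ⊆ (Aᶜ).filter fun x => g A x = f (Sum.inl A) := by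
      intro x hx
      rw [mem_filter, mem_compl]
      exact ⟨(hY x hx).1, (hY x hx).2.1.symm⟩
    have h2 := (Finset.card_le_card h1).trans (hg A (f (Sum.inl A)))
    rwa [Finset.card_compl, Fintype.card_fin, hA] at h2
  · intro A' hA' Y hY
    have h1 : Y ⊆ A'.filter fun x => g' A' x = f (Sum.inr A') := by
      intro x hx
      obtain ⟨hxA, _, h2⟩ := hY x hx
      rw [Finset.insert_erase hxA] at h2
      rw [mem_filter]
      exact ⟨hxA, h2.symm⟩
    have h2 := (Finset.card_le_card h1).trans (hg' A' (f (Sum.inr A')))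
    rwa [hA'] at h2
  · intro A x0 hA hx0
    have h1 := (hf (A, x0) ((hP _).2 ⟨hA, hx0⟩)).1
    simp only [Low, mem_filter, mem_univ, true_and, not_le] at h1
    refine h1.le.trans (le_of_eq ?_)
    unfold cnt
    simp only [X, S, F]
    rw [Finset.filter_filter]
  · intro A x0 hA hx0
    have h1 := (hf (A, x0) ((hP _).2 ⟨hA, hx0⟩)).2
    have h2 := hScard (A, x0) ((hP _).2 ⟨hA, hx0⟩)
    simp only [Up, mem_filter, mem_univ, true_and, not_le] at h1
    have h3 : (S (A, x0)).card = X (A, x0) f + cnt (fun A x => ¬ (R A x ∨ F f A x)) A x0 := by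
      rw [← Finset.card_filter_add_card_filter_not (s := S (A, x0))
        (fun p => f (Sum.inl (par A p)) = g (par A p) x0 ∧
          f (Sum.inr (insert x0 (par A p))) = g' (insert x0 (par A p)) x0)]
      congr 1
      unfold cnt
      simp only [S, F]
      rw [Finset.filter_filter]
      congr 1
      ext p
      simp only [mem_filter]
      tauto
    omega

end Pool.Agent.H18.SCD
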