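import Pool.Agent.H18.SCD.T1
import Pool.Agent.H18.SCD.T3
import Pool.Agent.H18.SCD.T4

set_option autoImplicit false

namespace Pool.Agent.H18.SCD

open Finset

theorem UpDeg.or {n j u u' : ℕ} {R F : V n → Fin n → Prop} (h : UpDeg j u R) (h' : UpDeg j u' F) :
    UpDeg j (u + u') (fun A x => R A x ∨ F A x) := by
  classical
  intro A hA X hX
  have h1 := h A hA (X.filter fun x => R A x) (by
    intro x hx
    rw [mem_filter] at hx
    exact ⟨(hX x hx.1).1, hx.2⟩)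
  have h2 := h' A hA (X.filter fun x => ¬ R A x) (by
    intro x hx
    rw [mem_filter] at hx
    exact ⟨(hX x hx.1).1, (hX x hx.1).2.resolve_left hx.2⟩)
  have h3 := Finset.card_filter_add_card_filter_not (s := X) (fun x => R A x)
  omega

theorem DownDeg.or {n j u u' : ℕ} {R F : V n → Fin n → Prop} (h : DownDeg j u R)
    (h' : DownDeg j u' F) : DownDeg j (u + u') (fun A x => R A x ∨ F A x) := by
  classical
  intro A hA X hX
  have h1 := h A hA (X.filter fun x => R (A.erase x) x) (by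
    intro x hx
    rw [mem_filter] at hx
    exact ⟨(hX x hx.1).1, hx.2⟩)
  have h2 := h' A hA (X.filter fun x => ¬ R (A.erase x) x) (by
    intro x hx
    rw [mem_filter] at hx
    exact ⟨(hX x hx.1).1, (hX x hx.1).2.resolve_left hx.2⟩)
  have h3 := Finset.card_filter_add_card_filter_not (s := X) (fun x => R (A.erase x) x)
  omega

theorem cnt_mono {n : ℕ} {P Q : V n → Fin n → Prop} {A : V n} {x0 : Fin n}
    (h : ∀ p ∈ PP A x0, P (par A p) x0 → Q (par A p) x0) : cnt P A x0 ≤ cnt Q A x0 := by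
  classical
  unfold cnt
  apply Finset.card_le_card
  intro p hp
  rw [mem_filter] at hp ⊢
  exact ⟨hp.1, h p hp.1 hp.2⟩

theorem card_par {n : ℕ} {A : V n} {x0 : Fin n} {p : Fin n × Fin n} (hp : p ∈ PP A x0) :
    (par A p).card = A.card := by
  rw [mem_PP] at hp
  unfold par
  rw [Finset.card_insert_of_notMem, Finset.card_erase_of_mem hp.2.2]
  · have : 0 < A.card := Finset.card_pos.2 ⟨_, hp.2.2⟩
    omega
  · intro h
    exact hp.1 (Finset.mem_of_mem_erase h)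

theorem Valid.mono {n j : ℕ} {R R' : V n → Fin n → Prop} {α : V n → Fin n} (h : Valid j R' α)
    (hR : ∀ A x, R A x → R' A x) : Valid j R α :=
  ⟨fun A hA => ⟨(h.1 A hA).1, fun h' => (h.1 A hA).2 (hR _ _ h')⟩, h.2⟩

/-- numerical part of the central step. -/
theorem numeric (s : ℝ) (hs : 0 < s) (q : ℕ) (hq : 3 ≤ q) : ∃ C : ℕ,
    ∀ n j m0 : ℕ, C ≤ j → 2 * j + 1 ≤ n → s * (((n - j : ℕ) : ℝ) * (j : ℝ)) ≤ m0 →
      (n : ℝ) * (n.choose j : ℝ) *
      (2 ^ (m0 / (8 * q ^ 2)) * (1 - 1 / (2 * (q : ℝ) ^ 2)) ^ m0 + (2 / 3) ^ m0) < 1 := by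
  have hq3 : (3 : ℝ) ≤ q := by exact_mod_cast hq
  have hq2 : (0 : ℝ) < (q : ℝ) ^ 2 := by positivity
  obtain ⟨C, hC⟩ := exists_nat_gt ((32 * (q : ℝ) ^ 2 / s) ^ 2)
  refine ⟨C + 1, fun n j m0 hj hn hm => ?_⟩
  have hj1 : 1 ≤ j := by omega
  have hn0 : (0 : ℝ) < n := by
    have : 0 < n := by omega
    exact_mod_cast this
  have hj1' : (1 : ℝ) ≤ j := by exact_mod_cast hj1
  set x : ℝ := (m0 : ℝ) / (4 * (q : ℝ) ^ 2) with hx
  have hx0 : 0 ≤ x := by positivity
  have hA : (2 : ℝ) ^ (m0 / (8 * q ^ 2)) * (1 - 1 / (2 * (q : ℝ) ^ 2)) ^ m0 ≤ Real.exp (-x) := by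
    have h1 : (2 : ℝ) ^ (m0 / (8 * q ^ 2)) ≤ Real.exp (x / 2) := by
      have e1 : (2 : ℝ) ≤ Real.exp 1 := by
        have := Real.add_one_le_exp (1 : ℝ)
        linarith
      have e2 : ((m0 / (8 * q ^ 2) : ℕ) : ℝ) ≤ x / 2 := by
        have e3 : ((m0 / (8 * q ^ 2) : ℕ) : ℝ) ≤ (m0 : ℝ) / ((8 * q ^ 2 : ℕ) : ℝ) :=
          Nat.cast_div_le
        refine e3.trans (le_of_eq ?_)
        rw [hx]
        push_cast
        field_simp
        ring
      calc (2 : ℝ) ^ (m0 / (8 * q ^ 2)) ≤ (Real.exp 1) ^ (m0 / (8 * q ^ 2)) :=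
            pow_le_pow_left₀ (by norm_num) e1 _
        _ = Real.exp ((m0 / (8 * q ^ 2) : ℕ) : ℝ) := by
            rw [← Real.exp_nat_mul, mul_one]
        _ ≤ Real.exp (x / 2) := Real.exp_le_exp.2 e2
    have h2 : (1 - 1 / (2 * (q : ℝ) ^ 2)) ^ m0 ≤ Real.exp (-(2 * x)) := by
      have e1 : (1 - 1 / (2 * (q : ℝ) ^ 2)) ≤ Real.exp (-(1 / (2 * (q : ℝ) ^ 2))) := by
        have := Real.add_one_le_exp (-(1 / (2 * (q : ℝ) ^ 2)))
        linarith
      have e0 : 0 ≤ (1 - 1 / (2 * (q : ℝ) ^ 2)) := by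
        have : 1 / (2 * (q : ℝ) ^ 2) ≤ 1 := by
          rw [div_le_iff₀ (by positivity)]
          nlinarith
        linarith
      calc (1 - 1 / (2 * (q : ℝ) ^ 2)) ^ m0 ≤ (Real.exp (-(1 / (2 * (q : ℝ) ^ 2)))) ^ m0 :=
            pow_le_pow_left₀ e0 e1 _
        _ = Real.exp (-(2 * x)) := by
            rw [← Real.exp_nat_mul]
            congr 1
            rw [hx]
            field_simp
            ring
    calc (2 : ℝ) ^ (m0 / (8 * q ^ 2)) * (1 - 1 / (2 * (q : ℝ) ^ 2)) ^ m0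
        ≤ Real.exp (x / 2) * Real.exp (-(2 * x)) := by
          refine mul_le_mul h1 h2 ?_ (Real.exp_nonneg _)
          have e0 : 0 ≤ (1 - 1 / (2 * (q : ℝ) ^ 2)) := by
            have : 1 / (2 * (q : ℝ) ^ 2) ≤ 1 := by
              rw [div_le_iff₀ (by positivity)]
              nlinarith
            linarith
          positivity
      _ = Real.exp (x / 2 + -(2 * x)) := (Real.exp_add _ _).symm
      _ ≤ Real.exp (-x) := Real.exp_le_exp.2 (by linarith)
  have hB : ((2 : ℝ) / 3) ^ m0 ≤ Real.exp (-x) := by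
    have e1 : (2 : ℝ) / 3 ≤ Real.exp (-(1 / 3)) := by
      have := Real.add_one_le_exp (-(1 / 3 : ℝ))
      linarith
    calc ((2 : ℝ) / 3) ^ m0 ≤ (Real.exp (-(1 / 3))) ^ m0 :=
          pow_le_pow_left₀ (by norm_num) e1 _
      _ = Real.exp (-((m0 : ℝ) / 3)) := by
          rw [← Real.exp_nat_mul]
          congr 1
          ring
      _ ≤ Real.exp (-x) := by
          apply Real.exp_le_exp.2
          have : x ≤ (m0 : ℝ) / 3 := by
            rw [hx]
            apply div_le_div_of_nonneg_left (by positivity) (by norm_num)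
            nlinarith
          linarith
  have hC' : (n : ℝ) * (n.choose j : ℝ) * 2 < Real.exp x := by
    have h1 : (n.choose j : ℝ) ≤ (n : ℝ) ^ j := by
      exact_mod_cast Nat.choose_le_pow n j
    have h2 : 2 * (n : ℝ) ≤ Real.exp (2 * Real.sqrt n) := by
      have e1 := Real.quadratic_le_exp_of_nonneg (x := 2 * Real.sqrt n) (by positivity)
      have e2 : Real.sqrt n ^ 2 = n := Real.sq_sqrt hn0.le
      have e3 : 0 ≤ Real.sqrt (n : ℝ) := Real.sqrt_nonneg _
      nlinarith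
    have hn1 : (1 : ℝ) ≤ n := by
      have : 1 ≤ n := by omega
      exact_mod_cast this
    have h3 : (n : ℝ) * (n.choose j : ℝ) * 2 ≤ (2 * (n : ℝ)) ^ (j + 1) := by
      have e1 : (2 : ℝ) ≤ 2 ^ (j + 1) := by
        calc (2 : ℝ) = 2 ^ 1 := by norm_num
          _ ≤ 2 ^ (j + 1) := pow_le_pow_right₀ (by norm_num) (by omega)
      calc (n : ℝ) * (n.choose j : ℝ) * 2 ≤ (n : ℝ) * (n : ℝ) ^ j * 2 := by
            have := mul_le_mul_of_nonneg_left h1 hn0.le
            linarith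
        _ = (n : ℝ) ^ (j + 1) * 2 := by ring
        _ ≤ (n : ℝ) ^ (j + 1) * 2 ^ (j + 1) := by
            exact mul_le_mul_of_nonneg_left e1 (by positivity)
        _ = (2 * (n : ℝ)) ^ (j + 1) := by rw [mul_pow]; ring
    have h4 : (2 * (n : ℝ)) ^ (j + 1) ≤ Real.exp (((j + 1 : ℕ) : ℝ) * (2 * Real.sqrt n)) := by
      rw [Real.exp_nat_mul]
      exact pow_le_pow_left₀ (by positivity) h2 _
    have h5 : ((j + 1 : ℕ) : ℝ) * (2 * Real.sqrt n) < x := by
      have hsq : 32 * (q : ℝ) ^ 2 / s < Real.sqrt n := by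
        apply Real.lt_sqrt_of_sq_lt
        refine hC.trans ?_
        have : C < n := by omega
        exact_mod_cast this
      have hpos : 0 < Real.sqrt (n : ℝ) := Real.sqrt_pos.2 hn0
      have e1 : (((j + 1 : ℕ)) : ℝ) ≤ 2 * j := by push_cast; linarith
      have e2 : (n : ℝ) / 2 ≤ ((n - j : ℕ) : ℝ) := by
        have h6 : n ≤ 2 * (n - j) := by omega
        have h7 : (n : ℝ) ≤ 2 * ((n - j : ℕ) : ℝ) := by exact_mod_cast h6
        linarith
      have e3 : s * ((n : ℝ) / 2 * j) ≤ m0 := by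
        refine le_trans ?_ hm
        refine mul_le_mul_of_nonneg_left ?_ hs.le
        exact mul_le_mul_of_nonneg_right e2 (by linarith)
      have e4 : 32 * (q : ℝ) ^ 2 < s * Real.sqrt n := by
        rw [div_lt_iff₀ hs] at hsq
        linarith
      have e5 : Real.sqrt n * Real.sqrt n = n := Real.mul_self_sqrt hn0.le
      rw [hx, lt_div_iff₀ (by positivity)]
      calc ((j + 1 : ℕ) : ℝ) * (2 * Real.sqrt n) * (4 * (q : ℝ) ^ 2)
          ≤ (2 * j) * (2 * Real.sqrt n) * (4 * (q : ℝ) ^ 2) := by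
            refine mul_le_mul_of_nonneg_right ?_ (by positivity)
            exact mul_le_mul_of_nonneg_right e1 (by positivity)
        _ = (j * Real.sqrt n / 2) * (32 * (q : ℝ) ^ 2) := by ring
        _ < (j * Real.sqrt n / 2) * (s * Real.sqrt n) := by
            refine mul_lt_mul_of_pos_left e4 ?_
            have : (0 : ℝ) < j := by linarith
            positivity
        _ = s * ((Real.sqrt n * Real.sqrt n) / 2 * j) := by ring
        _ = s * ((n : ℝ) / 2 * j) := by rw [e5]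
        _ ≤ m0 := e3
    calc (n : ℝ) * (n.choose j : ℝ) * 2 ≤ _ := h3
      _ ≤ _ := h4
      _ < Real.exp x := Real.exp_lt_exp.2 h5
  calc (n : ℝ) * (n.choose j : ℝ) *
      (2 ^ (m0 / (8 * q ^ 2)) * (1 - 1 / (2 * (q : ℝ) ^ 2)) ^ m0 + (2 / 3) ^ m0)
      ≤ (n : ℝ) * (n.choose j : ℝ) * (Real.exp (-x) + Real.exp (-x)) := by
        refine mul_le_mul_of_nonneg_left (add_le_add hA hB) (by positivity)
    _ = ((n : ℝ) * (n.choose j : ℝ) * 2) * Real.exp (-x) := by ring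
    _ < Real.exp x * Real.exp (-x) := mul_lt_mul_of_pos_right hC' (Real.exp_pos _)
    _ = 1 := by rw [← Real.exp_add]; simp

/-- one side (α or β) of the central step: a set `F` of forbidden edges. -/
theorem side (s : ℝ) (hs : 0 < s) (K : ℕ) : ∃ s' : ℝ, 0 < s' ∧ ∃ C : ℕ,
    ∀ n j : ℕ, C ≤ j → 2 * j + 1 ≤ n → ∀ R : V n → Fin n → Prop,
      UpDeg j K R → DownDeg j K R → Par s j R →
      ∃ F : V n → Fin n → Prop, NMP j (fun A x => R A x ∨ F A x) ∧
        ∀ α : V n → Fin n, Valid j (fun A x => R A x ∨ F A x) α → Par s' j (ext R α) := by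
  obtain ⟨q0, hq0⟩ := exists_nat_gt (24 / s)
  let q := q0 + 3
  have hq : 3 ≤ q := by omega
  have hqs : 24 / s < (q : ℝ) := by
    have : (q0 : ℝ) ≤ q := by exact_mod_cast (by omega : q0 ≤ q)
    linarith
  have hqpos : (0 : ℝ) < q := by
    have : 0 < q := by omega
    exact_mod_cast this
  obtain ⟨C1, hC1⟩ := numeric s hs q hq
  obtain ⟨C2, hC2⟩ := exists_nat_gt (16 * (K + 1) / s)
  obtain ⟨C3, hC3⟩ := exists_nat_gt (16 * (q : ℝ) ^ 2 / s)
  refine ⟨s / (16 * (q : ℝ) ^ 2), by positivity, C1 + C2 + C3 + 1, ?_⟩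
  intro n j hj hn R hu hv hpar
  have hj1 : 1 ≤ j := by omega
  have hj1' : (1 : ℝ) ≤ j := by exact_mod_cast hj1
  set a : ℕ := n - j with ha
  have haj : j + 1 ≤ a := by omega
  have haj' : (j : ℝ) + 1 ≤ a := by exact_mod_cast haj
  have ha0 : (0 : ℝ) < a := by linarith
  set m0 : ℕ := ⌈s * ((a : ℝ) * (j : ℝ))⌉₊ with hm0
  have hm0' : s * ((a : ℝ) * (j : ℝ)) ≤ m0 := Nat.le_ceil _
  have hm : ∀ (A : V n) (x0 : Fin n), A.card = j → x0 ∉ A →
      m0 ≤ cnt (fun A x => ¬ R A x) A x0 := by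
    intro A x0 hA hx0
    rw [hm0]
    exact Nat.ceil_le.2 (hpar A x0 hA hx0)
  have hnum := hC1 n j m0 (by omega) hn hm0'
  obtain ⟨F, hFu, hFv, hF1, hF2⟩ := randomF (s := m0 / (8 * q ^ 2)) hq R hm hnum
  have hC2' : 16 * ((K : ℝ) + 1) ≤ s * j := by
    have h1 : (C2 : ℝ) ≤ j := by exact_mod_cast (by omega : C2 ≤ j)
    have h2 : 16 * ((K : ℝ) + 1) / s ≤ j := by linarith
    rw [div_le_iff₀ hs] at h2
    linarith
  have hC3' : 16 * (q : ℝ) ^ 2 ≤ s * j := by
    have h1 : (C3 : ℝ) ≤ j := by exact_mod_cast (by omega : C3 ≤ j)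
    have h2 : 16 * (q : ℝ) ^ 2 / s ≤ j := by linarith
    rw [div_le_iff₀ hs] at h2
    linarith
  refine ⟨F, ?_, ?_⟩
  · refine charging (u := K + (a / q + 1)) (v := K + ((j + 1) / q + 1)) (m := (m0 + 1) / 2) _
      (hu.or hFu) (hv.or hFv) ?_ ?_
    · intro A x0 hA hx0
      have := hF2 A x0 hA hx0
      omega
    · -- numeric inequality
      have e1 : ((a / q : ℕ) : ℝ) ≤ (a : ℝ) / q := Nat.cast_div_le
      have e2 : (((j + 1) / q : ℕ) : ℝ) ≤ ((j : ℝ) + 1) / q := by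
        have := Nat.cast_div_le (α := ℝ) (m := j + 1) (n := q)
        push_cast at this ⊢
        exact this
      have e3 : (m0 : ℝ) ≤ 2 * (((m0 + 1) / 2 : ℕ) : ℝ) := by
        have : m0 ≤ 2 * ((m0 + 1) / 2) := by omega
        exact_mod_cast this
      have goal' : 2 * (((K : ℝ) + ((a / q : ℕ) + 1)) * j + ((K : ℝ) + (((j + 1) / q : ℕ) + 1)) * a)
          ≤ (((m0 + 1) / 2 : ℕ) : ℝ) := by
        have hs24 : 24 ≤ s * q := by
          rw [div_lt_iff₀ hs] at hqs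
          linarith
        have f1 : ((a / q : ℕ) : ℝ) * j ≤ (a : ℝ) * j / q := by
          calc ((a / q : ℕ) : ℝ) * j ≤ (a : ℝ) / q * j := mul_le_mul_of_nonneg_right e1 (by linarith)
            _ = _ := by ring
        have f2 : (((j + 1) / q : ℕ) : ℝ) * a ≤ 2 * ((a : ℝ) * j / q) := by
          calc (((j + 1) / q : ℕ) : ℝ) * a ≤ ((j : ℝ) + 1) / q * a :=
                mul_le_mul_of_nonneg_right e2 ha0.le
            _ ≤ (2 * (j : ℝ)) / q * a := by
                refine mul_le_mul_of_nonneg_right ?_ ha0.le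
                exact div_le_div_of_nonneg_right (by linarith) hqpos.le
            _ = _ := by ring
        have f3 : 24 * ((a : ℝ) * j / q) ≤ s * (a * j) := by
          have : (a : ℝ) * j / q * (s * q) = s * (a * j) := by field_simp
          have h0 : 0 ≤ (a : ℝ) * j / q := by positivity
          nlinarith
        have f4 : 16 * ((K : ℝ) + 1) * a ≤ s * (a * j) := by nlinarith
        have f5 : ((K : ℝ) + 1) * j ≤ ((K : ℝ) + 1) * a :=
          mul_le_mul_of_nonneg_left (by linarith) (by positivity)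
        nlinarith
      have : ((2 * ((K + (a / q + 1)) * j + (K + ((j + 1) / q + 1)) * a) : ℕ) : ℝ)
          ≤ (((m0 + 1) / 2 : ℕ) : ℝ) := by
        push_cast at goal' ⊢
        exact goal'
      exact_mod_cast this
  · intro α hα A x0 hA hx0
    have h1 := hF1 A x0 hA hx0
    have h2 : cnt (fun A x => ¬ R A x ∧ F A x) A x0 ≤ cnt (fun A x => ¬ ext R α A x) A x0 := by
      apply cnt_mono
      rintro p hp ⟨h3, h4⟩ h5
      rcases h5 with h5 | h5
      · exact h3 h5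
      · have h6 := (hα.1 (par A p) (by rw [card_par hp, hA])).2
        apply h6
        right
        rw [← h5]
        exact h4
    have h3 : (m0 : ℝ) < ((8 * q ^ 2 : ℕ) : ℝ) * (((m0 / (8 * q ^ 2) : ℕ) : ℝ) + 1) := by
      have hpos : 0 < 8 * q ^ 2 := by positivity
      have := Nat.lt_mul_div_succ m0 hpos
      exact_mod_cast this
    have h4 : (((m0 / (8 * q ^ 2) : ℕ)) : ℝ) ≤ (cnt (fun A x => ¬ ext R α A x) A x0 : ℝ) := by
      exact_mod_cast h1.trans h2
    refine le_trans ?_ h4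
    have hq2 : (0 : ℝ) < (q : ℝ) ^ 2 := by positivity
    rw [div_mul_eq_mul_div, div_le_iff₀ (by positivity)]
    push_cast at h3
    have h5 : 16 * (q : ℝ) ^ 2 ≤ s * ((a : ℝ) * j) := by
      have : (1 : ℝ) ≤ a := by linarith
      nlinarith
    nlinarith

theorem central_step (s : ℝ) (hs : 0 < s) (K : ℕ) : ∃ s' : ℝ, 0 < s' ∧ ∃ C : ℕ,
    ∀ n j : ℕ, C ≤ j → 2 * j + 1 ≤ n → ∀ Rα Rβ : V n → Fin n → Prop,
      UpDeg j K Rα → DownDeg j K Rα → UpDeg j K Rβ → DownDeg j K Rβ →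
      Par s j Rα → Par s j Rβ → ∀ σ : V n → V n, BijLv (j + 1) σ →
      ∃ α β : V n → Fin n, Valid j Rα α ∧ Valid j Rβ β ∧ Linked j σ α β ∧
        Par s' j (ext Rα α) ∧ Par s' j (ext Rβ β) := by
  obtain ⟨s', hs', C, hC⟩ := side s hs K
  refine ⟨s', hs', C, ?_⟩
  intro n j hj hn Rα Rβ hα1 hα2 hβ1 hβ2 hα3 hβ3 σ hσ
  obtain ⟨Fα, hFα1, hFα2⟩ := hC n j hj hn Rα hα1 hα2 hα3
  obtain ⟨Fβ, hFβ1, hFβ2⟩ := hC n j hj hn Rβ hβ1 hβ2 hβ3
  obtain ⟨α, β, h1, h2, h3⟩ := griggs hn _ _ hFα1 hFβ1 σ hσ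
  exact ⟨α, β, h1.mono fun A x h => Or.inl h, h2.mono fun A x h => Or.inl h, h3, hFα2 α h1,
    hFβ2 β h2⟩

end Pool.Agent.H18.SCD
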