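import Pool.Agent.H18.SCD.T1
import Pool.Agent.H18.SCD.T3
import Pool.Agent.H18.SCD.T4
import Pool.Agent.H18.SCD.T7

set_option autoImplicit false

namespace Pool.Agent.H18.SCD

open Finset

/-- `hexOK G i A x0 p`: in the hexagon through the edge `(A,x0)` given by `p = (x,y) ∈ PP A x0` the other five edges
`f1=(A,x)`, `f2=(A+x-y,y)`, `f3=(A+x-y,x0)`, `f4=(A+x0-y,x)`, `f5=(A+x0-y,y)` are all in `G`, except exactly
`f_i` (no exception if `i = 0`).  Cyclic order of the hexagon: e0,f1,f2,f3,f4,f5. -/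
def hexOK {n : ℕ} (G : V n → Fin n → Prop) (i : ℕ) (A : V n) (x0 : Fin n) (p : Fin n × Fin n) : Prop :=
  (G A p.1 ↔ i ≠ 1) ∧ (G (par A p) p.2 ↔ i ≠ 2) ∧ (G (par A p) x0 ↔ i ≠ 3) ∧
    (G (insert x0 (A.erase p.2)) p.1 ↔ i ≠ 4) ∧ (G (insert x0 (A.erase p.2)) p.2 ↔ i ≠ 5)

noncomputable def hexN {n : ℕ} (G : V n → Fin n → Prop) (i : ℕ) (A : V n) (x0 : Fin n) : ℕ := by
  classical
  exact ((PP A x0).filter fun p => hexOK G i A x0 p).card

/-- number of edges between a set `N` of vertices of level `j+1` and level `j`. -/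
theorem card_lower_edges {n j : ℕ} (N : Finset (V n)) (hN : ∀ A' ∈ N, A'.card = j + 1) :
    ((univ : Finset (V n × Fin n)).filter fun e => e.1.card = j ∧ e.2 ∉ e.1 ∧
      insert e.2 e.1 ∈ N).card = (j + 1) * N.card := by
  classical
  have e1 : ((univ : Finset (V n × Fin n)).filter fun t => t.1 ∈ N ∧ t.2 ∈ t.1).card
      = (j + 1) * N.card := by
    rw [card_pairs (fun A : V n => A ∈ N) (fun A x => x ∈ A)]
    rw [Finset.sum_congr rfl (g := fun _ => j + 1)]
    · simp [Nat.mul_comm]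
    · intro A hA
      have hA' : A ∈ N := by simpa using hA
      rw [← hN A hA']
      congr 1
      ext x; simp
  rw [← e1]
  refine Finset.card_bij (fun e _ => (insert e.2 e.1, e.2)) ?_ ?_ ?_
  · intro e he
    simp only [mem_filter, mem_univ, true_and] at he ⊢
    exact ⟨he.2.2, mem_insert_self _ _⟩
  · rintro ⟨A, x⟩ h1 ⟨A2, x2⟩ h2 h
    simp only [mem_filter, mem_univ, true_and] at h1 h2
    simp only [Prod.mk.injEq] at h
    obtain ⟨h, rfl⟩ := h
    have : A = A2 := by
      rw [← Finset.erase_insert h1.2.1, h, Finset.erase_insert h2.2.1]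
    rw [this]
  · rintro ⟨A', x⟩ h
    simp only [mem_filter, mem_univ, true_and] at h
    refine ⟨(A'.erase x, x), ?_, ?_⟩
    · simp only [mem_filter, mem_univ, true_and]
      refine ⟨?_, by simp, ?_⟩
      · rw [Finset.card_erase_of_mem h.2, hN A' h.1]; rfl
      · rw [Finset.insert_erase h.2]; exact h.1
    · simp only [Finset.insert_erase h.2]

theorem card_upper_edges {n j : ℕ} (B : Finset (V n)) (hB : ∀ A ∈ B, A.card = j) :
    ((univ : Finset (V n × Fin n)).filter fun e => e.1.card = j ∧ e.2 ∉ e.1 ∧ e.1 ∈ B).card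
      = (n - j) * B.card := by
  classical
  have e0 : ((univ : Finset (V n × Fin n)).filter fun e => e.1.card = j ∧ e.2 ∉ e.1 ∧ e.1 ∈ B)
      = (univ.filter fun t : V n × Fin n => t.1 ∈ B ∧ t.2 ∉ t.1) := by
    ext t
    simp only [mem_filter, mem_univ, true_and]
    constructor
    · rintro ⟨_, h2, h3⟩; exact ⟨h3, h2⟩
    · rintro ⟨h3, h2⟩; exact ⟨hB _ h3, h2, h3⟩
  rw [e0, card_pairs (fun A : V n => A ∈ B) (fun A x => x ∉ A)]
  rw [Finset.sum_congr rfl (g := fun _ => n - j)]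
  · simp [Nat.mul_comm]
  · intro A hA
    have hA' : A ∈ B := by simpa using hA
    rw [← hB A hA']
    have : (univ.filter fun x => x ∉ A) = Aᶜ := by ext x; simp
    rw [this, Finset.card_compl, Fintype.card_fin]

/-- a rooted hexagon `((A,x0),(x,y))` -/
abbrev RH (n : ℕ) := (V n × Fin n) × (Fin n × Fin n)

def g1 {n : ℕ} (h : RH n) : V n × Fin n := (h.1.1, h.2.1)
def g2 {n : ℕ} (h : RH n) : V n × Fin n := (par h.1.1 h.2, h.2.2)
def g3 {n : ℕ} (h : RH n) : V n × Fin n := (par h.1.1 h.2, h.1.2)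
def g4 {n : ℕ} (h : RH n) : V n × Fin n := (insert h.1.2 (h.1.1.erase h.2.2), h.2.1)
def g5 {n : ℕ} (h : RH n) : V n × Fin n := (insert h.1.2 (h.1.1.erase h.2.2), h.2.2)

theorem flow_nmp {n j : ℕ} (G : V n → Fin n → Prop) (mlo mhi nlo nhi : ℝ) (hmlo : 0 < mlo)
    (hnlo : 0 ≤ nlo) (h0 : ∀ (A : V n) (x0 : Fin n), A.card = j → x0 ∉ A →
      mlo ≤ (hexN G 0 A x0 : ℝ) ∧ (hexN G 0 A x0 : ℝ) ≤ mhi)
    (h1 : ∀ (A : V n) (x0 : Fin n), A.card = j → x0 ∉ A →
      nlo ≤ (hexN G 1 A x0 : ℝ) ∧ nlo ≤ (hexN G 3 A x0 : ℝ) ∧ nlo ≤ (hexN G 5 A x0 : ℝ))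
    (h2 : ∀ (A : V n) (x0 : Fin n), A.card = j → x0 ∉ A →
      (hexN G 2 A x0 : ℝ) ≤ nhi ∧ (hexN G 4 A x0 : ℝ) ≤ nhi)
    (hnum : 0 ≤ 1 + 3 * nlo / mhi - 2 * nhi / mlo) : NMP j (fun A x => ¬ G A x) := by
  classical
  intro B hB
  set N := Nup (fun A x => ¬ G A x) B with hNdef
  have hNc : ∀ A' ∈ N, A'.card = j + 1 := card_Nup_level hB
  let GE : V n × Fin n → Prop := fun e => G e.1 e.2
  let Ej : Finset (V n × Fin n) := univ.filter fun e => e.1.card = j ∧ e.2 ∉ e.1
  let H : Finset (RH n) := univ.filter fun h => h.1 ∈ Ej ∧ ¬ GE h.1 ∧ h.2 ∈ PP h.1.1 h.1.2 ∧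
    hexOK G 0 h.1.1 h.1.2 h.2
  have hH : ∀ h, h ∈ H ↔ (h.1 ∈ Ej ∧ ¬ GE h.1 ∧ h.2 ∈ PP h.1.1 h.1.2 ∧
    hexOK G 0 h.1.1 h.1.2 h.2) := by intro h; simp [H]
  have hEj : ∀ e, e ∈ Ej ↔ (e.1.card = j ∧ e.2 ∉ e.1) := by intro e; simp [Ej]
  let m : V n × Fin n → ℝ := fun e => (hexN G 0 e.1 e.2 : ℝ)
  have hm : ∀ e ∈ Ej, mlo ≤ m e ∧ m e ≤ mhi := by
    intro e he
    exact h0 e.1 e.2 ((hEj e).1 he).1 ((hEj e).1 he).2
  -- basic facts on a hexagon
  have facts : ∀ h ∈ H, g1 h ∈ Ej ∧ g2 h ∈ Ej ∧ g3 h ∈ Ej ∧ g4 h ∈ Ej ∧ g5 h ∈ Ej ∧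
      GE (g1 h) ∧ GE (g2 h) ∧ GE (g3 h) ∧ GE (g4 h) ∧ GE (g5 h) ∧
      insert (g1 h).2 (g1 h).1 = insert (g2 h).2 (g2 h).1 ∧
      insert (g3 h).2 (g3 h).1 = insert (g4 h).2 (g4 h).1 ∧
      insert (g5 h).2 (g5 h).1 = insert h.1.2 h.1.1 := by
    rintro ⟨⟨A, x0⟩, ⟨x, y⟩⟩ hh
    rw [hH] at hh
    obtain ⟨hE, hG, hP, hOK⟩ := hh
    rw [hEj] at hE
    rw [mem_PP] at hP
    simp only [GE] at hE hG hP
    obtain ⟨hA, hx0⟩ := hE
    obtain ⟨hx, hxx0, hy⟩ := hP
    have hyx0 : y ≠ x0 := fun h => hx0 (h ▸ hy)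
    have hyx : y ≠ x := fun h => hx (h ▸ hy)
    have hAc : (A.erase y).card = j - 1 := by rw [Finset.card_erase_of_mem hy, hA]
    have hjpos : 0 < j := by rw [← hA]; exact Finset.card_pos.2 ⟨y, hy⟩
    have hxe : x ∉ A.erase y := fun h => hx (Finset.mem_of_mem_erase h)
    have hx0e : x0 ∉ A.erase y := fun h => hx0 (Finset.mem_of_mem_erase h)
    have hDc : (insert x (A.erase y)).card = j := by
      rw [Finset.card_insert_of_notMem hxe, hAc]; omega
    have hCc : (insert x0 (A.erase y)).card = j := by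
      rw [Finset.card_insert_of_notMem hx0e, hAc]; omega
    have hyD : y ∉ insert x (A.erase y) := by
      simp only [mem_insert, mem_erase, not_or]
      exact ⟨hyx, fun h => h.1 rfl⟩
    have hyC : y ∉ insert x0 (A.erase y) := by
      simp only [mem_insert, mem_erase, not_or]
      exact ⟨hyx0, fun h => h.1 rfl⟩
    have hx0D : x0 ∉ insert x (A.erase y) := by
      simp only [mem_insert, mem_erase, not_or]
      exact ⟨hxx0.symm, fun h => hx0 h.2⟩
    have hxC : x ∉ insert x0 (A.erase y) := by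
      simp only [mem_insert, mem_erase, not_or]
      exact ⟨hxx0, fun h => hx h.2⟩
    obtain ⟨o1, o2, o3, o4, o5⟩ := hOK
    simp only [hEj, g1, g2, g3, g4, g5, par, GE]
    refine ⟨⟨hA, hx⟩, ⟨hDc, hyD⟩, ⟨hDc, hx0D⟩, ⟨hCc, hxC⟩, ⟨hCc, hyC⟩, o1.2 (by norm_num),
      o2.2 (by norm_num), o3.2 (by norm_num), o4.2 (by norm_num), o5.2 (by norm_num), ?_, ?_, ?_⟩
    · rw [Finset.insert_comm, Finset.insert_erase hy]
    · rw [Finset.insert_comm]
    · rw [Finset.insert_comm, Finset.insert_erase hy]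
  let d : V n × Fin n → V n × Fin n → ℝ := fun z e => if z = e then 1 else 0
  let W : V n × Fin n → ℝ := fun e => 1 + ∑ h ∈ H, (1 / m h.1) *
    (-(d h.1 e) + d (g1 h) e - d (g2 h) e + d (g3 h) e - d (g4 h) e + d (g5 h) e)
  have hcut : ∀ S : Finset (V n × Fin n),
      (∀ h ∈ H, (-(if h.1 ∈ S then (1 : ℝ) else 0) + (if g1 h ∈ S then (1 : ℝ) else 0)
        - (if g2 h ∈ S then (1 : ℝ) else 0) + (if g3 h ∈ S then (1 : ℝ) else 0)
        - (if g4 h ∈ S then (1 : ℝ) else 0) + (if g5 h ∈ S then (1 : ℝ) else 0)) = 0) →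
      ∑ e ∈ S, W e = S.card := by
    intro S hS
    simp only [W]
    rw [Finset.sum_add_distrib, Finset.sum_comm]
    have hz : ∑ h ∈ H, ∑ e ∈ S, (1 / m h.1) *
        (-(d h.1 e) + d (g1 h) e - d (g2 h) e + d (g3 h) e - d (g4 h) e + d (g5 h) e) = 0 := by
      refine Finset.sum_eq_zero fun h hh => ?_
      rw [← Finset.mul_sum]
      have hd : ∀ z : V n × Fin n, ∑ e ∈ S, d z e = if z ∈ S then (1 : ℝ) else 0 := by
        intro z
        simp only [d]
        rw [Finset.sum_ite_eq]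
      have : ∑ e ∈ S, (-(d h.1 e) + d (g1 h) e - d (g2 h) e + d (g3 h) e - d (g4 h) e
          + d (g5 h) e) = 0 := by
        rw [Finset.sum_add_distrib, Finset.sum_sub_distrib, Finset.sum_add_distrib,
          Finset.sum_sub_distrib, Finset.sum_add_distrib, Finset.sum_neg_distrib]
        simp only [hd]
        exact hS h hh
      rw [this, mul_zero]
    rw [hz]
    simp
  -- the two cuts
  let SB : Finset (V n × Fin n) := univ.filter fun e => e.1.card = j ∧ e.2 ∉ e.1 ∧ e.1 ∈ B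
  let TN : Finset (V n × Fin n) := univ.filter fun e => e.1.card = j ∧ e.2 ∉ e.1 ∧
    insert e.2 e.1 ∈ N
  have hSB : ∑ e ∈ SB, W e = ((n - j : ℕ) : ℝ) * B.card := by
    rw [hcut SB]
    · simp only [SB]
      rw [card_upper_edges B hB]
      push_cast
      rfl
    · intro h hh
      obtain ⟨f1, f2, f3, f4, f5, _⟩ := facts h hh
      have hE := ((hH h).1 hh).1
      have a1 : h.1 ∈ SB ↔ g1 h ∈ SB := by
        simp only [SB, mem_filter, mem_univ, true_and]
        rw [hEj] at f1 hE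
        exact ⟨fun hx => ⟨f1.1, f1.2, hx.2.2⟩, fun hx => ⟨hE.1, hE.2, hx.2.2⟩⟩
      have a2 : g2 h ∈ SB ↔ g3 h ∈ SB := by
        simp only [SB, mem_filter, mem_univ, true_and]
        rw [hEj] at f2 f3
        exact ⟨fun hx => ⟨f3.1, f3.2, hx.2.2⟩, fun hx => ⟨f2.1, f2.2, hx.2.2⟩⟩
      have a3 : g4 h ∈ SB ↔ g5 h ∈ SB := by
        simp only [SB, mem_filter, mem_univ, true_and]
        rw [hEj] at f4 f5
        exact ⟨fun hx => ⟨f5.1, f5.2, hx.2.2⟩, fun hx => ⟨f4.1, f4.2, hx.2.2⟩⟩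
      simp only [a1, a2, a3]
      ring
  have hTN : ∑ e ∈ TN, W e = ((j : ℝ) + 1) * N.card := by
    rw [hcut TN]
    · simp only [TN]
      rw [card_lower_edges N hNc]
      push_cast
      rfl
    · intro h hh
      obtain ⟨f1, f2, f3, f4, f5, _, _, _, _, _, u12, u34, u50⟩ := facts h hh
      have hE := ((hH h).1 hh).1
      have a1 : h.1 ∈ TN ↔ g5 h ∈ TN := by
        simp only [TN, mem_filter, mem_univ, true_and]
        rw [hEj] at f5 hE
        rw [u50]
        exact ⟨fun hx => ⟨f5.1, f5.2, hx.2.2⟩, fun hx => ⟨hE.1, hE.2, hx.2.2⟩⟩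
      have a2 : g1 h ∈ TN ↔ g2 h ∈ TN := by
        simp only [TN, mem_filter, mem_univ, true_and]
        rw [hEj] at f1 f2
        rw [u12]
        exact ⟨fun hx => ⟨f2.1, f2.2, hx.2.2⟩, fun hx => ⟨f1.1, f1.2, hx.2.2⟩⟩
      have a3 : g3 h ∈ TN ↔ g4 h ∈ TN := by
        simp only [TN, mem_filter, mem_univ, true_and]
        rw [hEj] at f3 f4
        rw [u34]
        exact ⟨fun hx => ⟨f4.1, f4.2, hx.2.2⟩, fun hx => ⟨f3.1, f3.2, hx.2.2⟩⟩
      simp only [a1, a2, a3]
      ring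
  -- weights vanish outside G
  have hW0 : ∀ e ∈ Ej, ¬ GE e → W e = 0 := by
    intro e he hGe
    have hne : ∀ h ∈ H, (-(d h.1 e) + d (g1 h) e - d (g2 h) e + d (g3 h) e - d (g4 h) e
        + d (g5 h) e) = -(d h.1 e) := by
      intro h hh
      obtain ⟨_, _, _, _, _, q1, q2, q3, q4, q5, _⟩ := facts h hh
      have n1 : g1 h ≠ e := fun hx => hGe (hx ▸ q1)
      have n2 : g2 h ≠ e := fun hx => hGe (hx ▸ q2)
      have n3 : g3 h ≠ e := fun hx => hGe (hx ▸ q3)
      have n4 : g4 h ≠ e := fun hx => hGe (hx ▸ q4)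
      have n5 : g5 h ≠ e := fun hx => hGe (hx ▸ q5)
      simp only [d, n1, n2, n3, n4, n5, if_false]
      ring
    have hsum : ∑ h ∈ H, (1 / m h.1) *
        (-(d h.1 e) + d (g1 h) e - d (g2 h) e + d (g3 h) e - d (g4 h) e + d (g5 h) e) = -1 := by
      rw [Finset.sum_congr rfl fun h hh => by rw [hne h hh]]
      have e1 : ∀ h ∈ H, (1 / m h.1) * -(d h.1 e) = if h.1 = e then -(1 / m e) else 0 := by
        intro h _
        by_cases hx : h.1 = e
        · simp [d, hx]
        · simp [d, hx]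
      rw [Finset.sum_congr rfl e1, ← Finset.sum_filter, Finset.sum_const, nsmul_eq_mul]
      have e2 : (H.filter fun h => h.1 = e).card = hexN G 0 e.1 e.2 := by
        unfold hexN
        refine Finset.card_bij (fun h _ => h.2) ?_ ?_ ?_
        · intro h hh
          rw [mem_filter, hH] at hh
          obtain ⟨⟨_, _, hp, hok⟩, rfl⟩ := hh
          rw [mem_filter]
          exact ⟨hp, hok⟩
        · intro h hh h' hh' hx
          rw [mem_filter] at hh hh'
          exact Prod.ext (hh.2.trans hh'.2.symm) hx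
        · intro p hp
          rw [mem_filter] at hp
          refine ⟨(e, p), ?_, rfl⟩
          rw [mem_filter, hH]
          exact ⟨⟨he, hGe, hp.1, hp.2⟩, rfl⟩
      rw [e2]
      have hpos : 0 < m e := lt_of_lt_of_le hmlo (hm e he).1
      change m e * -(1 / m e) = -1
      field_simp
    simp only [W]
    rw [hsum]
    ring
  -- nonnegativity on G
  have hW1 : ∀ e ∈ Ej, GE e → 0 ≤ W e := by
    intro e he hGe
    obtain ⟨hec, hes⟩ := (hEj e).1 he
    have hne : ∀ h ∈ H, d h.1 e = 0 := by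
      intro h hh
      have : h.1 ≠ e := fun hx => ((hH h).1 hh).2.1 (hx ▸ hGe)
      simp [d, this]
    have hsplit : ∑ h ∈ H, (1 / m h.1) *
        (-(d h.1 e) + d (g1 h) e - d (g2 h) e + d (g3 h) e - d (g4 h) e + d (g5 h) e)
        = (∑ h ∈ H, (1 / m h.1) * d (g1 h) e) - (∑ h ∈ H, (1 / m h.1) * d (g2 h) e)
          + (∑ h ∈ H, (1 / m h.1) * d (g3 h) e) - (∑ h ∈ H, (1 / m h.1) * d (g4 h) e)
          + (∑ h ∈ H, (1 / m h.1) * d (g5 h) e) := by
      rw [← Finset.sum_sub_distrib, ← Finset.sum_add_distrib, ← Finset.sum_sub_distrib,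
        ← Finset.sum_add_distrib]
      refine Finset.sum_congr rfl fun h hh => ?_
      rw [hne h hh]
      ring
    have hmpos : ∀ h ∈ H, 0 < m h.1 := fun h hh =>
      lt_of_lt_of_le hmlo (hm h.1 ((hH h).1 hh).1).1
    have hmhi : 0 < mhi := lt_of_lt_of_le hmlo ((hm e he).1.trans (hm e he).2)
    have hlow : ∀ (g : RH n → V n × Fin n) (c : ℝ), (c ≤ ((H.filter fun h => g h = e).card : ℝ)) →
        c / mhi ≤ ∑ h ∈ H, (1 / m h.1) * d (g h) e := by
      intro g c hc
      calc c / mhi ≤ ((H.filter fun h => g h = e).card : ℝ) / mhi :=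
            div_le_div_of_nonneg_right hc hmhi.le
        _ = ∑ h ∈ H.filter (fun h => g h = e), (1 / mhi) := by
            rw [Finset.sum_const, nsmul_eq_mul]; ring
        _ ≤ ∑ h ∈ H.filter (fun h => g h = e), (1 / m h.1) := by
            refine Finset.sum_le_sum fun h hh => ?_
            rw [mem_filter] at hh
            exact one_div_le_one_div_of_le (hmpos h hh.1) (hm h.1 ((hH h).1 hh.1).1).2
        _ = ∑ h ∈ H, (1 / m h.1) * d (g h) e := by
            rw [Finset.sum_filter]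
            refine Finset.sum_congr rfl fun h _ => ?_
            by_cases hx : g h = e
            · simp [d, hx]
            · simp [d, hx]
    have hhigh : ∀ (g : RH n → V n × Fin n) (c : ℝ),
        (((H.filter fun h => g h = e).card : ℝ) ≤ c) →
        ∑ h ∈ H, (1 / m h.1) * d (g h) e ≤ c / mlo := by
      intro g c hc
      calc ∑ h ∈ H, (1 / m h.1) * d (g h) e
          = ∑ h ∈ H.filter (fun h => g h = e), (1 / m h.1) := by
            rw [Finset.sum_filter (s := H) (fun h => g h = e)]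
            refine Finset.sum_congr rfl fun h _ => ?_
            by_cases hx : g h = e
            · simp [d, hx]
            · simp [d, hx]
        _ ≤ ∑ h ∈ H.filter (fun h => g h = e), (1 / mlo) := by
            refine Finset.sum_le_sum fun h hh => ?_
            rw [mem_filter] at hh
            exact one_div_le_one_div_of_le hmlo (hm h.1 ((hH h).1 hh.1).1).1
        _ = ((H.filter fun h => g h = e).card : ℝ) / mlo := by
            rw [Finset.sum_const, nsmul_eq_mul]; ring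
        _ ≤ c / mlo := div_le_div_of_nonneg_right hc hmlo.le
    -- rerooting
    obtain ⟨A, x0⟩ := e
    simp only at hec hes
    have hGe' : G A x0 := hGe
    -- common facts for p = (x,y) in PP A x0
    have base : ∀ x y : Fin n, (x, y) ∈ PP A x0 →
        x ∉ A ∧ x ≠ x0 ∧ y ∈ A ∧ y ≠ x0 ∧ y ≠ x ∧ (insert x (A.erase y)).card = j ∧
        (insert x0 (A.erase y)).card = j ∧ y ∉ insert x (A.erase y) ∧
        y ∉ insert x0 (A.erase y) ∧ x0 ∉ insert x (A.erase y) ∧ x ∉ insert x0 (A.erase y) ∧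
        (insert x (A.erase y)).erase x = A.erase y ∧
        (insert x0 (A.erase y)).erase x0 = A.erase y ∧ insert y (A.erase y) = A := by
      intro x y hp
      rw [mem_PP] at hp
      simp only at hp
      obtain ⟨hx, hxx0, hy⟩ := hp
      have hyx0 : y ≠ x0 := fun h => hes (h ▸ hy)
      have hyx : y ≠ x := fun h => hx (h ▸ hy)
      have hAc : (A.erase y).card = j - 1 := by rw [Finset.card_erase_of_mem hy, hec]
      have hjpos : 0 < j := by rw [← hec]; exact Finset.card_pos.2 ⟨y, hy⟩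
      have hxe : x ∉ A.erase y := fun h => hx (Finset.mem_of_mem_erase h)
      have hx0e : x0 ∉ A.erase y := fun h => hes (Finset.mem_of_mem_erase h)
      refine ⟨hx, hxx0, hy, hyx0, hyx, ?_, ?_, ?_, ?_, ?_, ?_, Finset.erase_insert hxe,
        Finset.erase_insert hx0e, Finset.insert_erase hy⟩
      · rw [Finset.card_insert_of_notMem hxe, hAc]; omega
      · rw [Finset.card_insert_of_notMem hx0e, hAc]; omega
      · simp only [mem_insert, mem_erase, not_or]
        exact ⟨hyx, fun h => h.1 rfl⟩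
      · simp only [mem_insert, mem_erase, not_or]
        exact ⟨hyx0, fun h => h.1 rfl⟩
      · simp only [mem_insert, mem_erase, not_or]
        exact ⟨hxx0.symm, fun h => hes h.2⟩
      · simp only [mem_insert, mem_erase, not_or]
        exact ⟨hxx0, fun h => hx h.2⟩
    have k1 : hexN G 1 A x0 ≤ (H.filter fun h => g1 h = (A, x0)).card := by
      unfold hexN
      refine Finset.card_le_card_of_injOn (fun p => ((A, p.1), (x0, p.2))) ?_ ?_
      · rintro ⟨x, y⟩ hp
        rw [Finset.mem_coe, mem_filter] at hp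
        obtain ⟨hp, o1, o2, o3, o4, o5⟩ := hp
        obtain ⟨b1, b2, b3, b4, b5, b6, b7, b8, b9, b10, b11, b12, b13, b14⟩ := base x y hp
        simp only [par] at o1 o2 o3 o4 o5
        rw [Finset.mem_coe, mem_filter, hH, hEj, mem_PP]
        simp only [hexOK, par, GE, g1]
        refine ⟨⟨⟨hec, b1⟩, fun h => (o1.1 h) rfl, ⟨hes, b2.symm, b3⟩, ?_, ?_, ?_, ?_, ?_⟩, ?_⟩
        · simp [hGe']
        · simpa using o5.2 (by norm_num)
        · simpa using o4.2 (by norm_num)
        · simpa using o3.2 (by norm_num)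
        · simpa using o2.2 (by norm_num)
        · trivial
      · rintro ⟨x, y⟩ _ ⟨x', y'⟩ _ h
        simp only [Prod.mk.injEq] at h
        simp only [Prod.mk.injEq]
        exact ⟨h.1.2, h.2.2⟩
    have k3 : hexN G 3 A x0 ≤ (H.filter fun h => g3 h = (A, x0)).card := by
      unfold hexN
      refine Finset.card_le_card_of_injOn (fun p => ((par A p, x0), (p.2, p.1))) ?_ ?_
      · rintro ⟨x, y⟩ hp
        rw [Finset.mem_coe, mem_filter] at hp
        obtain ⟨hp, o1, o2, o3, o4, o5⟩ := hp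
        obtain ⟨b1, b2, b3, b4, b5, b6, b7, b8, b9, b10, b11, b12, b13, b14⟩ := base x y hp
        simp only [par] at o1 o2 o3 o4 o5
        rw [Finset.mem_coe, mem_filter, hH, hEj, mem_PP]
        simp only [hexOK, par, GE, g3, b12, b14]
        refine ⟨⟨⟨b6, b10⟩, fun h => (o3.1 h) rfl, ⟨b8, b4, mem_insert_self _ _⟩, ?_, ?_, ?_, ?_,
          ?_⟩, ?_⟩
        · simpa using o2.2 (by norm_num)
        · simpa using o1.2 (by norm_num)
        · simp [hGe']
        · simpa using o5.2 (by norm_num)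
        · simpa using o4.2 (by norm_num)
        · trivial
      · rintro ⟨x, y⟩ _ ⟨x', y'⟩ _ h
        simp only [Prod.mk.injEq] at h
        simp only [Prod.mk.injEq]
        exact ⟨h.2.2, h.2.1⟩
    have k5 : hexN G 5 A x0 ≤ (H.filter fun h => g5 h = (A, x0)).card := by
      unfold hexN
      refine Finset.card_le_card_of_injOn
        (fun p => ((insert x0 (A.erase p.2), p.2), (p.1, x0))) ?_ ?_
      · rintro ⟨x, y⟩ hp
        rw [Finset.mem_coe, mem_filter] at hp
        obtain ⟨hp, o1, o2, o3, o4, o5⟩ := hp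
        obtain ⟨b1, b2, b3, b4, b5, b6, b7, b8, b9, b10, b11, b12, b13, b14⟩ := base x y hp
        simp only [par] at o1 o2 o3 o4 o5
        rw [Finset.mem_coe, mem_filter, hH, hEj, mem_PP]
        simp only [hexOK, par, GE, g5, b13, b14]
        refine ⟨⟨⟨b7, b9⟩, fun h => (o5.1 h) rfl, ⟨b11, b5.symm, mem_insert_self _ _⟩, ?_, ?_, ?_,
          ?_, ?_⟩, ?_⟩
        · simpa using o4.2 (by norm_num)
        · simpa using o3.2 (by norm_num)
        · simpa using o2.2 (by norm_num)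
        · simpa using o1.2 (by norm_num)
        · simp [hGe']
        · trivial
      · rintro ⟨x, y⟩ _ ⟨x', y'⟩ _ h
        simp only [Prod.mk.injEq] at h
        simp only [Prod.mk.injEq]
        exact ⟨h.2.1, h.1.2⟩
    have k2 : (H.filter fun h => g2 h = (A, x0)).card ≤ hexN G 4 A x0 := by
      unfold hexN
      refine Finset.card_le_card_of_injOn (fun h => (h.1.2, h.2.1)) ?_ ?_
      · rintro ⟨⟨A1, x1⟩, ⟨x, y⟩⟩ hh
        rw [Finset.mem_coe, mem_filter, hH, hEj, mem_PP] at hh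
        obtain ⟨⟨⟨hA1, hx1⟩, hG1, ⟨hx, hxx1, hy⟩, o1, o2, o3, o4, o5⟩, hg⟩ := hh
        simp only [GE, g2, par, Prod.mk.injEq] at *
        obtain ⟨hD, hyx0⟩ := hg
        have hyx1 : y ≠ x1 := fun h => hx1 (h ▸ hy)
        have hyx : y ≠ x := fun h => hx (h ▸ hy)
        have hxe : x ∉ A1.erase y := fun h => hx (Finset.mem_of_mem_erase h)
        have c1 : (insert x (A1.erase y)).erase x = A1.erase y := Finset.erase_insert hxe
        have c2 : insert y (A1.erase y) = A1 := Finset.insert_erase hy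
        subst hyx0
        rw [Finset.mem_coe, mem_filter, mem_PP]
        simp only [hexOK, par]
        rw [← hD, c1, c2]
        refine ⟨⟨?_, hyx1.symm, mem_insert_self _ _⟩, ?_, ?_, ?_, ?_, ?_⟩
        · simp only [mem_insert, mem_erase, not_or]
          exact ⟨hxx1.symm, fun h => hx1 h.2⟩
        · simpa using o3.2 (by norm_num)
        · simpa using o4.2 (by norm_num)
        · simpa using o5.2 (by norm_num)
        · simpa using hG1
        · simpa using o1.2 (by norm_num)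
      · rintro ⟨⟨A1, x1⟩, ⟨x, y⟩⟩ hh ⟨⟨A2, x2⟩, ⟨x', y'⟩⟩ hh' h
        rw [Finset.mem_coe, mem_filter, hH, hEj, mem_PP] at hh hh'
        obtain ⟨⟨⟨hA1, hx1⟩, hG1, ⟨hx, hxx1, hy⟩, _⟩, hg⟩ := hh
        obtain ⟨⟨⟨hA2, hx2⟩, hG2, ⟨hx', hxx2, hy'⟩, _⟩, hg'⟩ := hh'
        simp only [GE, g2, par, Prod.mk.injEq] at *
        obtain ⟨rfl, rfl⟩ := h
        obtain ⟨hD, rfl⟩ := hg
        obtain ⟨hD', rfl⟩ := hg'
        have hxe : x ∉ A1.erase y' := fun h => hx (Finset.mem_of_mem_erase h)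
        have hxe' : x ∉ A2.erase y' := fun h => hx' (Finset.mem_of_mem_erase h)
        have c1 : A1 = insert y' (A.erase x) := by
          rw [← hD, Finset.erase_insert hxe, Finset.insert_erase hy]
        have c2 : A2 = insert y' (A.erase x) := by
          rw [← hD', Finset.erase_insert hxe', Finset.insert_erase hy']
        exact ⟨⟨c1.trans c2.symm, rfl⟩, rfl, rfl⟩
    have k4 : (H.filter fun h => g4 h = (A, x0)).card ≤ hexN G 2 A x0 := by
      unfold hexN
      refine Finset.card_le_card_of_injOn (fun h => (h.2.2, h.1.2)) ?_ ?_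
      · rintro ⟨⟨A1, x1⟩, ⟨x, y⟩⟩ hh
        rw [Finset.mem_coe, mem_filter, hH, hEj, mem_PP] at hh
        obtain ⟨⟨⟨hA1, hx1⟩, hG1, ⟨hx, hxx1, hy⟩, o1, o2, o3, o4, o5⟩, hg⟩ := hh
        simp only [GE, g4, par, Prod.mk.injEq] at *
        obtain ⟨hD, hxx0⟩ := hg
        have hyx1 : y ≠ x1 := fun h => hx1 (h ▸ hy)
        have hyx : y ≠ x := fun h => hx (h ▸ hy)
        have hx1e : x1 ∉ A1.erase y := fun h => hx1 (Finset.mem_of_mem_erase h)
        have c1 : (insert x1 (A1.erase y)).erase x1 = A1.erase y := Finset.erase_insert hx1e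
        have c2 : insert y (A1.erase y) = A1 := Finset.insert_erase hy
        subst hxx0
        rw [Finset.mem_coe, mem_filter, mem_PP]
        simp only [hexOK, par]
        rw [← hD, c1, c2]
        refine ⟨⟨?_, hyx, mem_insert_self _ _⟩, ?_, ?_, ?_, ?_, ?_⟩
        · simp only [mem_insert, mem_erase, not_or]
          exact ⟨hyx1, fun h => h.1 rfl⟩
        · simpa using o5.2 (by norm_num)
        · simpa using hG1
        · simpa using o1.2 (by norm_num)
        · simpa using o2.2 (by norm_num)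
        · simpa using o3.2 (by norm_num)
      · rintro ⟨⟨A1, x1⟩, ⟨x, y⟩⟩ hh ⟨⟨A2, x2⟩, ⟨x', y'⟩⟩ hh' h
        rw [Finset.mem_coe, mem_filter, hH, hEj, mem_PP] at hh hh'
        obtain ⟨⟨⟨hA1, hx1⟩, hG1, ⟨hx, hxx1, hy⟩, _⟩, hg⟩ := hh
        obtain ⟨⟨⟨hA2, hx2⟩, hG2, ⟨hx', hxx2, hy'⟩, _⟩, hg'⟩ := hh'
        simp only [GE, g4, par, Prod.mk.injEq] at *
        obtain ⟨rfl, rfl⟩ := h
        obtain ⟨hD, rfl⟩ := hg
        obtain ⟨hD', rfl⟩ := hg'
        have hxe : x1 ∉ A1.erase y := fun h => hx1 (Finset.mem_of_mem_erase h)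
        have hxe' : x1 ∉ A2.erase y := fun h => hx2 (Finset.mem_of_mem_erase h)
        have c1 : A1 = insert y (A.erase x1) := by
          rw [← hD, Finset.erase_insert hxe, Finset.insert_erase hy]
        have c2 : A2 = insert y (A.erase x1) := by
          rw [← hD', Finset.erase_insert hxe', Finset.insert_erase hy']
        exact ⟨⟨c1.trans c2.symm, rfl⟩, rfl, rfl⟩
    have l1 := hlow g1 nlo ((h1 A x0 hec hes).1.trans (by exact_mod_cast k1))
    have l3 := hlow g3 nlo ((h1 A x0 hec hes).2.1.trans (by exact_mod_cast k3))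
    have l5 := hlow g5 nlo ((h1 A x0 hec hes).2.2.trans (by exact_mod_cast k5))
    have l2 := hhigh g2 nhi (le_trans (by exact_mod_cast k2) (h2 A x0 hec hes).2)
    have l4 := hhigh g4 nhi (le_trans (by exact_mod_cast k4) (h2 A x0 hec hes).1)
    simp only [W]
    rw [hsplit]
    have e1 : 3 * nlo / mhi = nlo / mhi + nlo / mhi + nlo / mhi := by ring
    have e2 : 2 * nhi / mlo = nhi / mlo + nhi / mlo := by ring
    rw [e1, e2] at hnum
    linarith
  -- conclusion
  have hle : ∑ e ∈ SB, W e ≤ ∑ e ∈ TN, W e := by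
    have hsub : SB.filter GE ⊆ TN := by
      intro e he
      simp only [SB, TN, mem_filter, mem_univ, true_and] at he ⊢
      obtain ⟨⟨ha, hb, hc⟩, hGe⟩ := he
      refine ⟨ha, hb, ?_⟩
      rw [hNdef, mem_Nup]
      refine ⟨e.2, mem_insert_self _ _, ?_, ?_⟩
      · rw [Finset.erase_insert hb]; exact hc
      · rw [Finset.erase_insert hb]
        exact fun h => h hGe
    have hWnn : ∀ e ∈ TN, 0 ≤ W e := by
      intro e he
      simp only [TN, mem_filter, mem_univ, true_and] at he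
      have heE : e ∈ Ej := (hEj e).2 ⟨he.1, he.2.1⟩
      by_cases hGe : GE e
      · exact hW1 e heE hGe
      · exact (hW0 e heE hGe).ge
    calc ∑ e ∈ SB, W e = ∑ e ∈ SB.filter GE, W e := by
          rw [Finset.sum_filter (s := SB) GE]
          refine Finset.sum_congr rfl fun e he => ?_
          by_cases hGe : GE e
          · rw [if_pos hGe]
          · rw [if_neg hGe]
            simp only [SB, mem_filter, mem_univ, true_and] at he
            exact hW0 e ((hEj e).2 ⟨he.1, he.2.1⟩) hGe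
      _ ≤ ∑ e ∈ TN, W e :=
          Finset.sum_le_sum_of_subset_of_nonneg hsub fun e he _ => hWnn e he
  rw [hSB, hTN] at hle
  exact_mod_cast hle

end Pool.Agent.H18.SCD
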