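import Pool.Agent.H18.SCD.T5q
import Pool.Agent.H18.SCD.T6

set_option autoImplicit false

namespace Pool.Agent.H18.SCD

open Finset

/-- fewer colours are easier -/
theorem Stage.mono {k k' n j : ℕ} (hk : k ≤ k') (hk0 : 0 < k) (h : Stage k' n j) :
    Stage k n j := by
  classical
  intro σ hσ
  obtain ⟨c0⟩ : Nonempty (Fin k) := ⟨⟨0, hk0⟩⟩
  obtain ⟨α, β, h1, h2, h3, h4⟩ := h
    (fun c => if h : (c : ℕ) < k then σ ⟨c, h⟩ else σ c0) (by
      intro c
      split_ifs with h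
      · exact hσ _
      · exact hσ _)
  refine ⟨fun c => α (Fin.castLE hk c), fun c => β (Fin.castLE hk c), fun c => h1 _,
    fun c => h2 _, ?_, ?_⟩
  · intro c
    have h5 := h3 (Fin.castLE hk c)
    have h6 : ((Fin.castLE hk c : Fin k') : ℕ) < k := c.2
    rw [dif_pos h6] at h5
    exact h5
  · intro c c' hcc A hA
    exact h4 _ _ (fun he => hcc (Fin.castLE_injective hk he)) A hA

theorem Stage.zero (n j : ℕ) : Stage 0 n j :=
  fun _ _ => ⟨fun c => c.elim0, fun c => c.elim0, fun c => c.elim0, fun c => c.elim0,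
    fun c => c.elim0, fun c => c.elim0⟩

/-- the central range, for at least two colours -/
def CentralQuant : Prop :=
  ∃ C : ℕ, ∀ k n j : ℕ, 2 ≤ k → C * k * (Nat.log 2 n + 1) ≤ j → 2 * k ^ 4 + 1 ≤ n →
    2 * j + 1 ≤ n → Stage k n j

/-- all the stages together -/
theorem all_stages_quant (hc : CentralQuant) : ∃ C : ℕ, 0 < C ∧ ∀ k n : ℕ,
    C * k ^ 5 * (Nat.log 2 n + 1) ^ 4 ≤ n → ∀ j : ℕ, 2 * j + 1 ≤ n → Stage k n j := by
  obtain ⟨C0, hC0⟩ := hc
  obtain ⟨C1, hC1⟩ : ∃ C1 : ℕ, C1 = C0 + 1 := ⟨_, rfl⟩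
  have key : ∀ k n : ℕ, 2 ≤ k → (1000 * C1 ^ 3) * k ^ 5 * (Nat.log 2 n + 1) ^ 4 ≤ n →
      ∀ j : ℕ, 2 * j + 1 ≤ n → Stage k n j := by
    intro k n hk hn j hj
    obtain ⟨L, hL⟩ : ∃ L : ℕ, L = Nat.log 2 n + 1 := ⟨_, rfl⟩
    rw [← hL] at hn
    have hL1 : 1 ≤ L := by omega
    have hC11 : 1 ≤ C1 := by omega
    by_cases hcase : C0 * k * L ≤ j
    · apply hC0 k n j hk (by rw [← hL]; exact hcase) _ hj
      have h1 : 1 ≤ C1 ^ 3 := Nat.one_le_pow _ _ hC11
      have h2 : 1 ≤ L ^ 4 := Nat.one_le_pow _ _ hL1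
      have h3 : 1 ≤ k ^ 4 := Nat.one_le_pow _ _ (by omega)
      have h4 : 3 * k ^ 4 ≤ (1000 * C1 ^ 3) * k ^ 5 * L ^ 4 := by
        calc 3 * k ^ 4 = 3 * 1 * k ^ 4 * 1 := by ring
          _ ≤ (1000 * C1 ^ 3) * k ^ 5 * L ^ 4 := by
            apply Nat.mul_le_mul _ h2
            apply Nat.mul_le_mul
            · apply Nat.mul_le_mul (by norm_num) h1
            · exact Nat.pow_le_pow_right (by omega) (by norm_num)
      omega
    · have hj1 : j + 1 ≤ C1 * k * L := by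
        have : C0 * k * L ≤ C1 * k * L := by
          apply Nat.mul_le_mul_right
          apply Nat.mul_le_mul_right
          omega
        omega
      apply low_quant k j n (by omega)
      rw [← hL]
      calc 1000 * k ^ 2 * (j + 1) ^ 3 * L ≤ 1000 * k ^ 2 * (C1 * k * L) ^ 3 * L := by
            apply Nat.mul_le_mul_right
            apply Nat.mul_le_mul_left
            exact Nat.pow_le_pow_left hj1 3
        _ = (1000 * C1 ^ 3) * k ^ 5 * L ^ 4 := by ring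
        _ ≤ n := hn
  have hpos : 0 < 32 * (1000 * C1 ^ 3) :=
    Nat.mul_pos (by norm_num) (Nat.mul_pos (by norm_num) (pow_pos (by omega) 3))
  refine ⟨32 * (1000 * C1 ^ 3), hpos, fun k n hn j hj => ?_⟩
  rcases Nat.eq_zero_or_pos k with rfl | hk0
  · exact Stage.zero n j
  · rcases Nat.lt_or_ge k 2 with hk | hk
    · have hk1 : k = 1 := by omega
      subst hk1
      apply Stage.mono (k' := 2) (by norm_num) (by norm_num)
      apply key 2 n le_rfl _ j hj
      refine le_trans (le_of_eq ?_) hn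
      ring
    · apply key k n hk _ j hj
      refine le_trans ?_ hn
      apply Nat.mul_le_mul_right
      apply Nat.mul_le_mul_right
      omega

/-- **Quantitative theorem**: `k` pairwise edge-disjoint symmetric chain decompositions for all
`k` with `C k ^ 5 (log n) ^ 4 ≤ n`. -/
theorem main_quant (hc : CentralQuant) : ∃ C : ℕ, 0 < C ∧ ∀ k n : ℕ,
    C * k ^ 5 * (Nat.log 2 n + 1) ^ 4 ≤ n →
    ∃ D : Fin k → Set (Set (Finset (Fin n))), (∀ i, IsSCD n (D i)) ∧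
      ∀ i j : Fin k, i ≠ j → ∀ A B : Finset (Fin n),
        ¬ (UsesEdge n (D i) A B ∧ UsesEdge n (D j) A B) := by
  obtain ⟨C, hC, h⟩ := all_stages_quant hc
  exact ⟨C, hC, fun k n hn => assemble (h k n hn)⟩

/-- an elementary comparison of powers of logarithms and powers -/
theorem log_pow_le (C a : ℕ) : ∃ N : ℕ, ∀ n : ℕ, N ≤ n → C * (Nat.log 2 n + 1) ^ a ≤ n := by
  have hlim := tendsto_pow_const_div_const_pow_of_one_lt a (one_lt_two : (1 : ℝ) < 2)
  have hδ : (0 : ℝ) < 1 / (2 * ((C : ℝ) + 1)) := by positivity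
  obtain ⟨K, hK⟩ := Filter.eventually_atTop.1 (hlim.eventually_lt_const hδ)
  refine ⟨2 ^ (K + 1), fun n hn => ?_⟩
  have hn0 : n ≠ 0 := by
    have : 0 < 2 ^ (K + 1) := by positivity
    omega
  have hm : K + 1 ≤ Nat.log 2 n := Nat.le_log_of_pow_le (by norm_num) hn
  have h1 := hK (Nat.log 2 n + 1) (by omega)
  have h2 : (2 : ℝ) ^ (Nat.log 2 n + 1) ≤ 2 * n := by
    have := Nat.pow_log_le_self 2 hn0
    have h3 : (2 : ℝ) ^ (Nat.log 2 n) ≤ n := by exact_mod_cast this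
    rw [pow_succ]
    linarith
  have h4 : (0 : ℝ) < 2 ^ (Nat.log 2 n + 1) := by positivity
  rw [div_lt_iff₀ h4] at h1
  push_cast at h1
  have h5 : (C : ℝ) * ((Nat.log 2 n : ℝ) + 1) ^ a ≤ n := by
    have h6 : 0 ≤ ((Nat.log 2 n : ℝ) + 1) ^ a := by positivity
    have h7 : ((Nat.log 2 n : ℝ) + 1) ^ a ≤ 1 / (2 * ((C : ℝ) + 1)) * (2 * n) :=
      h1.le.trans (mul_le_mul_of_nonneg_left h2 hδ.le)
    have h8 : ((C : ℝ) + 1) * (1 / (2 * ((C : ℝ) + 1)) * (2 * n)) = n := by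
      field_simp
    have h9 : ((C : ℝ) + 1) * ((Nat.log 2 n : ℝ) + 1) ^ a ≤ n := by
      rw [← h8]
      exact mul_le_mul_of_nonneg_left h7 (by positivity)
    nlinarith
  exact_mod_cast h5

/-- corollary: every exponent `t / (5 t + 1)`, that is, every exponent below `1/5`; `t = 1` is the
exponent `1/6`. -/
theorem main_quant_power (hc : CentralQuant) (t : ℕ) : ∃ N : ℕ, ∀ k n : ℕ, N ≤ n →
    k ^ (5 * t + 1) ≤ n ^ t →
    ∃ D : Fin k → Set (Set (Finset (Fin n))), (∀ i, IsSCD n (D i)) ∧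
      ∀ i j : Fin k, i ≠ j → ∀ A B : Finset (Fin n),
        ¬ (UsesEdge n (D i) A B ∧ UsesEdge n (D j) A B) := by
  obtain ⟨C, hC, h⟩ := main_quant hc
  obtain ⟨N, hN⟩ := log_pow_le (C ^ (5 * t + 1)) (4 * (5 * t + 1))
  refine ⟨N, fun k n hn hk => h k n ?_⟩
  have h1 := hN n hn
  have h2 : (C * k ^ 5 * (Nat.log 2 n + 1) ^ 4) ^ (5 * t + 1) ≤ n ^ (5 * t + 1) := by
    calc (C * k ^ 5 * (Nat.log 2 n + 1) ^ 4) ^ (5 * t + 1)
        = (C ^ (5 * t + 1) * (Nat.log 2 n + 1) ^ (4 * (5 * t + 1))) *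
            (k ^ (5 * t + 1)) ^ 5 := by
          rw [mul_pow, mul_pow, ← pow_mul, ← pow_mul, ← pow_mul, mul_comm 5 (5 * t + 1)]
          ring
      _ ≤ n * (n ^ t) ^ 5 := Nat.mul_le_mul h1 (Nat.pow_le_pow_left hk 5)
      _ = n ^ (5 * t + 1) := by
          rw [← pow_mul, pow_succ, mul_comm t 5, mul_comm]
  exact (Nat.pow_le_pow_iff_left (by omega)).1 h2

end Pool.Agent.H18.SCD
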