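import Pool.Agent.H18.SCD.Basic

set_option autoImplicit false

namespace Pool.Agent.H18.SCD

open Finset

theorem card_pairs {α β : Type} [Fintype α] [Fintype β] [DecidableEq α] [DecidableEq β]
    (P : α → Prop) (Q : α → β → Prop) [DecidablePred P] [∀ a, DecidablePred (Q a)] :
    ((univ : Finset (α × β)).filter fun t => P t.1 ∧ Q t.1 t.2).card
      = ∑ a ∈ univ.filter P, (univ.filter (Q a)).card := by
  rw [Finset.card_filter, Fintype.sum_prod_type, Finset.sum_filter]
  refine Finset.sum_congr rfl fun a _ => ?_
  by_cases h : P a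
  · rw [if_pos h, Finset.card_filter]
    refine Finset.sum_congr rfl fun b _ => ?_
    by_cases h2 : Q a b <;> simp [h, h2]
  · rw [if_neg h]
    refine Finset.sum_eq_zero fun b _ => ?_
    simp [h]

theorem charging_aux {n j u v m : ℕ} (R : V n → Fin n → Prop)
    (hu : UpDeg j u R) (hv : DownDeg j v R)
    (hm : ∀ (A : V n) (x0 : Fin n), A.card = j → x0 ∉ A → m ≤ cnt (fun A x => ¬ R A x) A x0)
    (B : Finset (V n)) (hB : ∀ A ∈ B, A.card = j)
    (E1 E2 : Finset (V n × Fin n))
    (hE1 : ∀ t, t ∈ E1 ↔ t.1 ∈ B ∧ t.2 ∉ t.1 ∧ insert t.2 t.1 ∉ Nup R B)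
    (hE2 : ∀ t, t ∈ E2 ↔ t.1 ∈ Nup R B ∧ t.2 ∈ t.1 ∧ t.1.erase t.2 ∉ B) :
    (m - (u * j + v * (n - j))) * E1.card ≤ (j * u + (n - j) * v) * E2.card := by
  classical
  let T : Finset ((V n × Fin n) × (Fin n × Fin n)) := univ.filter fun t =>
    t.1 ∈ E1 ∧ t.2 ∈ PP t.1.1 t.1.2 ∧ ¬ R t.1.1 t.2.1 ∧
      ¬ R ((insert t.1.2 t.1.1).erase t.2.2) t.2.2 ∧ ¬ R (par t.1.1 t.2) t.1.2
  have hlow : (m - (u * j + v * (n - j))) * E1.card ≤ T.card := by
    refine Finset.mul_card_image_le_card_of_maps_to (f := Prod.fst) (s := T) (t := E1) ?_ _ ?_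
    · intro t ht
      simp only [T, mem_filter, mem_univ, true_and] at ht
      exact ht.1
    · rintro ⟨A, x0⟩ hA
      have hA' := (hE1 _).1 hA
      simp only at hA'
      obtain ⟨hAB, hx0, hN⟩ := hA'
      have hAc := hB A hAB
      have h1 := hm A x0 hAc hx0
      have hbad1 : ((PP A x0).filter fun p => R A p.1).card ≤ u * j := by
        calc ((PP A x0).filter fun p => R A p.1).card
            ≤ ((univ.filter fun x => x ∉ A ∧ R A x) ×ˢ A).card := by
              apply Finset.card_le_card
              intro p hp
              simp only [mem_filter, mem_PP, mem_product, mem_univ, true_and] at hp ⊢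
              exact ⟨⟨hp.1.1, hp.2⟩, hp.1.2.2⟩
          _ = (univ.filter fun x => x ∉ A ∧ R A x).card * A.card := Finset.card_product _ _
          _ ≤ u * j := by
              rw [hAc]
              exact Nat.mul_le_mul_right _ (hu A hAc _ (by simp))
      have hbad2 : ((PP A x0).filter fun p => R ((insert x0 A).erase p.2) p.2).card
          ≤ v * (n - j) := by
        calc ((PP A x0).filter fun p => R ((insert x0 A).erase p.2) p.2).card
            ≤ (Aᶜ ×ˢ ((insert x0 A).filter fun y => R ((insert x0 A).erase y) y)).card := by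
              apply Finset.card_le_card
              intro p hp
              simp only [mem_filter, mem_PP, mem_product, mem_compl, mem_insert] at hp ⊢
              exact ⟨hp.1.1, Or.inr hp.1.2.2, hp.2⟩
          _ = (Aᶜ).card * ((insert x0 A).filter fun y => R ((insert x0 A).erase y) y).card :=
              Finset.card_product _ _
          _ ≤ (n - j) * v := by
              refine Nat.mul_le_mul ?_ ?_
              · rw [Finset.card_compl, hAc, Fintype.card_fin]
              · refine hv (insert x0 A) ?_ _ ?_
                · rw [Finset.card_insert_of_notMem hx0, hAc]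
                · intro x hx
                  simpa using hx
          _ = v * (n - j) := Nat.mul_comm _ _
      let good := (PP A x0).filter fun p => ¬ R A p.1 ∧ ¬ R ((insert x0 A).erase p.2) p.2 ∧
        ¬ R (par A p) x0
      have hcover : cnt (fun A x => ¬ R A x) A x0 ≤ good.card + u * j + v * (n - j) := by
        have : ((PP A x0).filter fun p => ¬ R (par A p) x0) ⊆
            (good ∪ ((PP A x0).filter fun p => R A p.1)) ∪
              ((PP A x0).filter fun p => R ((insert x0 A).erase p.2) p.2) := by
          intro p hp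
          simp only [good, mem_union, mem_filter] at hp ⊢
          tauto
        have h2 := Finset.card_le_card this
        have h3 := Finset.card_union_le (good ∪ ((PP A x0).filter fun p => R A p.1))
          ((PP A x0).filter fun p => R ((insert x0 A).erase p.2) p.2)
        have h4 := Finset.card_union_le good ((PP A x0).filter fun p => R A p.1)
        have h5 : cnt (fun A x => ¬ R A x) A x0
            = ((PP A x0).filter fun p => ¬ R (par A p) x0).card := by
          unfold cnt
          congr!
        omega
      have hgood : good.card ≤ (T.filter fun t => t.1 = (A, x0)).card := by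
        refine Finset.card_le_card_of_injOn (fun p => ((A, x0), p)) ?_ ?_
        · intro p hp
          have hp' : p ∈ good := hp
          simp only [good, mem_filter] at hp'
          simp only [T, coe_filter, mem_filter, mem_univ, true_and, Set.mem_ofPred_eq]
          exact ⟨⟨hA, hp'.1, hp'.2.1, hp'.2.2.1, hp'.2.2.2⟩, trivial⟩
        · intro p _ p' _ h
          exact (Prod.ext_iff.1 h).2
      omega
  have hup : T.card ≤ (j * u + (n - j) * v) * E2.card := by
    let φ : (V n × Fin n) × (Fin n × Fin n) → V n × Fin n := fun t =>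
      if par t.1.1 t.2 ∈ B then (insert t.1.2 (par t.1.1 t.2), t.2.1)
      else (insert t.2.1 t.1.1, t.2.2)
    refine Finset.card_le_mul_card_image_of_maps_to (f := φ) (s := T) (t := E2) ?_ _ ?_
    · rintro ⟨⟨A, x0⟩, ⟨x, y⟩⟩ ht
      simp only [T, mem_filter, mem_univ, true_and, mem_PP] at ht
      obtain ⟨hE, ⟨hx, hxx0, hy⟩, hR1, hR2, hR3⟩ := ht
      obtain ⟨hAB, hx0, hN⟩ := (hE1 _).1 hE
      simp only at hAB hx0 hN
      have hyx0 : y ≠ x0 := fun h => hx0 (h ▸ hy)
      have hyx : y ≠ x := fun h => hx (h ▸ hy)
      by_cases hpar : par A (x, y) ∈ B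
      · simp only [φ, hpar, if_true]
        rw [hE2]
        have hx0par : x0 ∉ par A (x, y) := by
          simp only [par, mem_insert, mem_erase, not_or, not_and]
          exact ⟨fun h => hxx0 h.symm, fun _ => hx0⟩
        refine ⟨?_, ?_, ?_⟩
        · rw [mem_Nup]
          refine ⟨x0, Finset.mem_insert_self _ _, ?_, ?_⟩
          · rw [Finset.erase_insert hx0par]; exact hpar
          · rw [Finset.erase_insert hx0par]; exact hR3
        · simp [par]
        · intro hmem
          apply hN
          rw [mem_Nup]
          refine ⟨y, Finset.mem_insert_of_mem hy, ?_, hR2⟩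
          have : (insert x0 (par A (x, y))).erase x = (insert x0 A).erase y := by
            ext z
            simp only [par, mem_erase, mem_insert]
            constructor
            · rintro ⟨hz, h | h | ⟨h1, h2⟩⟩
              · exact ⟨fun h' => hyx0 (h'.symm.trans h), Or.inl h⟩
              · exact absurd h hz
              · exact ⟨h1, Or.inr h2⟩
            · rintro ⟨hz, h | h⟩
              · exact ⟨fun h' => hxx0 (h'.symm.trans h), Or.inl h⟩
              · exact ⟨fun h' => hx (h' ▸ h), Or.inr (Or.inr ⟨hz, h⟩)⟩
          rw [← this]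
          exact hmem
      · simp only [φ, hpar, if_false]
        rw [hE2]
        refine ⟨?_, Finset.mem_insert_of_mem hy, ?_⟩
        · rw [mem_Nup]
          refine ⟨x, Finset.mem_insert_self _ _, ?_, ?_⟩
          · rw [Finset.erase_insert hx]; exact hAB
          · rw [Finset.erase_insert hx]; exact hR1
        · simp only
          rw [Finset.erase_insert_of_ne hyx.symm]
          exact hpar
    · rintro ⟨A', z⟩ hE
      obtain ⟨hA'N, hz, hzB⟩ := (hE2 _).1 hE
      simp only at hA'N hz hzB
      have hA'c : A'.card = j + 1 := by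
        obtain ⟨x, hx, hxB, _⟩ := mem_Nup.1 hA'N
        have h1 := hB _ hxB
        rw [Finset.card_erase_of_mem hx] at h1
        have : 0 < A'.card := Finset.card_pos.2 ⟨x, hx⟩
        omega
      let T1 : Finset ((V n × Fin n) × (Fin n × Fin n)) :=
        ((A'.erase z).sigma fun x => univ.filter fun x0 => x0 ∉ A'.erase x ∧ R (A'.erase x) x0).image
          fun s => ((A'.erase s.1, s.2), (s.1, z))
      let T2 : Finset ((V n × Fin n) × (Fin n × Fin n)) :=
        ((A'ᶜ).sigma fun y => (insert y (A'.erase z)).filter fun x0 =>
          R ((insert y (A'.erase z)).erase x0) x0).image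
          fun s => (((insert s.1 (A'.erase z)).erase s.2, s.2), (z, s.1))
      have hT1 : T1.card ≤ j * u := by
        refine Finset.card_image_le.trans ?_
        rw [Finset.card_sigma]
        refine (Finset.sum_le_card_nsmul _ _ u ?_).trans ?_
        · intro x hx
          have hxA' := Finset.mem_of_mem_erase hx
          refine hu (A'.erase x) ?_ _ ?_
          · rw [Finset.card_erase_of_mem hxA', hA'c]; rfl
          · intro x0 hx0
            simpa using hx0
        · rw [Finset.card_erase_of_mem hz, hA'c]
          simp
      have hT2 : T2.card ≤ (n - j) * v := by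
        refine Finset.card_image_le.trans ?_
        rw [Finset.card_sigma]
        refine (Finset.sum_le_card_nsmul _ _ v ?_).trans ?_
        · intro y hy
          have hyA' : y ∉ A' := by simpa using hy
          have hy2 : y ∉ A'.erase z := fun h => hyA' (Finset.mem_of_mem_erase h)
          refine hv (insert y (A'.erase z)) ?_ _ ?_
          · rw [Finset.card_insert_of_notMem hy2, Finset.card_erase_of_mem hz, hA'c]; rfl
          · intro x0 hx0
            simpa using hx0
        · rw [Finset.card_compl, hA'c, Fintype.card_fin, smul_eq_mul]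
          exact Nat.mul_le_mul_right _ (by omega)
      have hsub : (T.filter fun t => φ t = (A', z)) ⊆ T1 ∪ T2 := by
        rintro ⟨⟨A, x0⟩, ⟨x, y⟩⟩ ht
        simp only [T, mem_filter, mem_univ, true_and, mem_PP] at ht
        obtain ⟨⟨hE, ⟨hx, hxx0, hy⟩, hR1, hR2, hR3⟩, hφ⟩ := ht
        obtain ⟨hAB, hx0, hN⟩ := (hE1 _).1 hE
        simp only at hAB hx0 hN
        have hyx0 : y ≠ x0 := fun h => hx0 (h ▸ hy)
        have hyx : y ≠ x := fun h => hx (h ▸ hy)
        have hR0 : R A x0 := by
          by_contra hR0
          apply hN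
          rw [mem_Nup]
          refine ⟨x0, Finset.mem_insert_self _ _, ?_, ?_⟩
          · rw [Finset.erase_insert hx0]; exact hAB
          · rw [Finset.erase_insert hx0]; exact hR0
        rw [Finset.mem_union]
        by_cases hpar : par A (x, y) ∈ B
        · right
          simp only [φ, hpar, if_true, Prod.mk.injEq] at hφ
          obtain ⟨hA', hzx⟩ := hφ
          subst hzx
          have hkey : A'.erase x = insert x0 (A.erase y) := by
            rw [← hA']
            ext w
            simp only [par, mem_erase, mem_insert]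
            constructor
            · rintro ⟨hw, h | h | ⟨h1, h2⟩⟩
              · exact Or.inl h
              · exact absurd h hw
              · exact Or.inr ⟨h1, h2⟩
            · rintro (h | ⟨h1, h2⟩)
              · exact ⟨fun h' => hxx0 (h'.symm.trans h), Or.inl h⟩
              · exact ⟨fun h' => hx (h' ▸ h2), Or.inr (Or.inr ⟨h1, h2⟩)⟩
          have hkey2 : insert y (A'.erase x) = insert x0 A := by
            rw [hkey, Finset.insert_comm, Finset.insert_erase hy]
          have hkey3 : (insert y (A'.erase x)).erase x0 = A := by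
            rw [hkey2, Finset.erase_insert hx0]
          simp only [T2, mem_image, mem_sigma, mem_filter, mem_compl, Prod.mk.injEq, Sigma.exists]
          refine ⟨y, x0, ⟨?_, ?_, ?_⟩, ⟨hkey3, rfl⟩, trivial, rfl⟩
          · rw [← hA']
            simp only [par, mem_insert, mem_erase, not_or, not_and]
            exact ⟨hyx0, hyx, fun h => absurd rfl h⟩
          · rw [hkey2]; exact Finset.mem_insert_self _ _
          · rw [hkey3]; exact hR0
        · left
          simp only [φ, hpar, if_false, Prod.mk.injEq] at hφ
          obtain ⟨hA', hzy⟩ := hφ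
          subst hzy
          have hkey : A'.erase x = A := by rw [← hA', Finset.erase_insert hx]
          simp only [T1, mem_image, mem_sigma, mem_filter, mem_univ, true_and, Prod.mk.injEq,
            Sigma.exists]
          refine ⟨x, x0, ⟨?_, ?_, ?_⟩, ⟨hkey, rfl⟩, rfl, trivial⟩
          · rw [Finset.mem_erase, ← hA']
            exact ⟨hyx.symm, Finset.mem_insert_self _ _⟩
          · rw [hkey]; exact hx0
          · rw [hkey]; exact hR0
      calc (T.filter fun t => φ t = (A', z)).card ≤ (T1 ∪ T2).card := Finset.card_le_card hsub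
        _ ≤ T1.card + T2.card := Finset.card_union_le _ _
        _ ≤ j * u + (n - j) * v := Nat.add_le_add hT1 hT2
  exact hlow.trans hup

theorem charging {n j u v m : ℕ} (R : V n → Fin n → Prop)
    (hu : UpDeg j u R) (hv : DownDeg j v R)
    (hm : ∀ (A : V n) (x0 : Fin n), A.card = j → x0 ∉ A → m ≤ cnt (fun A x => ¬ R A x) A x0)
    (hm2 : 2 * (u * j + v * (n - j)) ≤ m) : NMP j R := by
  classical
  intro B hB
  let E1 : Finset (V n × Fin n) :=
    univ.filter fun t => t.1 ∈ B ∧ t.2 ∉ t.1 ∧ insert t.2 t.1 ∉ Nup R B
  let G1 : Finset (V n × Fin n) :=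
    univ.filter fun t => t.1 ∈ B ∧ t.2 ∉ t.1 ∧ insert t.2 t.1 ∈ Nup R B
  let E2 : Finset (V n × Fin n) :=
    univ.filter fun t => t.1 ∈ Nup R B ∧ t.2 ∈ t.1 ∧ t.1.erase t.2 ∉ B
  let G2 : Finset (V n × Fin n) :=
    univ.filter fun t => t.1 ∈ Nup R B ∧ t.2 ∈ t.1 ∧ t.1.erase t.2 ∈ B
  have hNc : ∀ A' ∈ Nup R B, A'.card = j + 1 := by
    intro A' hA'
    obtain ⟨x, hx, hxB, _⟩ := mem_Nup.1 hA'
    have h1 := hB _ hxB
    rw [Finset.card_erase_of_mem hx] at h1
    have : 0 < A'.card := Finset.card_pos.2 ⟨x, hx⟩
    omega
  have h1 : (n - j) * B.card = G1.card + E1.card := by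
    have e1 : ((univ : Finset (V n × Fin n)).filter fun t => t.1 ∈ B ∧ t.2 ∉ t.1).card
        = (n - j) * B.card := by
      rw [card_pairs (fun A : V n => A ∈ B) (fun A x => x ∉ A)]
      rw [Finset.sum_congr rfl (g := fun _ => n - j)]
      · simp [Nat.mul_comm]
      · intro A hA
        have hA' : A ∈ B := by simpa using hA
        rw [← hB A hA']
        have : (univ.filter fun x => x ∉ A) = Aᶜ := by ext x; simp
        rw [this, Finset.card_compl, Fintype.card_fin]
    rw [← e1, ← Finset.card_filter_add_card_filter_not
      (s := (univ : Finset (V n × Fin n)).filter fun t => t.1 ∈ B ∧ t.2 ∉ t.1)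
      (fun t => insert t.2 t.1 ∈ Nup R B)]
    congr 2
    · ext t
      simp [G1, and_assoc]
    · ext t
      simp [E1, and_assoc]
  have h2 : (j + 1) * (Nup R B).card = G2.card + E2.card := by
    have e1 : ((univ : Finset (V n × Fin n)).filter fun t => t.1 ∈ Nup R B ∧ t.2 ∈ t.1).card
        = (j + 1) * (Nup R B).card := by
      rw [card_pairs (fun A : V n => A ∈ Nup R B) (fun A x => x ∈ A)]
      rw [Finset.sum_congr rfl (g := fun _ => j + 1)]
      · simp [Nat.mul_comm]
      · intro A hA
        have hA' : A ∈ Nup R B := by simpa using hA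
        rw [← hNc A hA']
        congr 1
        ext x; simp
    rw [← e1, ← Finset.card_filter_add_card_filter_not
      (s := (univ : Finset (V n × Fin n)).filter fun t => t.1 ∈ Nup R B ∧ t.2 ∈ t.1)
      (fun t => t.1.erase t.2 ∈ B)]
    congr 2
    · ext t
      simp [G2, and_assoc]
    · ext t
      simp [E2, and_assoc]
  have h3 : G1.card ≤ G2.card := by
    refine Finset.card_le_card_of_injOn (fun t => (insert t.2 t.1, t.2)) ?_ ?_
    · intro t ht
      have ht' : t ∈ G1 := ht
      simp only [G1, mem_filter, mem_univ, true_and] at ht'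
      simp only [G2, coe_filter, mem_univ, true_and, Set.mem_ofPred_eq]
      refine ⟨ht'.2.2, Finset.mem_insert_self _ _, ?_⟩
      rw [Finset.erase_insert ht'.2.1]
      exact ht'.1
    · rintro ⟨A, x⟩ ht ⟨A2, x2⟩ ht2 h
      have ht' : (A, x) ∈ G1 := ht
      have ht2' : (A2, x2) ∈ G1 := ht2
      simp only [G1, mem_filter, mem_univ, true_and] at ht' ht2'
      simp only [Prod.mk.injEq] at h
      obtain ⟨h, rfl⟩ := h
      have : A = A2 := by
        rw [← Finset.erase_insert ht'.2.1, h, Finset.erase_insert ht2'.2.1]
      rw [this]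
  have h4 : E1.card ≤ E2.card := by
    rcases Finset.eq_empty_or_nonempty E1 with h0 | ⟨⟨A, x0⟩, hA⟩
    · rw [h0]; simp
    · have haux := charging_aux R hu hv hm B hB E1 E2 (by simp [E1]) (by simp [E2])
      have hA' := hA
      simp only [E1, mem_filter, mem_univ, true_and] at hA'
      obtain ⟨hAB, hx0, hN⟩ := hA'
      have hAc := hB A hAB
      have hR0 : R A x0 := by
        by_contra hR0
        apply hN
        rw [mem_Nup]
        refine ⟨x0, Finset.mem_insert_self _ _, ?_, ?_⟩
        · rw [Finset.erase_insert hx0]; exact hAB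
        · rw [Finset.erase_insert hx0]; exact hR0
      have hv1 : 1 ≤ v := by
        have := hv (insert x0 A) (by rw [Finset.card_insert_of_notMem hx0, hAc]) {x0} (by
          intro x hx
          rw [Finset.mem_singleton] at hx
          subst hx
          exact ⟨Finset.mem_insert_self _ _, by rw [Finset.erase_insert hx0]; exact hR0⟩)
        simpa using this
      have ha1 : 1 ≤ n - j := by
        have : 0 < (Aᶜ).card := Finset.card_pos.2 ⟨x0, by simpa using hx0⟩
        rw [Finset.card_compl, hAc, Fintype.card_fin] at this
        exact this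
      have hpos : 0 < j * u + (n - j) * v := by
        have : 0 < (n - j) * v := Nat.mul_pos ha1 hv1
        omega
      have hge : j * u + (n - j) * v ≤ m - (u * j + v * (n - j)) := by
        have e1 : j * u = u * j := Nat.mul_comm _ _
        have e2 : (n - j) * v = v * (n - j) := Nat.mul_comm _ _
        omega
      have : (j * u + (n - j) * v) * E1.card ≤ (j * u + (n - j) * v) * E2.card :=
        (Nat.mul_le_mul_right _ hge).trans haux
      exact Nat.le_of_mul_le_mul_left this hpos
  rw [h1, h2]
  omega

end Pool.Agent.H18.SCD
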