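import Pool.Agent.H18.SCD.Basic

set_option autoImplicit false

namespace Pool.Agent.H18.SCD

open Finset

/-- `g` on the first `i` coordinates, `f` on the others. -/
def hyb {n j : ℕ} (i : ℕ) (f g : Fin j → Fin n) : Fin j → Fin n :=
  fun a => if (a : ℕ) < i then g a else f a

theorem hyb_zero {n j : ℕ} (f g : Fin j → Fin n) : hyb 0 f g = f := by
  funext a
  simp [hyb]

theorem hyb_last {n j : ℕ} (f g : Fin j → Fin n) : hyb j f g = g := by
  funext a
  simp [hyb]

theorem hyb_succ {n j : ℕ} (f g : Fin j → Fin n) (i : Fin j) :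
    hyb ((i : ℕ) + 1) f g = Function.update (hyb (i : ℕ) f g) i (g i) := by
  funext a
  by_cases h : a = i
  · subst h
    simp [hyb]
  · rw [Function.update_of_ne h]
    have h' : (a : ℕ) ≠ i := fun e => h (Fin.ext e)
    unfold hyb
    by_cases h1 : (a : ℕ) < i
    · rw [if_pos (by omega), if_pos h1]
    · rw [if_neg (by omega), if_neg h1]

theorem hyb_invol {n j : ℕ} (i : ℕ) (f g : Fin j → Fin n) :
    hyb i (hyb i f g) (hyb i g f) = f := by
  funext a
  unfold hyb
  by_cases h : (a : ℕ) < i
  · simp [h]
  · simp [h]

theorem exists_change {n j : ℕ} (S : Finset (Fin j → Fin n)) (f g : Fin j → Fin n)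
    (hf : f ∈ S) (hg : g ∉ S) :
    ∃ i : Fin j, hyb (i : ℕ) f g ∈ S ∧ hyb ((i : ℕ) + 1) f g ∉ S := by
  classical
  by_contra hcon
  push Not at hcon
  have key : ∀ i : ℕ, i ≤ j → hyb i f g ∈ S := by
    intro i
    induction i with
    | zero => intro _; rwa [hyb_zero]
    | succ i ih =>
      intro hi
      exact hcon ⟨i, by omega⟩ (ih (by omega))
  have := key j le_rfl
  rw [hyb_last] at this
  exact hg this

theorem card_fix {n j : ℕ} (i : Fin j) (z : Fin n) :
    ((univ : Finset (Fin j → Fin n)).filter fun g => g i = z).card = n ^ (j - 1) := by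
  classical
  have h : ((univ : Finset (Fin j → Fin n)).filter fun g => g i = z)
      = Fintype.piFinset (fun a : Fin j => if a = i then ({z} : Finset (Fin n)) else univ) := by
    ext g
    rw [mem_filter, Fintype.mem_piFinset]
    constructor
    · rintro ⟨_, h⟩ a
      by_cases ha : a = i
      · subst ha; simp [h]
      · simp [ha]
    · intro h
      have := h i
      simp at this
      exact ⟨mem_univ _, this⟩
  rw [h, Fintype.card_piFinset]
  have h2 : ∀ a : Fin j, (if a = i then ({z} : Finset (Fin n)) else univ).card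
      = if a = i then 1 else n := by
    intro a
    by_cases ha : a = i
    · simp [ha]
    · simp [ha]
  rw [prod_congr rfl (fun a _ => h2 a), prod_ite, prod_const_one, one_mul, prod_const]
  congr 1
  rw [filter_ne' univ i, card_erase_of_mem (mem_univ i)]
  simp

/-- The hybrid argument: edge boundary of a set of functions. -/
theorem hybrid_count {n j : ℕ} (S : Finset (Fin j → Fin n)) :
    S.card * (n ^ j - S.card) ≤ n ^ (j - 1) *
      ((univ : Finset ((Fin j → Fin n) × Fin j × Fin n)).filter fun t =>
        t.1 ∈ S ∧ Function.update t.1 t.2.1 t.2.2 ∉ S).card := by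
  classical
  set T := ((univ : Finset ((Fin j → Fin n) × Fin j × Fin n)).filter fun t =>
        t.1 ∈ S ∧ Function.update t.1 t.2.1 t.2.2 ∉ S) with hT
  set U := ((univ : Finset ((Fin j → Fin n) × Fin j × (Fin j → Fin n))).filter fun t =>
        t.1 ∈ S ∧ Function.update t.1 t.2.1 (t.2.2 t.2.1) ∉ S) with hU
  -- `S × Sᶜ` injects into `U`
  have h1 : S.card * (n ^ j - S.card) ≤ U.card := by
    have hc : (S ×ˢ Sᶜ).card = S.card * (n ^ j - S.card) := by
      rw [card_product, card_compl]
      simp
    rw [← hc]
    have hex : ∀ p ∈ S ×ˢ Sᶜ, ∃ i : Fin j, hyb (i : ℕ) p.1 p.2 ∈ S ∧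
        hyb ((i : ℕ) + 1) p.1 p.2 ∉ S := by
      intro p hp
      rw [mem_product, mem_compl] at hp
      exact exists_change S p.1 p.2 hp.1 hp.2
    rcases (S ×ˢ Sᶜ).eq_empty_or_nonempty with he | ⟨p₁, hp₁⟩
    · rw [he]; simp
    have : Nonempty (Fin j) := ⟨(hex p₁ hp₁).choose⟩
    choose! ι hι using hex
    refine card_le_card_of_injOn
      (fun p => (hyb (ι p : ℕ) p.1 p.2, ι p, hyb (ι p : ℕ) p.2 p.1)) ?_ ?_
    · intro p hp
      have hp' : p ∈ S ×ˢ Sᶜ := by simpa using hp
      have h := hι p hp'
      rw [mem_coe, hU, mem_filter]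
      refine ⟨mem_univ _, h.1, ?_⟩
      have h2 := h.2
      rw [hyb_succ] at h2
      have h3 : hyb (ι p : ℕ) p.2 p.1 (ι p) = p.2 (ι p) := by
        simp [hyb]
      show Function.update (hyb (ι p : ℕ) p.1 p.2) (ι p) (hyb (ι p : ℕ) p.2 p.1 (ι p)) ∉ S
      rw [h3]
      exact h2
    · intro p hp q hq hpq
      simp only [Prod.mk.injEq] at hpq
      obtain ⟨ha, hb, hc⟩ := hpq
      have e1 : p.1 = q.1 := by
        rw [← hyb_invol (ι p : ℕ) p.1 p.2, ha, hc, hb, hyb_invol]
      have e2 : p.2 = q.2 := by
        rw [← hyb_invol (ι p : ℕ) p.2 p.1, ha, hc, hb, hyb_invol]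
      exact Prod.ext e1 e2
  -- fibres of `U → T`
  have h2 : U.card ≤ n ^ (j - 1) * (U.image (fun t => (t.1, t.2.1, t.2.2 t.2.1))).card := by
    apply card_le_mul_card_image
    intro a _
    have : (U.filter fun t => (t.1, t.2.1, t.2.2 t.2.1) = a) ⊆
        ((univ : Finset (Fin j → Fin n)).filter fun g => g a.2.1 = a.2.2).image
          (fun g => (a.1, a.2.1, g)) := by
      intro t ht
      rw [mem_filter] at ht
      obtain ⟨_, rfl⟩ := ht
      rw [mem_image]
      exact ⟨t.2.2, by simp, rfl⟩
    calc (U.filter fun t => (t.1, t.2.1, t.2.2 t.2.1) = a).card ≤ _ := card_le_card this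
      _ ≤ _ := card_image_le
      _ = n ^ (j - 1) := card_fix _ _
  have h3 : (U.image (fun t => (t.1, t.2.1, t.2.2 t.2.1))).card ≤ T.card := by
    apply card_le_card
    intro t ht
    rw [mem_image] at ht
    obtain ⟨s, hs, rfl⟩ := ht
    rw [hU, mem_filter] at hs
    rw [hT, mem_filter]
    exact ⟨mem_univ _, hs.2.1, hs.2.2⟩
  exact h1.trans (h2.trans (Nat.mul_le_mul_left _ h3))

/-- the functions `Fin j → Fin n` with image `A`, `|A| = j`, are `j!` in number. -/
theorem card_image_eq {n j : ℕ} (A : V n) (hA : A.card = j) :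
    ((univ : Finset (Fin j → Fin n)).filter fun h => univ.image h = A).card = j.factorial := by
  classical
  have h1 : ((univ : Finset (Fin j → Fin n)).filter fun h => univ.image h = A)
      = (univ : Finset (Fin j ↪ A)).image (fun e => fun a => (e a : Fin n)) := by
    ext h
    rw [mem_filter, mem_image]
    constructor
    · rintro ⟨_, hh⟩
      have hmem : ∀ a, h a ∈ A := fun a => by
        rw [← hh]; exact mem_image_of_mem _ (mem_univ _)
      have hinj : Function.Injective h := by
        have hcard : (univ.image h).card = (univ : Finset (Fin j)).card := by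
          rw [hh, hA]; simp
        have := card_image_iff.1 hcard
        intro a b hab
        exact this (by simp) (by simp) hab
      refine ⟨⟨fun a => ⟨h a, hmem a⟩, fun a b hab => hinj (by simpa using hab)⟩, mem_univ _, ?_⟩
      funext a
      rfl
    · rintro ⟨e, _, rfl⟩
      refine ⟨mem_univ _, ?_⟩
      have hsub : (univ.image fun a => (e a : Fin n)) ⊆ A := by
        intro x hx
        obtain ⟨a, _, rfl⟩ := mem_image.1 hx
        exact (e a).2
      apply eq_of_subset_of_card_le hsub
      rw [card_image_of_injective, hA]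
      · simp
      · intro a b hab
        exact e.injective (Subtype.ext hab)
  rw [h1, card_image_of_injective]
  · rw [card_univ, Fintype.card_embedding_eq]
    simp [hA, Nat.descFactorial_self]
  · intro e e' h
    ext a
    have := congrFun h a
    exact congrArg (fun x : Fin n => (x : ℕ)) this

theorem johnson {n j : ℕ} (B : Finset (V n)) (hB : ∀ A ∈ B, A.card = j)
    (hhalf : 2 * B.card ≤ n.choose j) :
    n * B.card ≤ 2 * j ^ 2 * B.card + 2 *
      ((univ : Finset (V n × Fin n × Fin n)).filter fun t =>
        t.1 ∈ B ∧ t.2.1 ∉ t.1 ∧ t.2.2 ∈ t.1 ∧ insert t.2.1 (t.1.erase t.2.2) ∉ B).card := by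
  classical
  set E := ((univ : Finset (V n × Fin n × Fin n)).filter fun t =>
        t.1 ∈ B ∧ t.2.1 ∉ t.1 ∧ t.2.2 ∈ t.1 ∧ insert t.2.1 (t.1.erase t.2.2) ∉ B) with hE
  rcases Nat.eq_zero_or_pos j with hj | hj
  · subst hj
    have : B.card = 0 := by
      simp at hhalf
      omega
    rw [this]; simp
  rcases Nat.eq_zero_or_pos n with hn | hn
  · subst hn; simp
  set S : Finset (Fin j → Fin n) := univ.filter fun h => univ.image h ∈ B with hS
  have hSinj : ∀ h ∈ S, Function.Injective h := by
    intro h hh
    rw [hS, mem_filter] at hh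
    have hcard : (univ.image h).card = (univ : Finset (Fin j)).card := by
      rw [hB _ hh.2]; simp
    have := card_image_iff.1 hcard
    intro a b hab
    exact this (by simp) (by simp) hab
  have hScard : S.card = j.factorial * B.card := by
    have h0 : ∀ h ∈ S, univ.image h ∈ B := fun h hh => by
      rw [hS, mem_filter] at hh; exact hh.2
    rw [card_eq_sum_card_fiberwise h0]
    have : ∀ A ∈ B, (S.filter fun h => univ.image h = A).card = j.factorial := by
      intro A hA
      rw [← card_image_eq A (hB A hA)]
      congr 1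
      ext h
      rw [mem_filter, mem_filter, mem_filter]
      constructor
      · rintro ⟨_, h⟩
        exact ⟨mem_univ _, h⟩
      · rintro ⟨_, h⟩
        exact ⟨⟨mem_univ _, by rw [h]; exact hA⟩, h⟩
    rw [sum_congr rfl this, sum_const, smul_eq_mul, mul_comm]
  have hS2 : 2 * S.card ≤ n ^ j := by
    have h1 : j.factorial * n.choose j ≤ n ^ j := by
      rw [← Nat.descFactorial_eq_factorial_mul_choose]
      exact Nat.descFactorial_le_pow n j
    calc 2 * S.card = j.factorial * (2 * B.card) := by rw [hScard]; ring
      _ ≤ j.factorial * n.choose j := Nat.mul_le_mul_left _ hhalf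
      _ ≤ n ^ j := h1
  set T := ((univ : Finset ((Fin j → Fin n) × Fin j × Fin n)).filter fun t =>
        t.1 ∈ S ∧ Function.update t.1 t.2.1 t.2.2 ∉ S) with hT
  have hyb := hybrid_count S
  rw [← hT] at hyb
  -- `n |S| ≤ 2 |T|`
  have hmain : n * S.card ≤ 2 * T.card := by
    have h1 : S.card * n ^ j ≤ 2 * (n ^ (j - 1) * T.card) := by
      have : S.card * n ^ j ≤ 2 * (S.card * (n ^ j - S.card)) := by
        have h2 : n ^ j ≤ 2 * (n ^ j - S.card) := by omega
        calc S.card * n ^ j ≤ S.card * (2 * (n ^ j - S.card)) := Nat.mul_le_mul_left _ h2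
          _ = 2 * (S.card * (n ^ j - S.card)) := by ring
      exact this.trans (Nat.mul_le_mul_left _ hyb)
    have hpow : n ^ j = n ^ (j - 1) * n := by
      rw [← pow_succ]; congr 1; omega
    have hpos : 0 < n ^ (j - 1) := pow_pos hn _
    have h3 : n ^ (j - 1) * (n * S.card) ≤ n ^ (j - 1) * (2 * T.card) := by
      calc n ^ (j - 1) * (n * S.card) = S.card * n ^ j := by rw [hpow]; ring
        _ ≤ _ := h1
        _ = n ^ (j - 1) * (2 * T.card) := by ring
    exact Nat.le_of_mul_le_mul_left h3 hpos
  -- `T = T₁ ∪ T₂`
  set T1 := T.filter fun t => t.2.2 ∈ univ.image t.1 with hT1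
  set T2 := T.filter fun t => ¬ t.2.2 ∈ univ.image t.1 with hT2
  have hT12 : T1.card + T2.card = T.card := card_filter_add_card_filter_not _
  have hT1c : T1.card ≤ j ^ 2 * S.card := by
    have : T1 ⊆ (S ×ˢ ((univ : Finset (Fin j)) ×ˢ (univ : Finset (Fin j)))).image
        (fun p => (p.1, p.2.1, p.1 p.2.2)) := by
      intro t ht
      rw [hT1, mem_filter, hT, mem_filter] at ht
      obtain ⟨⟨_, h1, _⟩, h2⟩ := ht
      obtain ⟨a, _, ha⟩ := mem_image.1 h2
      rw [mem_image]
      refine ⟨(t.1, t.2.1, a), ?_, ?_⟩
      · rw [mem_product]; exact ⟨h1, by simp⟩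
      · show (t.1, t.2.1, t.1 a) = t
        rw [ha]
    calc T1.card ≤ _ := card_le_card this
      _ ≤ _ := card_image_le
      _ = j ^ 2 * S.card := by
        rw [card_product, card_product]; simp; ring
  have hT2c : T2.card ≤ j.factorial * E.card := by
    have h1 : T2.card ≤ j.factorial *
        (T2.image (fun t => (univ.image t.1, t.2.2, t.1 t.2.1))).card := by
      apply card_le_mul_card_image
      intro a ha
      obtain ⟨t0, ht0, ha0⟩ := mem_image.1 ha
      have hAB : a.1 ∈ B := by
        rw [← ha0]
        rw [hT2, mem_filter, hT, mem_filter] at ht0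
        have := ht0.1.2.1
        rw [hS, mem_filter] at this
        exact this.2
      rw [← card_image_eq a.1 (hB _ hAB)]
      refine card_le_card_of_injOn (fun t => t.1) ?_ ?_
      · intro t ht
        rw [mem_coe, mem_filter] at ht
        rw [mem_coe, mem_filter]
        exact ⟨mem_univ _, by rw [← ht.2]⟩
      · intro t ht s hs hts
        rw [mem_coe, mem_filter] at ht hs
        obtain ⟨ht1, ht2⟩ := ht
        obtain ⟨hs1, hs2⟩ := hs
        have hts' : t.1 = s.1 := hts
        have e := ht2.trans hs2.symm
        simp only [Prod.mk.injEq] at e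
        obtain ⟨_, e2, e3⟩ := e
        have htS : t.1 ∈ S := by
          rw [hT2, mem_filter, hT, mem_filter] at ht1
          exact ht1.1.2.1
        have e4 : t.2.1 = s.2.1 := by
          apply hSinj t.1 htS
          rw [e3, hts']
        exact Prod.ext hts' (Prod.ext e4 e2)
    have h2 : (T2.image (fun t => (univ.image t.1, t.2.2, t.1 t.2.1))).card ≤ E.card := by
      apply card_le_card
      intro a ha
      obtain ⟨t, ht, rfl⟩ := mem_image.1 ha
      rw [hT2, mem_filter, hT, mem_filter] at ht
      obtain ⟨⟨_, hS1, hS3⟩, hz⟩ := ht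
      have hinj := hSinj t.1 hS1
      rw [hE, mem_filter]
      refine ⟨mem_univ _, ?_, hz, mem_image_of_mem _ (mem_univ _), ?_⟩
      · rw [hS, mem_filter] at hS1
        exact hS1.2
      · intro hcon
        apply hS3
        rw [hS, mem_filter]
        refine ⟨mem_univ _, ?_⟩
        have : univ.image (Function.update t.1 t.2.1 t.2.2)
            = insert t.2.2 ((univ.image t.1).erase (t.1 t.2.1)) := by
          ext x
          rw [mem_image, mem_insert, mem_erase, mem_image]
          constructor
          · rintro ⟨a, _, ha⟩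
            by_cases haa : a = t.2.1
            · subst haa
              rw [Function.update_self] at ha
              left; exact ha.symm
            · rw [Function.update_of_ne haa] at ha
              right
              refine ⟨?_, a, mem_univ _, ha⟩
              intro h
              rw [← ha] at h
              exact haa (hinj h)
          · rintro (h | ⟨h1, a, _, ha⟩)
            · exact ⟨t.2.1, mem_univ _, by rw [Function.update_self, h]⟩
            · refine ⟨a, mem_univ _, ?_⟩
              rw [Function.update_of_ne, ha]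
              rintro rfl
              exact h1 ha.symm
        rw [this]
        exact hcon
    exact h1.trans (Nat.mul_le_mul_left _ h2)
  have hfac : 0 < j.factorial := Nat.factorial_pos j
  have hfin : j.factorial * (n * B.card) ≤ j.factorial * (2 * j ^ 2 * B.card + 2 * E.card) := by
    calc j.factorial * (n * B.card) = n * S.card := by rw [hScard]; ring
      _ ≤ 2 * T.card := hmain
      _ = 2 * (T1.card + T2.card) := by rw [hT12]
      _ ≤ 2 * (j ^ 2 * S.card + j.factorial * E.card) := by
        apply Nat.mul_le_mul_left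
        exact Nat.add_le_add hT1c hT2c
      _ = j.factorial * (2 * j ^ 2 * B.card + 2 * E.card) := by rw [hScard]; ring
  exact Nat.le_of_mul_le_mul_left hfin hfac

end Pool.Agent.H18.SCD
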