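import Pool.Agent.H18.SCD.T5a
import Pool.Agent.H18.SCD.T5b

set_option autoImplicit false

namespace Pool.Agent.H18.SCD

namespace T5b

open Finset

/-- one stage from the numerical estimate of the union bound -/
theorem stage_of {k n j : ℕ} (hk : 0 < k) (hn4 : 4 * (j + 1) ^ 2 ≤ n) {μ η : ℝ}
    (hμ : μ = 1 - 1 / (4 * (k : ℝ) ^ 2)) (hη : η = 2 * μ ^ (n / (4 * (j + 1) ^ 2)))
    (hη1 : η ≤ 1)
    (hnum : 2 * (k : ℝ) * (((1 + η) ^ (n.choose j) - 1) * (1 + η) ^ (n.choose j)) < 1) :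
    Stage k n j := by
  classical
  intro σ hσ
  have hn0 : 0 < n := lt_of_lt_of_le (by positivity) hn4
  obtain ⟨f, hf⟩ := exists_labels (fun B hB hh => johnson B hB hh) hk hn4 rfl hμ hη hη1 hnum σ hσ
  have hcol := fun c : Fin k => one_color hn0 (σ c) (hσ c) f c (hf c)
  choose α β hα hβ hlink using hcol
  have hαl : ∀ (c : Fin k) (A : V n), A.card = j → f (Sum.inl (insert (α c A) A)) = c := by
    intro c A hA
    have h1 := ((hα c).1 A hA).2
    by_contra h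
    exact h1 (Or.inl h)
  have hβl : ∀ (c : Fin k) (A : V n), A.card = j → f (Sum.inr (insert (β c A) A)) = c := by
    intro c A hA
    have h1 := ((hβ c).1 A hA).2
    by_contra h
    exact h1 (fun ⟨y, _, _, _, h4⟩ => h h4)
  refine ⟨α, β, ?_, ?_, hlink, ?_⟩
  · intro c
    exact ⟨fun A hA => ⟨((hα c).1 A hA).1, fun h => h⟩, (hα c).2⟩
  · intro c
    exact ⟨fun A hA => ⟨((hβ c).1 A hA).1, fun h => h⟩, (hβ c).2⟩
  · intro c c' hcc A hA
    constructor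
    · intro h
      apply hcc
      rw [← hαl c A hA, h, hαl c' A hA]
    · intro h
      apply hcc
      rw [← hβl c A hA, h, hβl c' A hA]

theorem num_fin {k : ℕ} (hk : 1 ≤ k) {C : ℕ} {η : ℝ} (hC : 1 ≤ C) (hη0 : 0 ≤ η)
    (ht : 12 * (k : ℝ) * ((C : ℝ) * η) < 1) :
    η ≤ 1 ∧ 2 * (k : ℝ) * (((1 + η) ^ C - 1) * (1 + η) ^ C) < 1 := by
  have hk1 : (1 : ℝ) ≤ k := by exact_mod_cast hk
  have hC1 : (1 : ℝ) ≤ C := by exact_mod_cast hC
  obtain ⟨t, hte⟩ : ∃ t : ℝ, t = (C : ℝ) * η := ⟨_, rfl⟩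
  rw [← hte] at ht
  have ht0 : 0 ≤ t := by rw [hte]; positivity
  have hkt : (k : ℝ) * t < 1 / 12 := by linarith
  have ht1 : t < 1 / 12 := by nlinarith
  have hηt : η ≤ t := by rw [hte]; nlinarith
  refine ⟨by linarith, ?_⟩
  have hP := pow_est hη0 C (by rw [← hte]; linarith)
  rw [← hte] at hP
  have hP1 : 1 ≤ (1 + η) ^ C := one_le_pow₀ (by linarith)
  obtain ⟨P, hPe⟩ : ∃ P : ℝ, P = (1 + η) ^ C := ⟨_, rfl⟩
  rw [← hPe] at hP hP1 ⊢
  have h5 : (P - 1) * P ≤ (2 * t) * (1 + 2 * t) := by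
    apply mul_le_mul (by linarith) hP (by linarith) (by linarith)
  have h6 : 2 * (k : ℝ) * ((P - 1) * P) ≤ 2 * (k : ℝ) * ((2 * t) * (1 + 2 * t)) :=
    mul_le_mul_of_nonneg_left h5 (by linarith)
  have h7 : 2 * (k : ℝ) * ((2 * t) * (1 + 2 * t)) = 4 * ((k : ℝ) * t) * (1 + 2 * t) := by ring
  rw [h7] at h6
  have h8 : 0 ≤ (k : ℝ) * t := by positivity
  nlinarith

theorem mu_half {m : ℕ} (hm : 1 ≤ m) : (1 - 1 / (m : ℝ)) ^ m ≤ 1 / 2 := by
  have hm0 : (0 : ℝ) < m := by exact_mod_cast hm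
  have h0 : 0 ≤ 1 - 1 / (m : ℝ) := by
    have : 1 / (m : ℝ) ≤ 1 := by
      rw [div_le_one hm0]
      exact_mod_cast hm
    linarith
  have h1 : 1 - 1 / (m : ℝ) ≤ Real.exp (-(1 / (m : ℝ))) := by
    have := Real.add_one_le_exp (-(1 / (m : ℝ)))
    linarith
  calc (1 - 1 / (m : ℝ)) ^ m ≤ (Real.exp (-(1 / (m : ℝ)))) ^ m := pow_le_pow_left₀ h0 h1 m
    _ = Real.exp (-1) := by
        rw [← Real.exp_nat_mul]
        congr 1
        field_simp
    _ ≤ 1 / 2 := by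
        rw [Real.exp_neg, ← one_div]
        apply one_div_le_one_div_of_le (by norm_num)
        have := Real.add_one_le_exp (1 : ℝ)
        linarith

end T5b

open T5b in
/-- **T5b, quantitative.** -/
theorem low_quant (k j n : ℕ) (hk : 1 ≤ k)
    (h : 1000 * k ^ 2 * (j + 1) ^ 3 * (Nat.log 2 n + 1) ≤ n) : Stage k n j := by
  obtain ⟨L, hL⟩ : ∃ L : ℕ, L = Nat.log 2 n + 1 := ⟨_, rfl⟩
  rw [← hL] at h
  have hL1 : 1 ≤ L := by omega
  have hk2 : 1 ≤ k ^ 2 := Nat.one_le_pow _ _ hk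
  have hn2 : n < 2 ^ L := by
    rw [hL]
    exact Nat.lt_pow_succ_log_self (by norm_num) n
  obtain ⟨a, ha⟩ : ∃ a : ℕ, a = 4 * (j + 1) ^ 2 := ⟨_, rfl⟩
  obtain ⟨M, hM⟩ : ∃ M : ℕ, M = (j + 1) * L := ⟨_, rfl⟩
  have hM1 : 1 ≤ M := by
    rw [hM]
    exact Nat.mul_pos (Nat.succ_pos _) hL1
  have h' : (250 * k ^ 2 * M) * a ≤ n := by
    have : (250 * k ^ 2 * M) * a = 1000 * k ^ 2 * (j + 1) ^ 3 * L := by
      rw [ha, hM]
      ring
    rw [this]
    exact h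
  have ha0 : 0 < a := by rw [ha]; positivity
  have hκ : 250 * k ^ 2 * M ≤ n / a := (Nat.le_div_iff_mul_le ha0).2 h'
  have hkM : 1 ≤ k ^ 2 * M := Nat.mul_pos hk2 hM1
  have han : a ≤ n := by nlinarith
  have hkn : k ≤ n := by
    have : k ≤ k ^ 2 := by nlinarith
    nlinarith
  have hjn : j ≤ n := by
    have : j ≤ a := by rw [ha]; nlinarith
    omega
  obtain ⟨μ, hμ⟩ : ∃ μ : ℝ, μ = 1 - 1 / (4 * (k : ℝ) ^ 2) := ⟨_, rfl⟩
  obtain ⟨η, hη⟩ : ∃ η : ℝ, η = 2 * μ ^ (n / a) := ⟨_, rfl⟩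
  have hk1 : (1 : ℝ) ≤ k := by exact_mod_cast hk
  have hk2R : (1 : ℝ) ≤ (k : ℝ) ^ 2 := by nlinarith
  have hμ0 : 0 ≤ μ := by
    rw [hμ]
    have : 1 / (4 * (k : ℝ) ^ 2) ≤ 1 := by
      rw [div_le_one (by positivity)]
      linarith
    linarith
  have hμ1 : μ ≤ 1 := by
    rw [hμ]
    have : 0 < 1 / (4 * (k : ℝ) ^ 2) := by positivity
    linarith
  have hη0 : 0 ≤ η := by rw [hη]; positivity
  have hμh : μ ^ (4 * k ^ 2) ≤ 1 / 2 := by
    have := mu_half (m := 4 * k ^ 2) (by omega)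
    rw [hμ]
    convert this using 3
    push_cast
    ring
  have hμκ : μ ^ (n / a) ≤ (1 / 2 : ℝ) ^ (62 * M) := by
    calc μ ^ (n / a) ≤ μ ^ ((4 * k ^ 2) * (62 * M)) := by
          apply pow_le_pow_of_le_one hμ0 hμ1
          refine le_trans ?_ hκ
          nlinarith
      _ = (μ ^ (4 * k ^ 2)) ^ (62 * M) := pow_mul _ _ _
      _ ≤ (1 / 2 : ℝ) ^ (62 * M) := pow_le_pow_left₀ (by positivity) hμh _
  have hC : (n.choose j : ℝ) ≤ 2 ^ (L * j) := by
    have h3 : n.choose j ≤ n ^ j := Nat.choose_le_pow n j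
    have h4 : n ^ j ≤ (2 ^ L) ^ j := Nat.pow_le_pow_left hn2.le j
    rw [pow_mul]
    exact_mod_cast h3.trans h4
  have hC1 : 1 ≤ n.choose j := Nat.choose_pos hjn
  have hkR : (k : ℝ) ≤ 2 ^ L := by exact_mod_cast hkn.trans hn2.le
  have ht : 12 * (k : ℝ) * ((n.choose j : ℝ) * η) < 1 := by
    calc 12 * (k : ℝ) * ((n.choose j : ℝ) * η)
        ≤ 12 * (2 : ℝ) ^ L * ((2 : ℝ) ^ (L * j) * (2 * (1 / 2 : ℝ) ^ (62 * M))) := by
          apply mul_le_mul
          · linarith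
          · apply mul_le_mul hC _ hη0 (by positivity)
            rw [hη]
            linarith
          · positivity
          · positivity
      _ = 24 * ((2 : ℝ) ^ M * (1 / 2 : ℝ) ^ (62 * M)) := by
          have : (2 : ℝ) ^ M = 2 ^ L * 2 ^ (L * j) := by
            rw [← pow_add, hM]
            congr 1
            ring
          rw [this]
          ring
      _ = 24 * (1 / 2 : ℝ) ^ (61 * M) := by
          have : (1 / 2 : ℝ) ^ (62 * M) = (1 / 2 : ℝ) ^ M * (1 / 2 : ℝ) ^ (61 * M) := by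
            rw [← pow_add]
            congr 1
            ring
          have e1 : (2 : ℝ) ^ M * (1 / 2 : ℝ) ^ M = 1 := by
            rw [← mul_pow]
            norm_num
          rw [this, ← mul_assoc ((2 : ℝ) ^ M), e1, one_mul]
      _ ≤ 24 * (1 / 2 : ℝ) ^ 61 := by
          apply mul_le_mul_of_nonneg_left _ (by norm_num)
          apply pow_le_pow_of_le_one (by norm_num) (by norm_num)
          omega
      _ < 1 := by norm_num
  obtain ⟨hη1, hnum⟩ := num_fin hk hC1 hη0 ht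
  rw [ha] at han hη
  exact stage_of (by omega) han hμ hη hη1 hnum

end Pool.Agent.H18.SCD
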