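import Pool.Agent.H18.SCD.T6

set_option autoImplicit false

namespace Pool.Agent.H18.SCD

theorem infix_range' {γ : Type} {f : ℕ → γ} {k m : ℕ} {a b : γ}
    (h : List.IsInfix [a, b] ((List.range' k m).map f)) :
    ∃ i : ℕ, k ≤ i ∧ i + 1 < k + m ∧ a = f i ∧ b = f (i + 1) := by
  obtain ⟨s, t, h⟩ := h
  have h1 : ((List.range' k m).map f)[s.length]? = some a := by
    rw [← h]
    simp
  have h2 : ((List.range' k m).map f)[s.length + 1]? = some b := by
    rw [← h, List.append_assoc, List.getElem?_append_right (by omega)]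
    simp
  have hl1 : s.length + 1 < m := by
    have := congrArg List.length h
    simp at this
    omega
  rw [List.getElem?_map, List.getElem?_range' (by omega)] at h1 h2
  simp only [Option.map_some, Option.some.injEq, one_mul] at h1 h2
  exact ⟨k + s.length, by omega, by omega, h1.symm, by rw [← h2]; rfl⟩

/-- the list of the members of a symmetric chain -/
theorem exists_list {n : ℕ} {C : Set (Finset (Fin n))} (hC : IsSymmChain n C) :
    ∃ l : List (Finset (Fin n)), (∀ S, S ∈ l ↔ S ∈ C) ∧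
      (∃ a b : Finset (Fin n), l.head? = some a ∧ l.getLast? = some b ∧ a.card + b.card = n) ∧
      (∀ a b : Finset (Fin n), List.IsInfix [a, b] l →
        a ∈ C ∧ b ∈ C ∧ a ⊆ b ∧ b.card = a.card + 1) := by
  classical
  obtain ⟨hch, k, hk, hc⟩ := hC
  have h1 : ∀ i : ℕ, ∃ S : Finset (Fin n), (k ≤ i ∧ i ≤ n - k) → (S ∈ C ∧ S.card = i) := by
    intro i
    by_cases hi : k ≤ i ∧ i ≤ n - k
    · have : i ∈ Finset.card '' C := by rw [hc]; exact hi
      obtain ⟨S, hS, hSc⟩ := this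
      exact ⟨S, fun _ => ⟨hS, hSc⟩⟩
    · exact ⟨∅, fun h => absurd h hi⟩
  choose f hf using h1
  refine ⟨(List.range' k (n + 1 - 2 * k)).map f, ?_, ?_, ?_⟩
  · intro S
    rw [List.mem_map]
    constructor
    · rintro ⟨i, hi, rfl⟩
      rw [List.mem_range'_1] at hi
      exact (hf i ⟨hi.1, by omega⟩).1
    · intro hS
      have hm : S.card ∈ Set.Icc k (n - k) := hc ▸ ⟨S, hS, rfl⟩
      have h2 := hm.1
      have h3 := hm.2
      refine ⟨S.card, by rw [List.mem_range'_1]; omega, ?_⟩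
      have h4 := hf S.card ⟨h2, h3⟩
      exact chain_eq hch h4.1 hS h4.2
  · refine ⟨f k, f (n - k), ?_, ?_, ?_⟩
    · obtain ⟨m, hm⟩ : ∃ m, n + 1 - 2 * k = m + 1 := ⟨n - 2 * k, by omega⟩
      rw [hm]
      simp [List.range'_succ]
    · obtain ⟨m, hm⟩ : ∃ m, n + 1 - 2 * k = m + 1 := ⟨n - 2 * k, by omega⟩
      have hm2 : k + m = n - k := by omega
      rw [hm, List.range'_concat]
      simp [hm2]
    · rw [(hf k ⟨le_rfl, by omega⟩).2, (hf (n - k) ⟨by omega, le_rfl⟩).2]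
      omega
  · intro a b hab
    obtain ⟨i, hi1, hi2, rfl, rfl⟩ := infix_range' hab
    have h2 := hf i ⟨hi1, by omega⟩
    have h3 := hf (i + 1) ⟨by omega, by omega⟩
    refine ⟨h2.1, h3.1, chain_sub hch h2.1 h3.1 (by omega), by omega⟩

/-- conversion to lists -/
theorem to_lists {k n : ℕ} (D : Fin k → Set (Set (Finset (Fin n)))) (hD : ∀ i, IsSCD n (D i))
    (hE : ∀ i j : Fin k, i ≠ j → ∀ A B : Finset (Fin n),
      ¬ (UsesEdge n (D i) A B ∧ UsesEdge n (D j) A B)) :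
    ∃ D : Fin k → Set (List (Finset (Fin n))),
      (∀ i : Fin k,
        (∀ c ∈ D i,
          (∃ a b : Finset (Fin n), c.head? = some a ∧ c.getLast? = some b ∧
              a.card + b.card = n) ∧
          (∀ a b : Finset (Fin n), List.IsInfix [a, b] c →
              a ⊆ b ∧ b.card = a.card + 1)) ∧
        (∀ S : Finset (Fin n), ∃! c : List (Finset (Fin n)), c ∈ D i ∧ S ∈ c)) ∧
      (∀ i j : Fin k, i ≠ j →
        ∀ c ∈ D i, ∀ c' ∈ D j, ∀ a b : Finset (Fin n),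
          List.IsInfix [a, b] c → List.IsInfix [a, b] c' → False) := by
  classical
  have h1 : ∀ (i : Fin k) (C : Set (Finset (Fin n))), ∃ l : List (Finset (Fin n)), C ∈ D i →
      (∀ S, S ∈ l ↔ S ∈ C) ∧
      (∃ a b : Finset (Fin n), l.head? = some a ∧ l.getLast? = some b ∧ a.card + b.card = n) ∧
      (∀ a b : Finset (Fin n), List.IsInfix [a, b] l →
        a ∈ C ∧ b ∈ C ∧ a ⊆ b ∧ b.card = a.card + 1) := by
    intro i C
    by_cases hC : C ∈ D i
    · obtain ⟨l, hl⟩ := exists_list ((hD i).1 C hC)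
      exact ⟨l, fun _ => hl⟩
    · exact ⟨[], fun h => absurd h hC⟩
  choose L hL using h1
  refine ⟨fun i => {l | ∃ C ∈ D i, l = L i C}, ?_, ?_⟩
  · intro i
    refine ⟨?_, ?_⟩
    · rintro c ⟨C, hC, rfl⟩
      obtain ⟨-, h2, h3⟩ := hL i C hC
      exact ⟨h2, fun a b hab => (h3 a b hab).2.2⟩
    · intro S
      obtain ⟨C, ⟨hC, hSC⟩, hu⟩ := (hD i).2 S
      refine ⟨L i C, ⟨⟨C, hC, rfl⟩, ((hL i C hC).1 S).2 hSC⟩, ?_⟩
      rintro c ⟨⟨C', hC', rfl⟩, hS⟩
      rw [hu C' ⟨hC', ((hL i C' hC').1 S).1 hS⟩]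
  · intro i j hij c hc c' hc' a b hab hab'
    obtain ⟨C, hC, rfl⟩ := hc
    obtain ⟨C', hC', rfl⟩ := hc'
    have h2 := (hL i C hC).2.2 a b hab
    have h3 := (hL j C' hC').2.2 a b hab'
    exact hE i j hij a b ⟨⟨C, hC, h2⟩, ⟨C', hC', h3⟩⟩

end Pool.Agent.H18.SCD
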